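import Pool.Agent.SWH.Defs

/-!
# SWH module Gap: the exponential gap (real analysis)

PROOF.  `u n = log (c n)` is subadditive and nonnegative; `Subadditive.tendsto_lim`: `u n / n → λ ≥ 0`, `λ ≤ u n / n` (`Subadditive.lim_le_div`).
Put `b = exp λ ≥ 1`: `b ^ n ≤ c n` for all `n` (`n = 0`: `hc1`).  For a real `z` with `0 < z < 1 / b`: `c n ≤ b' ^ n` for large `n`, where `b < b' < 1/z`,
so `∑ c n z^n < ∞`.  Take `z0 = 1 / (2 b)` and its constant `C`.  For all real `z` in `[z0, 1/b)`: `(n + 1) z^n N n ≤ C`; let `z → 1/b`: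
`(n + 1) N n ≤ C b^n` for all `n`.  Choose `n ≥ 1` with `C / (n + 1) ≤ 1/2`.  Then `N n ≤ b^n / 2 = a^n` with `a = b * (1/2)^(1/n)`, `0 < a < b`.
For `k, r`: `N (k n + r) ≤ (N n)^k * N r ≤ a^(k n) * N r` (induction on `k`, `hNs`).  `D = ∑_{r < n} N r / a^r` (or with a maximum) works:
write `j = k n + r`, `r < n`.
-/

set_option autoImplicit false

open scoped ENNReal NNReal Classical
open Filter Topology

namespace Pool.Agent.SWH

/-- The growth rate of a submultiplicative sequence. -/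
theorem gap_aux1 (c : ℕ → ℝ) (hc1 : ∀ n, 1 ≤ c n) (hcs : ∀ m n, c (m + n) ≤ c m * c n) :
    ∃ lam : ℝ, 0 ≤ lam ∧ (∀ n, Real.exp lam ^ n ≤ c n) ∧
      ∀ z : ℝ, 0 < z → z < 1 / Real.exp lam → Summable (fun n => c n * z ^ n) := by
  have hpos : ∀ n, 0 < c n := fun n => lt_of_lt_of_le one_pos (hc1 n)
  have hsub : Subadditive (fun n => Real.log (c n)) := by
    intro m n
    change Real.log (c (m + n)) ≤ Real.log (c m) + Real.log (c n)
    rw [← Real.log_mul (hpos m).ne' (hpos n).ne']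
    exact Real.log_le_log (hpos _) (hcs m n)
  have hnn : ∀ n : ℕ, 0 ≤ Real.log (c n) / (n : ℝ) := fun n =>
    div_nonneg (Real.log_nonneg (hc1 n)) (Nat.cast_nonneg n)
  have hbdd : BddBelow (Set.range fun n : ℕ => Real.log (c n) / (n : ℝ)) := by
    refine ⟨0, ?_⟩
    rintro _ ⟨n, rfl⟩
    exact hnn n
  have hlim := hsub.tendsto_lim hbdd
  refine ⟨hsub.lim, ge_of_tendsto' hlim hnn, ?_, ?_⟩
  · intro n
    rcases Nat.eq_zero_or_pos n with h0 | h0
    · subst h0; simpa using hc1 0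
    · have h1 := hsub.lim_le_div hbdd h0.ne'
      have hn : (0 : ℝ) < n := by exact_mod_cast h0
      rw [le_div_iff₀ hn] at h1
      rw [← Real.exp_nat_mul]
      calc Real.exp ((n : ℝ) * hsub.lim) ≤ Real.exp (Real.log (c n)) := by
            apply Real.exp_le_exp.mpr
            linarith [h1, mul_comm (n : ℝ) hsub.lim]
        _ = c n := Real.exp_log (hpos n)
  · intro z hz hz1
    have h1 : hsub.lim < - Real.log z := by
      have h2 : Real.log z < Real.log (1 / Real.exp hsub.lim) := Real.log_lt_log hz hz1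
      rw [one_div, Real.log_inv, Real.log_exp] at h2
      linarith
    obtain ⟨mu, hmu1, hmu2⟩ := exists_between h1
    have h2 : ∀ᶠ n : ℕ in atTop, Real.log (c n) / (n : ℝ) < mu := hlim.eventually_lt_const hmu1
    have hr0 : 0 ≤ Real.exp (mu + Real.log z) := (Real.exp_pos _).le
    have hr1 : Real.exp (mu + Real.log z) < 1 := by
      rw [Real.exp_lt_one_iff] <;> linarith
    refine Summable.of_norm_bounded_eventually_nat (summable_geometric_of_lt_one hr0 hr1) ?_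
    filter_upwards [h2, eventually_gt_atTop 0] with n hn hn0
    have hn' : (0 : ℝ) < n := by exact_mod_cast hn0
    rw [div_lt_iff₀ hn'] at hn
    have h3 : c n * z ^ n = Real.exp (Real.log (c n) + n * Real.log z) := by
      rw [Real.exp_add, Real.exp_log (hpos n), Real.exp_nat_mul, Real.exp_log hz]
    have h4 : 0 ≤ c n * z ^ n := mul_nonneg (hpos n).le (pow_nonneg hz.le n)
    rw [Real.norm_of_nonneg h4, h3, ← Real.exp_nat_mul]
    apply Real.exp_le_exp.mpr
    nlinarith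

/-- The limit `z → 1 / b`. -/
theorem gap_aux2 (b C x : ℝ) (n : ℕ) (hb : 1 ≤ b)
    (h : ∀ z : ℝ, 1 / (2 * b) ≤ z → z < 1 / b → ((n : ℝ) + 1) * (z ^ n * x) ≤ C) :
    ((n : ℝ) + 1) * x ≤ C * b ^ n := by
  have hb0 : 0 < b := lt_of_lt_of_le one_pos hb
  have hlt : 1 / (2 * b) < 1 / b := by
    apply one_div_lt_one_div_of_lt hb0; linarith
  have hcont : Tendsto (fun z : ℝ => ((n : ℝ) + 1) * (z ^ n * x)) (𝓝[<] (1 / b))
      (𝓝 (((n : ℝ) + 1) * ((1 / b) ^ n * x))) := by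
    apply Tendsto.mono_left _ nhdsWithin_le_nhds
    exact (Continuous.tendsto (by fun_prop) _)
  have h1 : ((n : ℝ) + 1) * ((1 / b) ^ n * x) ≤ C := by
    refine le_of_tendsto hcont ?_
    have h2 : Set.Ioo (1 / (2 * b)) (1 / b) ∈ 𝓝[<] (1 / b) := Ioo_mem_nhdsLT hlt
    filter_upwards [h2] with z hz
    exact h z hz.1.le hz.2
  have hbn : 0 < b ^ n := pow_pos hb0 n
  calc ((n : ℝ) + 1) * x = (((n : ℝ) + 1) * ((1 / b) ^ n * x)) * b ^ n := by
        rw [one_div, inv_pow]; field_simp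
    _ ≤ C * b ^ n := mul_le_mul_of_nonneg_right h1 hbn.le

/-- Submultiplicativity: one good value gives an exponential bound. -/
theorem gap_aux3 (N : ℕ → ℝ) (h0 : ∀ n, 0 ≤ N n) (hs : ∀ m n, N (m + n) ≤ N m * N n) (a : ℝ) (ha : 0 < a)
    (n : ℕ) (hn : 0 < n) (h : N n ≤ a ^ n) : ∃ D : ℝ, 0 ≤ D ∧ ∀ j, N j ≤ D * a ^ j := by
  refine ⟨∑ r ∈ Finset.range n, N r / a ^ r, Finset.sum_nonneg fun r _ => div_nonneg (h0 r) (pow_nonneg ha.le r), ?_⟩
  have h1 : ∀ k r, N (k * n + r) ≤ a ^ (k * n) * N r := by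
    intro k r
    induction k with
    | zero => simp
    | succ k ih =>
      have h2 : (k + 1) * n + r = n + (k * n + r) := by ring
      rw [h2]
      calc N (n + (k * n + r)) ≤ N n * N (k * n + r) := hs _ _
        _ ≤ a ^ n * (a ^ (k * n) * N r) := mul_le_mul h ih (h0 _) (pow_nonneg ha.le n)
        _ = a ^ ((k + 1) * n) * N r := by rw [← mul_assoc, ← pow_add]; ring_nf
  intro j
  have h2 := h1 (j / n) (j % n)
  have h3 : j / n * n + j % n = j := Nat.div_add_mod' j n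
  have hr : j % n < n := Nat.mod_lt _ hn
  rw [h3] at h2
  have hp : 0 < a ^ (j % n) := pow_pos ha _
  have h4 : N (j % n) / a ^ (j % n) ≤ ∑ r ∈ Finset.range n, N r / a ^ r :=
    Finset.single_le_sum (f := fun r => N r / a ^ r) (fun r _ => div_nonneg (h0 r) (pow_nonneg ha.le r))
      (Finset.mem_range.mpr hr)
  calc N j ≤ a ^ (j / n * n) * N (j % n) := h2
    _ = (N (j % n) / a ^ (j % n)) * a ^ j := by
        have h5 : a ^ j = a ^ (j / n * n) * a ^ (j % n) := by rw [← pow_add, h3]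
        rw [h5]; field_simp
    _ ≤ (∑ r ∈ Finset.range n, N r / a ^ r) * a ^ j := mul_le_mul_of_nonneg_right h4 (pow_nonneg ha.le j)

theorem gapA (c : ℕ → ℝ) (N : ℕ → ℝ≥0∞) (hc1 : ∀ n, 1 ≤ c n) (hcs : ∀ m n, c (m + n) ≤ c m * c n)
    (hNs : ∀ m n, N (m + n) ≤ N m * N n) (hNf : ∀ n, N n ≠ ⊤)
    (hb : ∀ z0 : ℝ≥0∞, z0 ≠ 0 → z0 ≤ 1 → ∃ C : ℝ≥0∞, C ≠ ⊤ ∧ ∀ z, z0 ≤ z → z ≤ 1 →
      (∑' n : ℕ, ENNReal.ofReal (c n) * z ^ n ≠ ⊤) → ∀ n : ℕ, ((n : ℝ≥0∞) + 1) * (z ^ n * N n) ≤ C) :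
    ∃ a b D : ℝ, 0 ≤ a ∧ a < b ∧ 0 ≤ D ∧ (∀ n, b ^ n ≤ c n) ∧ ∀ n, N n ≤ ENNReal.ofReal (D * a ^ n) := by
  obtain ⟨lam, hlam, hbc, hsum⟩ := gap_aux1 c hc1 hcs
  set b := Real.exp lam with hbdef
  have hb1 : 1 ≤ b := Real.one_le_exp hlam
  have hb0 : 0 < b := lt_of_lt_of_le one_pos hb1
  have hz0pos : (0 : ℝ) < 1 / (2 * b) := by positivity
  have hz0le : (1 : ℝ) / (2 * b) ≤ 1 := by
    rw [div_le_one (by positivity)]; linarith
  obtain ⟨C, hC, hCz⟩ := hb (ENNReal.ofReal (1 / (2 * b))) (by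
    intro h; rw [ENNReal.ofReal_eq_zero] at h; linarith) (by
    rw [← ENNReal.ofReal_one]; exact ENNReal.ofReal_le_ofReal hz0le)
  have hN0 : ∀ n, 0 ≤ (N n).toReal := fun n => ENNReal.toReal_nonneg
  have key : ∀ n : ℕ, ((n : ℝ) + 1) * (N n).toReal ≤ C.toReal * b ^ n := by
    intro n
    apply gap_aux2 b C.toReal (N n).toReal n hb1
    intro z hz1 hz2
    have hzpos : 0 < z := lt_of_lt_of_le hz0pos hz1
    have hz3 : z ≤ 1 := by
      refine hz2.le.trans ?_
      rw [div_le_one hb0]; exact hb1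
    have h1 := hCz (ENNReal.ofReal z) (ENNReal.ofReal_le_ofReal hz1) (by
      rw [← ENNReal.ofReal_one]; exact ENNReal.ofReal_le_ofReal hz3) (by
      have h2 : ∀ n : ℕ, ENNReal.ofReal (c n) * ENNReal.ofReal z ^ n = ENNReal.ofReal (c n * z ^ n) := by
        intro n
        rw [← ENNReal.ofReal_pow hzpos.le, ← ENNReal.ofReal_mul (le_trans zero_le_one (hc1 n))]
      rw [tsum_congr h2]
      exact (hsum z hzpos hz2).tsum_ofReal_ne_top) n
    have h3 := ENNReal.toReal_mono hC h1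
    rw [ENNReal.toReal_mul, ENNReal.toReal_mul, ENNReal.toReal_pow, ENNReal.toReal_ofReal hzpos.le] at h3
    have h4 : ((n : ℝ≥0∞) + 1).toReal = (n : ℝ) + 1 := by
      rw [ENNReal.toReal_add (by simp) (by simp)]; simp
    rw [h4] at h3
    exact h3
  obtain ⟨n, hn⟩ := exists_nat_gt (2 * C.toReal)
  have hC0 : 0 ≤ C.toReal := ENNReal.toReal_nonneg
  have hnpos : 0 < n := by
    rcases Nat.eq_zero_or_pos n with h | h
    · subst h; simp at hn; linarith
    · exact h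
  have hn' : (0 : ℝ) < n := by exact_mod_cast hnpos
  have hhalf : (N n).toReal ≤ b ^ n / 2 := by
    have h1 := key n
    have hbn : 0 < b ^ n := pow_pos hb0 n
    have h2 : C.toReal * b ^ n ≤ ((n : ℝ) + 1) / 2 * b ^ n := by
      apply mul_le_mul_of_nonneg_right _ hbn.le
      linarith
    have h3 : ((n : ℝ) + 1) * (N n).toReal ≤ ((n : ℝ) + 1) * (b ^ n / 2) := by
      calc _ ≤ _ := h1
        _ ≤ _ := h2
        _ = _ := by ring
    exact le_of_mul_le_mul_left h3 (by linarith)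
  set t : ℝ := (1 / 2 : ℝ) ^ (1 / (n : ℝ)) with ht
  have ht0 : 0 < t := Real.rpow_pos_of_pos (by norm_num) _
  have ht1 : t < 1 := Real.rpow_lt_one (by norm_num) (by norm_num) (by positivity)
  have htn : t ^ n = 1 / 2 := by
    rw [ht, ← Real.rpow_natCast, ← Real.rpow_mul (by norm_num), one_div_mul_cancel hn'.ne', Real.rpow_one]
  have ha0 : 0 < b * t := mul_pos hb0 ht0
  obtain ⟨D, hD, hDj⟩ := gap_aux3 (fun n => (N n).toReal) hN0 (fun m k => by
      change (N (m + k)).toReal ≤ (N m).toReal * (N k).toReal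
      rw [← ENNReal.toReal_mul]
      exact ENNReal.toReal_mono (ENNReal.mul_ne_top (hNf m) (hNf k)) (hNs m k))
    (b * t) ha0 n hnpos (by
      change (N n).toReal ≤ (b * t) ^ n
      rw [mul_pow, htn]
      linarith)
  refine ⟨b * t, b, D, ha0.le, ?_, hD, hbc, ?_⟩
  · nlinarith
  · intro j
    rw [← ENNReal.ofReal_toReal (hNf j)]
    exact ENNReal.ofReal_le_ofReal (hDj j)

end Pool.Agent.SWH
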