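import Mathlib
import Pool.Agent.SAWL.Defs

/-!
# SWH: self-avoiding walks on nonamenable graphs with an integer height function (MP_69df71_pr): definitions

The vertex set is `Γ × I`, where the group `Γ` acts by left multiplication on the first coordinate.
`nrm k`: the norm on `l^2(Γ)` of the operator with the matrix `k (a⁻¹ b)`.
A kernel is a function `K x y`; `cmp` is the product of kernels, `row` the row sum, `blk K i j` a block of an
invariant kernel, `nn K` the sum of the norms of the blocks.
A walk from `x` is the list `l` of its later vertices; `endp x l` is its last vertex; `wt z P x y` is the sum of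
`z ^ length` over the walks of the class `P` from `x` to `y`.
`Sw`: self-avoiding walks.  `Br`: bridges.  `Cl L`: bridges of span at least `L` which are not the product of a
bridge of span at least `L` and a nontrivial bridge.  `Hs T`: half-space walks of height at most `T`.
-/

set_option autoImplicit false

open scoped ENNReal NNReal Classical
open Filter Topology

noncomputable section

namespace Pool.Agent.SWH

/-! ### Convolution norms -/

/-- The norm of the convolution operator with the nonnegative kernel `k (a⁻¹ b)`. -/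
def nrm {Γ : Type} [Group Γ] (k : Γ → ℝ≥0∞) : ℝ≥0∞ :=
  ⨆ (A : Finset Γ) (B : Finset Γ) (u : Γ → ℝ≥0) (v : Γ → ℝ≥0)
    (_ : ∑ a ∈ A, u a ^ 2 ≤ 1) (_ : ∑ b ∈ B, v b ^ 2 ≤ 1),
    ∑ a ∈ A, ∑ b ∈ B, (u a : ℝ≥0∞) * k (a⁻¹ * b) * (v b : ℝ≥0∞)

/-- Convolution. -/
def cnv {Γ : Type} [Group Γ] (k l : Γ → ℝ≥0∞) (g : Γ) : ℝ≥0∞ := ∑' c, k c * l (c⁻¹ * g)

/-- The norm of the indicator function of the finite set `F`. -/
def nrF {Γ : Type} [Group Γ] (F : Finset Γ) : ℝ≥0∞ := nrm (fun g => if g ∈ F then 1 else 0)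

/-! ### Kernels -/

/-- Kernels on `V`. -/
abbrev Ker (V : Type) : Type := V → V → ℝ≥0∞

/-- The product of two kernels. -/
def cmp {V : Type} (K L : Ker V) : Ker V := fun x y => ∑' z, K x z * L z y

/-- The row sum. -/
def row {V : Type} (K : Ker V) (x : V) : ℝ≥0∞ := ∑' y, K x y

/-- The identity kernel. -/
def idK {V : Type} : Ker V := fun x y => if x = y then 1 else 0

/-- The adjacency kernel. -/
def adK {V : Type} (G : SimpleGraph V) : Ker V := fun x y => if G.Adj x y then 1 else 0

/-- The transposed kernel. -/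
def tp {V : Type} (K : Ker V) : Ker V := fun x y => K y x

/-- The action of `Γ` on `Γ × I`. -/
def tr {Γ I : Type} [Group Γ] (γ : Γ) (x : Γ × I) : Γ × I := (γ * x.1, x.2)

/-- Invariant kernels. -/
def InvK {Γ I : Type} [Group Γ] (K : Ker (Γ × I)) : Prop := ∀ γ x y, K (tr γ x) (tr γ y) = K x y

/-- A block of a kernel. -/
def blk {Γ I : Type} [Group Γ] (K : Ker (Γ × I)) (i j : I) (g : Γ) : ℝ≥0∞ := K (1, i) (g, j)

/-- The sum of the norms of the blocks. -/
def nn {Γ I : Type} [Group Γ] [Fintype I] (K : Ker (Γ × I)) : ℝ≥0∞ := ∑ i, ∑ j, nrm (blk K i j)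

/-! ### Walks -/

/-- The last vertex of the walk with the first vertex `x` and the later vertices `l`. -/
def endp {V : Type} (x : V) (l : List V) : V := l.getLastD x

/-- Generating function of the walks of the class `P`. -/
def wt {V : Type} (z : ℝ≥0∞) (P : V → List V → Prop) : Ker V :=
  fun x y => ∑' l : List V, if P x l ∧ endp x l = y then z ^ l.length else 0

/-- Self-avoiding walks. -/
def Sw {V : Type} (G : SimpleGraph V) (x : V) (l : List V) : Prop :=
  (x :: l).IsChain G.Adj ∧ (x :: l).Nodup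

/-- Self-avoiding walks of length `n`. -/
def SwE {V : Type} (G : SimpleGraph V) (n : ℕ) (x : V) (l : List V) : Prop := Sw G x l ∧ l.length = n

/-- Self-avoiding walks of length at most `n`. -/
def SwN {V : Type} (G : SimpleGraph V) (n : ℕ) (x : V) (l : List V) : Prop := Sw G x l ∧ l.length ≤ n

/-- Bridges with respect to the height function `h`. -/
def Br {V : Type} (G : SimpleGraph V) (h : V → ℤ) (x : V) (l : List V) : Prop :=
  Sw G x l ∧ ∀ y ∈ l, h x < h y ∧ h y ≤ h (endp x l)

/-- The span of a walk. -/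
def sp {V : Type} (h : V → ℤ) (x : V) (l : List V) : ℤ := h (endp x l) - h x

/-- Bridges of span at least `L` which are no product of a bridge of span at least `L` and a nontrivial bridge. -/
def Cl {V : Type} (G : SimpleGraph V) (h : V → ℤ) (L : ℕ) (x : V) (l : List V) : Prop :=
  Br G h x l ∧ (L : ℤ) ≤ sp h x l ∧
    ∀ l1 l2, l = l1 ++ l2 → l2 ≠ [] → Br G h x l1 → (L : ℤ) ≤ sp h x l1 → ¬ Br G h (endp x l1) l2

/-- The walks of the class `P` of span `T`. -/
def sl {V : Type} (h : V → ℤ) (P : V → List V → Prop) (T : ℕ) (x : V) (l : List V) : Prop :=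
  P x l ∧ sp h x l = (T : ℤ)

/-- Half-space walks of height at most `T`. -/
def Hs {V : Type} (G : SimpleGraph V) (h : V → ℤ) (T : ℕ) (x : V) (l : List V) : Prop :=
  Sw G x l ∧ ∀ y ∈ l, h x < h y ∧ h y ≤ h x + T

/-- There is a bridge from `x` to `y`. -/
def U {V : Type} (G : SimpleGraph V) (h : V → ℤ) (x y : V) : Prop := ∃ l, Br G h x l ∧ endp x l = y

/-! ### The hypotheses -/

/-- The hypotheses on the graph and the height function.  `gap` is the spectral gap. -/
structure Hyp {Γ I : Type} [Group Γ] [Fintype I] (G : SimpleGraph (Γ × I)) (h : Γ × I → ℤ) (m : ℕ) (θ : ℝ) :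
    Prop where
  inv : ∀ (γ : Γ) (x y : Γ × I), G.Adj (tr γ x) (tr γ y) ↔ G.Adj x y
  conn : G.Connected
  fin : ∀ x, (G.neighborSet x).Finite
  eqv : ∃ φ : Γ → ℤ, ∀ γ x, h (tr γ x) = φ γ + h x
  up : ∀ x, ∃ y, G.Adj x y ∧ h x < h y
  dn : ∀ x, ∃ y, G.Adj x y ∧ h y < h x
  lip : ∀ x y, G.Adj x y → h y ≤ h x + m
  pos : 0 < θ
  gap : ∀ f : Γ × I → ℝ, f.support.Finite →
    ENNReal.ofReal θ * ∑' x, ENNReal.ofReal (f x ^ 2) ≤
      ∑' x, ∑' y, if G.Adj x y then ENNReal.ofReal ((f x - f y) ^ 2) else 0

theorem Hyp.neg {Γ I : Type} [Group Γ] [Fintype I] {G : SimpleGraph (Γ × I)} {h : Γ × I → ℤ} {m : ℕ} {θ : ℝ}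
    (H : Hyp G h m θ) : Hyp G (fun x => - h x) m θ where
  inv := H.inv
  conn := H.conn
  fin := H.fin
  eqv := by
    obtain ⟨φ, hφ⟩ := H.eqv
    refine ⟨fun γ => - φ γ, fun γ x => ?_⟩
    have h1 := hφ γ x
    change - h (tr γ x) = - φ γ + - h x
    omega
  up := by
    intro x
    obtain ⟨y, h1, h2⟩ := H.dn x
    exact ⟨y, h1, by change - h x < - h y; omega⟩
  dn := by
    intro x
    obtain ⟨y, h1, h2⟩ := H.up x
    exact ⟨y, h1, by change - h y < - h x; omega⟩
  lip := by
    intro x y hxy
    have h1 := H.lip y x hxy.symm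
    change - h y ≤ - h x + m
    omega
  pos := H.pos
  gap := H.gap

/-! ### Basic facts -/

theorem endp_nil {V : Type} (x : V) : endp x [] = x := rfl

theorem endp_cons {V : Type} (x y : V) (l : List V) : endp x (y :: l) = endp y l := by
  unfold endp
  exact List.getLastD_cons ..

theorem endp_append {V : Type} (x : V) (l1 l2 : List V) : endp x (l1 ++ l2) = endp (endp x l1) l2 := by
  induction l1 generalizing x with
  | nil => rfl
  | cons a l ih => rw [List.cons_append, endp_cons, endp_cons, ih]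

theorem endp_mem {V : Type} (x : V) (l : List V) : endp x l ∈ x :: l := by
  induction l generalizing x with
  | nil => simp [endp_nil]
  | cons a l ih =>
    rw [endp_cons]
    exact List.mem_cons_of_mem _ (ih a)

theorem tr_one {Γ I : Type} [Group Γ] (x : Γ × I) : tr 1 x = x := by
  unfold tr; simp

theorem tr_mul {Γ I : Type} [Group Γ] (a b : Γ) (x : Γ × I) : tr (a * b) x = tr a (tr b x) := by
  unfold tr; simp [mul_assoc]

theorem tr_snd {Γ I : Type} [Group Γ] (a : Γ) (x : Γ × I) : (tr a x).2 = x.2 := rfl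

theorem tr_inj {Γ I : Type} [Group Γ] (a : Γ) {x y : Γ × I} (h : tr a x = tr a y) : x = y := by
  have h1 : tr a⁻¹ (tr a x) = tr a⁻¹ (tr a y) := by rw [h]
  rw [← tr_mul, ← tr_mul, inv_mul_cancel, tr_one, tr_one] at h1
  exact h1

theorem endp_map {Γ I : Type} [Group Γ] (a : Γ) (x : Γ × I) (l : List (Γ × I)) :
    endp (tr a x) (l.map (tr a)) = tr a (endp x l) := by
  induction l generalizing x with
  | nil => rfl
  | cons b l ih => rw [List.map_cons, endp_cons, endp_cons, ih]

end Pool.Agent.SWH
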