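import Pool.Agent.SWH.Defs

/-!
# SWH module Brg: combinatorics of bridges

PROOF.  `Br_append`: the vertices of `l1` have height at most `h (endp x l1)`, those of `l2` have larger height, so the
lists are disjoint (`List.nodup_append`); the chain condition: `List.isChain_append` / induction on `l1` (the last vertex of
`x :: l1` is `endp x l1`, which is adjacent to the first vertex of `l2`).  Heights: `endp_append`.
`Cl_of_Br`: if `l = l1 ++ l2` with `l2 ≠ []` and `Br (endp x l1) l2`, then `sp x l = sp x l1 + sp (endp x l1) l2 > sp x l1 ≥ L`.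
`Br_split`: choose the decomposition `l = l1 ++ l2` with `Br x l1`, `L ≤ sp x l1`, `Br (endp x l1) l2` and `l1` of least length
(`l1 = l`, `l2 = []` is one; `Nat.find` / strong induction); if `l1 = m1 ++ m2`, `m2 ≠ []`, `Br x m1`, `L ≤ sp x m1`,
`Br (endp x m1) m2` then `Br (endp x m1) (m2 ++ l2)` by `Br_append`, contradicting the choice.
`Cl_inj`: `List.append_eq_append_iff`: say `l1' = l1 ++ m`, `l2 = m ++ l2'`.  If `m ≠ []`, then `m` is a bridge from `endp x l1`:
its vertices are higher than `endp x l1` (vertices of the bridge `l2`) and at most `h (endp x l1')` (vertices of `l1'`), and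
`endp (endp x l1) m = endp x l1'`; this contradicts `Cl L x l1'`.
-/

set_option autoImplicit false

open scoped ENNReal NNReal Classical
open Filter Topology

namespace Pool.Agent.SWH

variable {V : Type} {G : SimpleGraph V} {h : V → ℤ}

private theorem chain_append' (x : V) (l1 l2 : List V) :
    (x :: (l1 ++ l2)).IsChain G.Adj ↔
      (x :: l1).IsChain G.Adj ∧ (endp x l1 :: l2).IsChain G.Adj := by
  induction l1 generalizing x with
  | nil =>
    rw [List.nil_append, endp_nil]
    exact ⟨fun h => ⟨List.isChain_singleton x, h⟩, fun h => h.2⟩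
  | cons a l ih =>
    rw [List.cons_append, List.isChain_cons_cons, List.isChain_cons_cons, endp_cons, ih a]
    tauto

theorem Sw_nil (x : V) : Sw G x [] :=
  ⟨List.isChain_singleton x, List.nodup_singleton x⟩

/-- Initial and final parts of self-avoiding walks are self-avoiding walks. -/
theorem Sw_split {x : V} {l1 l2 : List V} (h1 : Sw G x (l1 ++ l2)) : Sw G x l1 ∧ Sw G (endp x l1) l2 := by
  obtain ⟨h2, h3⟩ := h1
  rw [chain_append'] at h2
  rw [← List.cons_append, List.nodup_append'] at h3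
  refine ⟨⟨h2.1, h3.1⟩, ⟨h2.2, ?_⟩⟩
  rw [List.nodup_cons]
  exact ⟨fun h => h3.2.2 (endp_mem x l1) h, h3.2.1⟩

/-- The product of two self-avoiding walks whose vertices are disjoint. -/
theorem Sw_append {x : V} {l1 l2 : List V} (h1 : Sw G x l1) (h2 : Sw G (endp x l1) l2)
    (h3 : ∀ y ∈ x :: l1, y ∉ l2) : Sw G x (l1 ++ l2) := by
  refine ⟨(chain_append' x l1 l2).2 ⟨h1.1, h2.1⟩, ?_⟩
  rw [← List.cons_append, List.nodup_append']
  exact ⟨h1.2, (List.nodup_cons.1 h2.2).2, fun y hy hy2 => h3 y hy hy2⟩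

theorem Br_nil (x : V) : Br G h x [] :=
  ⟨Sw_nil x, fun _ hy => absurd hy List.not_mem_nil⟩

private theorem br_le' {x : V} {l : List V} (h1 : Br G h x l) : h x ≤ h (endp x l) := by
  rcases List.mem_cons.1 (endp_mem x l) with h2 | h2
  · rw [h2]
  · exact (h1.2 _ h2).1.le

private theorem endp_mem' {x : V} {l : List V} (hl : l ≠ []) : endp x l ∈ l := by
  cases l with
  | nil => exact absurd rfl hl
  | cons a l => rw [endp_cons]; exact endp_mem a l

theorem Br_append {x : V} {l1 l2 : List V} (h1 : Br G h x l1) (h2 : Br G h (endp x l1) l2) :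
    Br G h x (l1 ++ l2) := by
  have h3 := br_le' h1
  have h4 := br_le' h2
  refine ⟨Sw_append h1.1 h2.1 ?_, ?_⟩
  · intro y hy hy2
    have h5 := (h2.2 y hy2).1
    rcases List.mem_cons.1 hy with h6 | h6
    · rw [h6] at h5
      omega
    · have h7 := (h1.2 y h6).2
      omega
  · intro y hy
    rw [endp_append]
    rcases List.mem_append.1 hy with h6 | h6
    · have h7 := h1.2 y h6
      exact ⟨h7.1, h7.2.trans h4⟩
    · have h7 := h2.2 y h6
      exact ⟨by omega, h7.2⟩

theorem sp_append (x : V) (l1 l2 : List V) : sp h x (l1 ++ l2) = sp h x l1 + sp h (endp x l1) l2 := by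
  unfold sp
  rw [endp_append]
  ring

theorem Br_sp_nonneg {x : V} {l : List V} (h1 : Br G h x l) : 0 ≤ sp h x l := by
  have := br_le' h1
  unfold sp
  omega

theorem Br_sp_pos {x : V} {l : List V} (h1 : Br G h x l) (hl : l ≠ []) : 0 < sp h x l := by
  have h2 : h x < h (endp x l) := (h1.2 (endp x l) (endp_mem' hl)).1
  unfold sp
  omega

theorem Cl_of_Br {L : ℕ} {x : V} {l : List V} (h1 : Br G h x l) (h2 : sp h x l = L) : Cl G h L x l := by
  refine ⟨h1, h2.symm.le, ?_⟩
  intro l1 l2 he hne hb1 hL hb2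
  have h3 := Br_sp_pos hb2 hne
  rw [he, sp_append] at h2
  omega

private theorem br_split' {L : ℕ} {x : V} : ∀ (n : ℕ) (l : List V), l.length ≤ n → Br G h x l →
    (L : ℤ) ≤ sp h x l → ∃ l1 l2, l = l1 ++ l2 ∧ Cl G h L x l1 ∧ Br G h (endp x l1) l2 := by
  intro n
  induction n with
  | zero =>
    intro l hl h1 h2
    have hl0 : l = [] := List.length_eq_zero_iff.1 (Nat.le_zero.1 hl)
    refine ⟨l, [], (List.append_nil l).symm, ⟨h1, h2, ?_⟩, Br_nil _⟩
    intro l1 l2 he hne _ _ _
    rw [hl0] at he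
    exact hne (List.append_eq_nil_iff.1 he.symm).2
  | succ n ih =>
    intro l hl h1 h2
    by_cases hC : Cl G h L x l
    · exact ⟨l, [], (List.append_nil l).symm, hC, Br_nil _⟩
    · unfold Cl at hC
      push Not at hC
      obtain ⟨m1, m2, he, hne, hb1, hL, hb2⟩ := hC h1 h2
      have hlen : m1.length ≤ n := by
        have h3 : l.length = m1.length + m2.length := by rw [he, List.length_append]
        have h4 : 0 < m2.length := List.length_pos_iff.2 hne
        omega
      obtain ⟨l1, l2, he2, hC1, hB1⟩ := ih m1 hlen hb1 hL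
      refine ⟨l1, l2 ++ m2, ?_, hC1, ?_⟩
      · rw [he, he2, List.append_assoc]
      · refine Br_append hB1 ?_
        rw [← endp_append, ← he2]
        exact hb2

theorem Br_split {L : ℕ} {x : V} {l : List V} (h1 : Br G h x l) (h2 : (L : ℤ) ≤ sp h x l) :
    ∃ l1 l2, l = l1 ++ l2 ∧ Cl G h L x l1 ∧ Br G h (endp x l1) l2 :=
  br_split' l.length l le_rfl h1 h2

private theorem cl_inj' {L : ℕ} {x : V} {l1 m l2 : List V} (h1 : Cl G h L x l1)
    (h2 : Br G h (endp x l1) (m ++ l2)) (h3 : Cl G h L x (l1 ++ m)) : m = [] := by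
  by_contra hm
  refine h3.2.2 l1 m rfl hm h1.1 h1.2.1 ⟨(Sw_split h2.1).1, ?_⟩
  intro y hy
  refine ⟨(h2.2 y (List.mem_append_left _ hy)).1, ?_⟩
  have h4 := (h3.1.2 y (List.mem_append_right _ hy)).2
  rw [endp_append] at h4
  exact h4

theorem Cl_inj {L : ℕ} {x : V} {l1 l2 l1' l2' : List V} (h1 : Cl G h L x l1) (h2 : Br G h (endp x l1) l2)
    (h1' : Cl G h L x l1') (h2' : Br G h (endp x l1') l2') (he : l1 ++ l2 = l1' ++ l2') : l1 = l1' := by
  rcases List.append_eq_append_iff.1 he with ⟨m, h3, h4⟩ | ⟨m, h3, h4⟩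
  · rw [h4] at h2
    rw [h3] at h1'
    have := cl_inj' h1 h2 h1'
    rw [h3, this, List.append_nil]
  · rw [h4] at h2'
    rw [h3] at h1
    have := cl_inj' h1' h2' h1
    rw [h3, this, List.append_nil]

end Pool.Agent.SWH
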