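import Pool.Agent.SWH.Cnv

/-!
# SWH module Ker: matrix kernels

PROOF.  `blk_cmp`: `cmp K L (1, i) (g, j) = ∑' z : Γ × I, K (1, i) z * L z (g, j) = ∑ k, ∑' c, K (1, i) (c, k) * L (c, k) (g, j)`
(`ENNReal.tsum_prod'`/`tsum_comm`, `tsum_fintype`), and `L (c, k) (g, j) = L (tr c (1, k)) (tr c (c⁻¹ g, j)) = L (1, k) (c⁻¹ g, j)`.
`nrm_blk_cmp`: `nrm` of a finite sum (`nrm_tsum` with `tsum_fintype`) and `nrm_cnv`.
`nn_cmp`: `∑_i ∑_j ∑_k N_ik N'_kj ≤ (∑_i ∑_k N_ik) (∑_k ∑_j N'_kj)`.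
`nn_tp`: `blk (tp K) i j g = K (g, j) (1, i) = K (1, j) (g⁻¹, i) = blk K j i g⁻¹` (apply `tr g⁻¹`) and `nrm_inv`.
`nn_le_row`: `nrm_le_tsum` and `row K (1, i) = ∑ j, ∑' g, K (1, i) (g, j)`.
-/

set_option autoImplicit false

open scoped ENNReal NNReal Classical
open Filter Topology

namespace Pool.Agent.SWH

variable {Γ I : Type} [Group Γ] [Fintype I]

private theorem tsum_split (f : Γ × I → ℝ≥0∞) : ∑' z, f z = ∑ k, ∑' c, f (c, k) := by
  rw [ENNReal.tsum_prod', ENNReal.tsum_comm, tsum_fintype]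

theorem row_eq (K : Ker (Γ × I)) (x : Γ × I) : row K x = ∑ j, ∑' g, K x (g, j) :=
  tsum_split _

theorem row_cmp {V : Type} (K L : Ker V) (x : V) : row (cmp K L) x = ∑' y, K x y * row L y := by
  unfold row cmp
  rw [ENNReal.tsum_comm]
  exact tsum_congr fun y => ENNReal.tsum_mul_left

private def trE (γ : Γ) : (Γ × I) ≃ (Γ × I) where
  toFun := tr γ
  invFun := tr γ⁻¹
  left_inv := fun x => by rw [← tr_mul, inv_mul_cancel, tr_one]
  right_inv := fun x => by rw [← tr_mul, mul_inv_cancel, tr_one]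

theorem row_tr {K : Ker (Γ × I)} (hK : InvK K) (γ : Γ) (x : Γ × I) : row K (tr γ x) = row K x := by
  unfold row
  rw [← (trE (I := I) γ).tsum_eq (fun y => K (tr γ x) y)]
  exact tsum_congr fun y => hK γ x y

theorem InvK_cmp {K L : Ker (Γ × I)} (hK : InvK K) (hL : InvK L) : InvK (cmp K L) := by
  intro γ x y
  unfold cmp
  rw [← (trE (I := I) γ).tsum_eq (fun z => K (tr γ x) z * L z (tr γ y))]
  refine tsum_congr fun z => ?_
  change K (tr γ x) (tr γ z) * L (tr γ z) (tr γ y) = _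
  rw [hK, hL]

theorem InvK_tp {K : Ker (Γ × I)} (hK : InvK K) : InvK (tp K) := fun γ x y => hK γ y x

theorem blk_cmp {K L : Ker (Γ × I)} (hL : InvK L) (i j : I) (g : Γ) :
    blk (cmp K L) i j g = ∑ k, cnv (blk K i k) (blk L k j) g := by
  unfold blk cmp cnv
  rw [tsum_split]
  refine Finset.sum_congr rfl fun k _ => tsum_congr fun c => ?_
  have h := hL c (1, k) (c⁻¹ * g, j)
  have h2 : L (c, k) (g, j) = L (1, k) (c⁻¹ * g, j) := by
    rw [← h]
    unfold tr
    simp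
  rw [h2]

theorem nrm_blk_cmp {K L : Ker (Γ × I)} (hL : InvK L) (i j : I) :
    nrm (blk (cmp K L) i j) ≤ ∑ k, nrm (blk K i k) * nrm (blk L k j) := by
  have h1 : blk (cmp K L) i j = fun g => ∑' k : I, cnv (blk K i k) (blk L k j) g := by
    funext g
    rw [blk_cmp hL, tsum_fintype]
  rw [h1]
  refine le_trans (nrm_tsum _) ?_
  rw [tsum_fintype]
  exact Finset.sum_le_sum fun k _ => nrm_cnv _ _

theorem nn_cmp {K L : Ker (Γ × I)} (hL : InvK L) : nn (cmp K L) ≤ nn K * nn L := by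
  unfold nn
  calc ∑ i, ∑ j, nrm (blk (cmp K L) i j)
      ≤ ∑ i, ∑ j, ∑ k, nrm (blk K i k) * nrm (blk L k j) :=
        Finset.sum_le_sum fun i _ => Finset.sum_le_sum fun j _ => nrm_blk_cmp hL i j
    _ = ∑ i, ∑ k, nrm (blk K i k) * ∑ j, nrm (blk L k j) := by
        refine Finset.sum_congr rfl fun i _ => ?_
        rw [Finset.sum_comm]
        exact Finset.sum_congr rfl fun k _ => (Finset.mul_sum _ _ _).symm
    _ ≤ ∑ i, ∑ k, nrm (blk K i k) * ∑ k', ∑ j, nrm (blk L k' j) := by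
        refine Finset.sum_le_sum fun i _ => Finset.sum_le_sum fun k _ => ?_
        refine mul_le_mul_right ?_ _
        exact Finset.single_le_sum (f := fun k' => ∑ j, nrm (blk L k' j)) (fun _ _ => bot_le) (Finset.mem_univ k)
    _ = (∑ i, ∑ k, nrm (blk K i k)) * ∑ k', ∑ j, nrm (blk L k' j) := by
        rw [Finset.sum_mul]
        exact Finset.sum_congr rfl fun i _ => (Finset.sum_mul _ _ _).symm

theorem nn_mono {K L : Ker (Γ × I)} (h : ∀ x y, K x y ≤ L x y) : nn K ≤ nn L :=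
  Finset.sum_le_sum fun i _ => Finset.sum_le_sum fun j _ => nrm_mono fun g => h _ _

theorem nn_tsum {ι : Type} (K : ι → Ker (Γ × I)) : nn (fun x y => ∑' t, K t x y) ≤ ∑' t, nn (K t) := by
  unfold nn
  calc ∑ i, ∑ j, nrm (blk (fun x y => ∑' t, K t x y) i j)
      ≤ ∑ i, ∑ j, ∑' t, nrm (blk (K t) i j) :=
        Finset.sum_le_sum fun i _ => Finset.sum_le_sum fun j _ => nrm_tsum (fun t => blk (K t) i j)
    _ = ∑' t, ∑ i, ∑ j, nrm (blk (K t) i j) := by
        rw [Summable.tsum_finsetSum (fun _ _ => ENNReal.summable)]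
        refine Finset.sum_congr rfl fun i _ => ?_
        rw [Summable.tsum_finsetSum (fun _ _ => ENNReal.summable)]

theorem nn_add (K L : Ker (Γ × I)) : nn (fun x y => K x y + L x y) ≤ nn K + nn L := by
  unfold nn
  rw [← Finset.sum_add_distrib]
  refine Finset.sum_le_sum fun i _ => ?_
  rw [← Finset.sum_add_distrib]
  exact Finset.sum_le_sum fun j _ => nrm_add (blk K i j) (blk L i j)

theorem nn_smul (c : ℝ≥0∞) (K : Ker (Γ × I)) : nn (fun x y => c * K x y) = c * nn K := by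
  unfold nn
  rw [Finset.mul_sum]
  refine Finset.sum_congr rfl fun i _ => ?_
  rw [Finset.mul_sum]
  exact Finset.sum_congr rfl fun j _ => nrm_smul c (blk K i j)

theorem nn_tp {K : Ker (Γ × I)} (hK : InvK K) : nn (tp K) = nn K := by
  unfold nn
  rw [Finset.sum_comm]
  refine Finset.sum_congr rfl fun i _ => Finset.sum_congr rfl fun j _ => ?_
  rw [← nrm_inv (blk K i j)]
  congr 1
  funext g
  unfold blk tp
  have h := hK g (1, i) (g⁻¹, j)
  rw [← h]
  unfold tr
  simp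

theorem le_nn {K : Ker (Γ × I)} (hK : InvK K) (x y : Γ × I) : K x y ≤ nn K := by
  have h1 : K x y = blk K x.2 y.2 (x.1⁻¹ * y.1) := by
    unfold blk
    have h := hK x.1 (1, x.2) (x.1⁻¹ * y.1, y.2)
    rw [← h]
    unfold tr
    simp
  rw [h1]
  refine le_trans (le_nrm _ _) ?_
  unfold nn
  refine le_trans ?_ (Finset.single_le_sum (f := fun i => ∑ j, nrm (blk K i j)) (fun _ _ => bot_le)
    (Finset.mem_univ x.2))
  exact Finset.single_le_sum (f := fun j => nrm (blk K x.2 j)) (fun _ _ => bot_le) (Finset.mem_univ y.2)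

theorem nrm_blk_le (K : Ker (Γ × I)) (i j : I) : nrm (blk K i j) ≤ ∑' g, K (1, i) (g, j) :=
  nrm_le_tsum _

theorem nn_le_row (K : Ker (Γ × I)) : nn K ≤ ∑ i, row K (1, i) := by
  unfold nn
  refine Finset.sum_le_sum fun i _ => ?_
  rw [row_eq]
  exact Finset.sum_le_sum fun j _ => nrm_blk_le K i j

end Pool.Agent.SWH
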