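import Pool.Agent.SWH.Defs

/-!
# SWH module Wtk: generating functions of walks

PROOF.  All sums are `tsum`s in `ENNReal`.
`InvK_wt`: the bijection `l ↦ l.map (tr γ)` of lists (inverse `l.map (tr γ⁻¹)`), `endp_map`, `tr_inj`, `Equiv.tsum_eq`.
`cmp_wt`: `cmp (wt z Q) (wt z R) x y = ∑' p : List V × List V, if Q x p.1 ∧ R (endp x p.1) p.2 ∧ endp x (p.1 ++ p.2) = y then
z ^ (p.1 ++ p.2).length else 0`: expand the products of the sums (`ENNReal.tsum_mul_left`, `ENNReal.tsum_mul_right`,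
`ENNReal.tsum_comm`, `ENNReal.tsum_prod`) and sum over the middle vertex `c = endp x p.1` (`tsum_eq_single`).
`wt_le_tsum_cmp`: choose `(t, l1, l2)` for every `l` with `P x l ∧ endp x l = y`; the map `l ↦ (t, l1, l2)` is injective because
`l = l1 ++ l2`; use `ENNReal.tsum_comp_le_tsum_of_injective` (or compare `tsum` over a subtype).
`wt_le_cmp` is the case `ι = Unit`.
`cmp_wt_le`: `(l1, l2) ↦ l1 ++ l2` is injective on the pairs which count (`hinj`, then `List.append_cancel_left`).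
`row_wt`: exchange the sums, for every `l` only `y = endp x l` contributes.
`wt_sl`: for every `l` with `P x l` exactly one `T` has `sp h x l = T` (`Int.toNat`).
-/

set_option autoImplicit false

open scoped ENNReal NNReal Classical
open Filter Topology

namespace Pool.Agent.SWH

section
variable {Γ I : Type} [Group Γ]

private def Wtk_tre (γ : Γ) : (Γ × I) ≃ (Γ × I) where
  toFun := tr γ
  invFun := tr γ⁻¹
  left_inv := fun x => by rw [← tr_mul, inv_mul_cancel, tr_one]
  right_inv := fun x => by rw [← tr_mul, mul_inv_cancel, tr_one]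

theorem InvK_wt {P : Γ × I → List (Γ × I) → Prop} (hP : ∀ γ x l, P (tr γ x) (l.map (tr γ)) ↔ P x l) (z : ℝ≥0∞) :
    InvK (wt z P) := by
  intro γ x y
  unfold wt
  rw [← Equiv.tsum_eq (Equiv.listEquivOfEquiv (Wtk_tre (I := I) γ))]
  refine tsum_congr fun l => ?_
  have h1 : (Equiv.listEquivOfEquiv (Wtk_tre (I := I) γ)) l = l.map (tr γ) := rfl
  have h2 : (endp (tr γ x) (l.map (tr γ)) = tr γ y) ↔ endp x l = y := by
    rw [endp_map]
    exact ⟨fun h => tr_inj γ h, fun h => by rw [h]⟩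
  rw [h1, hP, h2, List.length_map]

end

variable {V : Type}

private theorem Wtk_sub {α : Type} (p : α → Prop) [DecidablePred p] (f : α → ℝ≥0∞) :
    (∑' a, if p a then f a else 0) = ∑' a : {a // p a}, f a := by
  have h1 : (∑' a : {a // p a}, f a) = ∑' a, Set.indicator {a | p a} f a := tsum_subtype {a | p a} f
  rw [h1]
  refine tsum_congr fun a => ?_
  by_cases h : p a
  · rw [if_pos h, Set.indicator_of_mem (show a ∈ {a | p a} from h)]
  · rw [if_neg h, Set.indicator_of_notMem (show a ∉ {a | p a} from h)]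

theorem cmp_wt (z : ℝ≥0∞) (Q R : V → List V → Prop) (x y : V) :
    cmp (wt z Q) (wt z R) x y = ∑' p : List V × List V,
      if Q x p.1 ∧ R (endp x p.1) p.2 ∧ endp x (p.1 ++ p.2) = y then z ^ (p.1 ++ p.2).length else 0 := by
  have h1 : ∀ c : V, wt z Q x c * wt z R c y = ∑' l1 : List V, ∑' l2 : List V,
      (if Q x l1 ∧ endp x l1 = c then z ^ l1.length else 0) *
        (if R c l2 ∧ endp c l2 = y then z ^ l2.length else 0) := by
    intro c
    unfold wt
    rw [← ENNReal.tsum_mul_right]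
    refine tsum_congr fun l1 => ?_
    rw [← ENNReal.tsum_mul_left]
  unfold cmp
  simp only [h1]
  rw [ENNReal.tsum_comm,
    ENNReal.tsum_prod (f := fun l1 l2 : List V =>
      if Q x l1 ∧ R (endp x l1) l2 ∧ endp x (l1 ++ l2) = y then z ^ (l1 ++ l2).length else 0)]
  refine tsum_congr fun l1 => ?_
  rw [ENNReal.tsum_comm]
  refine tsum_congr fun l2 => ?_
  rw [tsum_eq_single (endp x l1)]
  · rw [endp_append, List.length_append, pow_add]
    by_cases a1 : Q x l1
    · by_cases a2 : R (endp x l1) l2 ∧ endp (endp x l1) l2 = y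
      · rw [if_pos ⟨a1, rfl⟩, if_pos a2, if_pos ⟨a1, a2⟩]
      · rw [if_neg a2, mul_zero, if_neg (fun h => a2 h.2)]
    · have n1 : ¬ (Q x l1 ∧ endp x l1 = endp x l1) := fun h => a1 h.1
      rw [if_neg n1, zero_mul, if_neg (fun h => a1 h.1)]
  · intro c hc
    rw [if_neg (fun h => hc h.2.symm), zero_mul]

theorem wt_le_tsum_cmp {ι : Type} {P : V → List V → Prop} {Q R : ι → V → List V → Prop} (x : V)
    (h : ∀ l, P x l → ∃ t l1 l2, l = l1 ++ l2 ∧ Q t x l1 ∧ R t (endp x l1) l2) (z : ℝ≥0∞) (y : V) :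
    wt z P x y ≤ ∑' t, cmp (wt z (Q t)) (wt z (R t)) x y := by
  choose! T L1 L2 hT using h
  simp only [cmp_wt]
  rw [← ENNReal.tsum_prod (f := fun (t : ι) (p : List V × List V) =>
      if Q t x p.1 ∧ R t (endp x p.1) p.2 ∧ endp x (p.1 ++ p.2) = y then z ^ (p.1 ++ p.2).length else 0)]
  have h1 : wt z P x y = ∑' l : {l : List V // P x l ∧ endp x l = y}, z ^ (l : List V).length := by
    unfold wt
    exact Wtk_sub (fun l : List V => P x l ∧ endp x l = y) (fun l => z ^ l.length)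
  rw [h1]
  let φ : {l : List V // P x l ∧ endp x l = y} → ι × (List V × List V) := fun l => (T l l.2.1, L1 l, L2 l)
  have hφ : Function.Injective φ := by
    intro a b hab
    have e1 := (hT a.1 a.2.1).1
    have e2 := (hT b.1 b.2.1).1
    simp only [φ, Prod.mk.injEq] at hab
    refine Subtype.ext ?_
    rw [e1, e2, hab.2.1, hab.2.2]
  refine le_trans (le_of_eq ?_) (ENNReal.tsum_comp_le_tsum_of_injective hφ _)
  refine tsum_congr fun l => ?_
  obtain ⟨e1, e2, e3⟩ := hT l.1 l.2.1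
  have e4 := l.2.2
  simp only [φ]
  rw [← e1, if_pos ⟨e2, e3, e4⟩]

theorem wt_le_cmp {P Q R : V → List V → Prop} (x : V)
    (h : ∀ l, P x l → ∃ l1 l2, l = l1 ++ l2 ∧ Q x l1 ∧ R (endp x l1) l2) (z : ℝ≥0∞) (y : V) :
    wt z P x y ≤ cmp (wt z Q) (wt z R) x y := by
  have h1 := wt_le_tsum_cmp (ι := Unit) (P := P) (Q := fun _ => Q) (R := fun _ => R) x
    (fun l hl => ⟨(), h l hl⟩) z y
  simpa using h1

theorem cmp_wt_le {P Q R : V → List V → Prop} (x : V)
    (h : ∀ l1 l2, Q x l1 → R (endp x l1) l2 → P x (l1 ++ l2))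
    (hinj : ∀ l1 l2 l1' l2', Q x l1 → R (endp x l1) l2 → Q x l1' → R (endp x l1') l2' →
      l1 ++ l2 = l1' ++ l2' → l1 = l1') (z : ℝ≥0∞) (y : V) :
    cmp (wt z Q) (wt z R) x y ≤ wt z P x y := by
  rw [cmp_wt]
  have h1 : (∑' p : List V × List V,
      if Q x p.1 ∧ R (endp x p.1) p.2 ∧ endp x (p.1 ++ p.2) = y then z ^ (p.1 ++ p.2).length else 0) =
      ∑' p : {p : List V × List V // Q x p.1 ∧ R (endp x p.1) p.2 ∧ endp x (p.1 ++ p.2) = y},
        z ^ ((p : List V × List V).1 ++ (p : List V × List V).2).length := by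
    exact Wtk_sub (fun p : List V × List V => Q x p.1 ∧ R (endp x p.1) p.2 ∧ endp x (p.1 ++ p.2) = y)
      (fun p => z ^ (p.1 ++ p.2).length)
  rw [h1]
  let φ : {p : List V × List V // Q x p.1 ∧ R (endp x p.1) p.2 ∧ endp x (p.1 ++ p.2) = y} → List V :=
    fun p => p.1.1 ++ p.1.2
  have hφ : Function.Injective φ := by
    rintro ⟨⟨a1, a2⟩, ha⟩ ⟨⟨b1, b2⟩, hb⟩ hab
    simp only [φ] at hab
    simp only at ha hb
    have e := hinj a1 a2 b1 b2 ha.1 ha.2.1 hb.1 hb.2.1 hab
    subst e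
    have e' := List.append_cancel_left hab
    subst e'
    rfl
  unfold wt
  refine le_trans (le_of_eq ?_) (ENNReal.tsum_comp_le_tsum_of_injective hφ _)
  refine tsum_congr fun p => ?_
  obtain ⟨⟨a1, a2⟩, ha⟩ := p
  simp only at ha
  simp only [φ]
  rw [if_pos ⟨h a1 a2 ha.1 ha.2.1, ha.2.2⟩]

theorem row_wt (z : ℝ≥0∞) (P : V → List V → Prop) (x : V) :
    row (wt z P) x = ∑' l : List V, if P x l then z ^ l.length else 0 := by
  unfold row wt
  rw [ENNReal.tsum_comm]
  refine tsum_congr fun l => ?_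
  rw [tsum_eq_single (endp x l)]
  · by_cases a : P x l
    · rw [if_pos ⟨a, rfl⟩, if_pos a]
    · rw [if_neg (fun h => a h.1), if_neg a]
  · intro c hc
    rw [if_neg (fun h => hc h.2.symm)]

theorem wt_mono {P Q : V → List V → Prop} (x : V) (h : ∀ l, P x l → Q x l) (z : ℝ≥0∞) (y : V) :
    wt z P x y ≤ wt z Q x y := by
  unfold wt
  refine ENNReal.tsum_le_tsum fun l => ?_
  by_cases a : P x l ∧ endp x l = y
  · rw [if_pos a, if_pos ⟨h l a.1, a.2⟩]
  · rw [if_neg a]
    exact zero_le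

theorem le_wt {P : V → List V → Prop} {x y : V} {l : List V} (h : P x l) (hy : endp x l = y) (z : ℝ≥0∞) :
    z ^ l.length ≤ wt z P x y := by
  unfold wt
  have h1 := ENNReal.le_tsum (f := fun l : List V => if P x l ∧ endp x l = y then z ^ l.length else 0) l
  rw [if_pos ⟨h, hy⟩] at h1
  exact h1

theorem wt_sl (h : V → ℤ) {P : V → List V → Prop} (x : V) (hP : ∀ l, P x l → 0 ≤ sp h x l) (z : ℝ≥0∞) (y : V) :
    wt z P x y = ∑' T : ℕ, wt z (sl h P T) x y := by
  unfold wt
  rw [ENNReal.tsum_comm]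
  refine tsum_congr fun l => ?_
  by_cases a : P x l ∧ endp x l = y
  · rw [if_pos a, tsum_eq_single (sp h x l).toNat]
    · rw [if_pos ⟨⟨a.1, (Int.toNat_of_nonneg (hP l a.1)).symm⟩, a.2⟩]
    · intro T hT
      rw [if_neg]
      rintro ⟨⟨_, b⟩, _⟩
      apply hT
      rw [b, Int.toNat_natCast]
  · rw [if_neg a]
    symm
    rw [ENNReal.tsum_eq_zero]
    intro T
    rw [if_neg]
    rintro ⟨⟨b1, _⟩, b2⟩
    exact a ⟨b1, b2⟩

end Pool.Agent.SWH
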