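import Pool.Agent.SWH.Brg
import Pool.Agent.SWH.Wtk
import Pool.Agent.SWH.Ker

/-!
# SWH module Hsd: decomposition of half-space walks (Hammersley and Welsh)
-/

set_option autoImplicit false

open scoped ENNReal NNReal Classical
open Filter Topology

namespace Pool.Agent.SWH

variable {V : Type} {G : SimpleGraph V} {h : V → ℤ}

/-- the last vertex of maximal height -/
private theorem Hsd_max (h : V → ℤ) : ∀ (l : List V), l ≠ [] →
    ∃ (l1 l2 : List V) (v : V), l = l1 ++ v :: l2 ∧ (∀ y ∈ l, h y ≤ h v) ∧ (∀ y ∈ l2, h y < h v)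
  | [], hl => absurd rfl hl
  | [a], _ => ⟨[], [], a, rfl, by simp, by simp⟩
  | a :: b :: l, _ => by
    obtain ⟨l1, l2, v, h1, h2, h3⟩ := Hsd_max h (b :: l) (by simp)
    by_cases h4 : h a ≤ h v
    · refine ⟨a :: l1, l2, v, by rw [h1]; rfl, ?_, h3⟩
      intro y hy
      rcases List.mem_cons.1 hy with rfl | hy
      · exact h4
      · exact h2 y hy
    · refine ⟨[], b :: l, a, rfl, ?_, ?_⟩
      · intro y hy
        rcases List.mem_cons.1 hy with rfl | hy
        · exact le_rfl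
        · have := h2 y hy
          omega
      · intro y hy
        have := h2 y hy
        omega

private theorem Hsd_endp (x v : V) (l1 : List V) : endp x (l1 ++ [v]) = v := by
  rw [endp_append, endp_cons, endp_nil]

theorem hs_split {T : ℕ} {x : V} {l : List V} (h1 : Hs G h T x l) (hl : l ≠ []) :
    ∃ (T1 : ℕ) (l1 l2 : List V), 1 ≤ T1 ∧ T1 ≤ T ∧ l = l1 ++ l2 ∧ sl h (Br G h) T1 x l1 ∧
      Hs G (fun v => - h v) (T1 - 1) (endp x l1) l2 := by
  obtain ⟨m1, m2, v, h2, h3, h4⟩ := Hsd_max h l hl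
  obtain ⟨hs, hb⟩ := h1
  have hv : v ∈ l := by
    rw [h2]
    simp
  have hvb := hb v hv
  have hl' : l = (m1 ++ [v]) ++ m2 := by
    rw [h2, List.append_assoc]
    rfl
  have hs' := hs
  rw [hl'] at hs'
  obtain ⟨s1, s2⟩ := Sw_split hs'
  have he : endp x (m1 ++ [v]) = v := Hsd_endp x v m1
  refine ⟨(h v - h x).toNat, m1 ++ [v], m2, by omega, by omega, hl', ⟨⟨s1, ?_⟩, ?_⟩, s2, ?_⟩
  · intro y hy
    rw [he]
    have hyl : y ∈ l := by
      rw [hl']
      exact List.mem_append_left _ hy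
    exact ⟨(hb y hyl).1, h3 y hyl⟩
  · unfold sp
    rw [he]
    omega
  · intro y hy
    rw [he]
    have hyl : y ∈ l := by
      rw [hl']
      exact List.mem_append_right _ hy
    have h5 := h4 y hy
    have h6 := hb y hyl
    change - h v < - h y ∧ - h y ≤ - h v + _
    omega

private theorem Hsd_nil (z : ℝ≥0∞) (P : V → List V → Prop) (x y : V) :
    wt z P x y ≤ idK x y + wt z (fun x l => P x l ∧ l ≠ []) x y := by
  have h1 : idK x y = ∑' l : List V, (if l = [] then (if x = y then (1 : ℝ≥0∞) else 0) else 0) := by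
    rw [tsum_eq_single []]
    · simp [idK]
    · intro l hl
      rw [if_neg hl]
  unfold wt
  rw [h1, ← ENNReal.tsum_add]
  apply ENNReal.tsum_le_tsum
  intro l
  by_cases hl : l = []
  · subst hl
    by_cases hxy : x = y
    · rw [if_pos rfl, if_pos hxy]
      refine le_trans ?_ le_self_add
      split
      · simp
      · exact zero_le
    · rw [if_neg]
      · exact zero_le
      · intro h2
        exact hxy h2.2
  · rw [if_neg hl, zero_add]
    split_ifs with h2 h3
    · exact le_rfl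
    · exact absurd ⟨⟨h2.1, hl⟩, h2.2⟩ h3
    · exact zero_le
    · exact le_rfl

theorem hs_le (T : ℕ) (z : ℝ≥0∞) (x y : V) :
    wt z (Hs G h T) x y ≤ idK x y +
      ∑ T1 ∈ Finset.Icc 1 T, cmp (wt z (sl h (Br G h) T1)) (wt z (Hs G (fun v => - h v) (T1 - 1))) x y := by
  refine (Hsd_nil z _ x y).trans ?_
  refine add_le_add le_rfl ?_
  have h1 := wt_le_tsum_cmp (ι := {n : ℕ // n ∈ Finset.Icc 1 T}) (P := fun x l => Hs G h T x l ∧ l ≠ [])
    (Q := fun t => sl h (Br G h) t.1) (R := fun t => Hs G (fun v => - h v) (t.1 - 1)) x ?_ z y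
  · refine h1.trans ?_
    rw [tsum_fintype, Finset.sum_coe_sort (Finset.Icc 1 T)
      (fun T1 => cmp (wt z (sl h (Br G h) T1)) (wt z (Hs G (fun v => - h v) (T1 - 1))) x y)]
  · intro l hl
    obtain ⟨T1, l1, l2, h2, h3, h4, h5, h6⟩ := hs_split hl.1 hl.2
    exact ⟨⟨T1, Finset.mem_Icc.2 ⟨h2, h3⟩⟩, l1, l2, h4, h5, h6⟩

theorem hs_mono {T T' : ℕ} (hT : T ≤ T') (z : ℝ≥0∞) (x y : V) : wt z (Hs G h T) x y ≤ wt z (Hs G h T') x y := by
  refine wt_mono x (fun l hl => ⟨hl.1, fun v hv => ?_⟩) z y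
  have h1 := hl.2 v hv
  omega

end Pool.Agent.SWH
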