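import Pool.Agent.SWH.Brg
import Pool.Agent.SWH.Wtk
import Pool.Agent.SWH.Ker

/-!
# SWH module Ivk: invariance of the classes of walks
-/

set_option autoImplicit false

open scoped ENNReal NNReal Classical
open Filter Topology

namespace Pool.Agent.SWH

variable {Γ I : Type} [Group Γ] [Fintype I] {G : SimpleGraph (Γ × I)} {h : Γ × I → ℤ} {m : ℕ} {θ : ℝ}

theorem h_tr (H : Hyp G h m θ) (γ : Γ) (x y : Γ × I) : h (tr γ x) - h (tr γ y) = h x - h y := by
  obtain ⟨φ, hφ⟩ := H.eqv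
  have h1 := hφ γ x
  have h2 := hφ γ y
  omega

private theorem Ivk_sp (H : Hyp G h m θ) (γ : Γ) (x : Γ × I) (l : List (Γ × I)) :
    sp h (tr γ x) (l.map (tr γ)) = sp h x l := by
  unfold sp
  rw [endp_map]
  exact h_tr H γ _ _

theorem Sw_inv (H : Hyp G h m θ) (γ : Γ) (x : Γ × I) (l : List (Γ × I)) :
    Sw G (tr γ x) (l.map (tr γ)) ↔ Sw G x l := by
  unfold Sw
  have h1 : tr γ x :: l.map (tr γ) = (x :: l).map (tr γ) := rfl
  rw [h1, List.isChain_map, List.nodup_map_iff (fun a b hab => tr_inj γ hab)]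
  simp only [H.inv]

theorem Br_inv (H : Hyp G h m θ) (γ : Γ) (x : Γ × I) (l : List (Γ × I)) :
    Br G h (tr γ x) (l.map (tr γ)) ↔ Br G h x l := by
  unfold Br
  rw [Sw_inv H, endp_map]
  refine and_congr_right fun _ => ?_
  rw [List.forall_mem_map]
  refine forall_congr' fun y => forall_congr' fun _ => ?_
  have h1 := h_tr H γ y x
  have h2 := h_tr H γ (endp x l) y
  constructor
  · intro h3
    constructor <;> omega
  · intro h3
    constructor <;> omega

theorem Cl_inv (H : Hyp G h m θ) (L : ℕ) (γ : Γ) (x : Γ × I) (l : List (Γ × I)) :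
    Cl G h L (tr γ x) (l.map (tr γ)) ↔ Cl G h L x l := by
  unfold Cl
  rw [Br_inv H, Ivk_sp H]
  refine and_congr_right fun _ => and_congr_right fun _ => ?_
  constructor
  · intro h1 l1 l2 h2 h3 h4 h5 h6
    refine h1 (l1.map (tr γ)) (l2.map (tr γ)) ?_ ?_ ?_ ?_ ?_
    · rw [h2, List.map_append]
    · simpa using h3
    · exact (Br_inv H γ x l1).2 h4
    · rw [Ivk_sp H]
      exact h5
    · rw [endp_map]
      exact (Br_inv H γ _ l2).2 h6
  · intro h1 l1' l2' h2 h3 h4 h5 h6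
    obtain ⟨l1, l2, hl, rfl, rfl⟩ := List.map_eq_append_iff.1 h2
    refine h1 l1 l2 hl ?_ ?_ ?_ ?_
    · intro h7
      apply h3
      rw [h7]
      rfl
    · exact (Br_inv H γ x l1).1 h4
    · rw [Ivk_sp H] at h5
      exact h5
    · rw [endp_map] at h6
      exact (Br_inv H γ _ l2).1 h6

theorem Hs_inv (H : Hyp G h m θ) (T : ℕ) (γ : Γ) (x : Γ × I) (l : List (Γ × I)) :
    Hs G h T (tr γ x) (l.map (tr γ)) ↔ Hs G h T x l := by
  unfold Hs
  rw [Sw_inv H]
  refine and_congr_right fun _ => ?_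
  rw [List.forall_mem_map]
  refine forall_congr' fun y => forall_congr' fun _ => ?_
  have h1 := h_tr H γ y x
  constructor
  · intro h3
    constructor <;> omega
  · intro h3
    constructor <;> omega

private theorem Ivk_sl (H : Hyp G h m θ) {P : Γ × I → List (Γ × I) → Prop}
    (hP : ∀ γ x l, P (tr γ x) (l.map (tr γ)) ↔ P x l) (T : ℕ) (γ : Γ) (x : Γ × I) (l : List (Γ × I)) :
    sl h P T (tr γ x) (l.map (tr γ)) ↔ sl h P T x l := by
  unfold sl
  rw [hP, Ivk_sp H]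

theorem InvK_br (H : Hyp G h m θ) (z : ℝ≥0∞) : InvK (wt z (Br G h)) :=
  InvK_wt (Br_inv H) z

theorem InvK_cl (H : Hyp G h m θ) (L : ℕ) (z : ℝ≥0∞) : InvK (wt z (Cl G h L)) :=
  InvK_wt (Cl_inv H L) z

theorem InvK_slbr (H : Hyp G h m θ) (T : ℕ) (z : ℝ≥0∞) : InvK (wt z (sl h (Br G h) T)) :=
  InvK_wt (Ivk_sl H (Br_inv H) T) z

theorem InvK_slcl (H : Hyp G h m θ) (L T : ℕ) (z : ℝ≥0∞) : InvK (wt z (sl h (Cl G h L) T)) :=
  InvK_wt (Ivk_sl H (Cl_inv H L) T) z

theorem InvK_hs (H : Hyp G h m θ) (T : ℕ) (z : ℝ≥0∞) : InvK (wt z (Hs G h T)) :=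
  InvK_wt (Hs_inv H T) z

theorem InvK_swE (H : Hyp G h m θ) (n : ℕ) (z : ℝ≥0∞) : InvK (wt z (SwE G n)) := by
  refine InvK_wt (fun γ x l => ?_) z
  unfold SwE
  rw [Sw_inv H, List.length_map]

theorem InvK_swN (H : Hyp G h m θ) (n : ℕ) (z : ℝ≥0∞) : InvK (wt z (SwN G n)) := by
  refine InvK_wt (fun γ x l => ?_) z
  unfold SwN
  rw [Sw_inv H, List.length_map]

theorem InvK_ad (H : Hyp G h m θ) : InvK (adK G) := by
  intro γ x y
  unfold adK
  simp only [H.inv]

theorem nn_id_le : nn (idK : Ker (Γ × I)) ≤ Fintype.card I := by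
  refine (nn_le_row _).trans ?_
  have h1 : ∀ i : I, row (idK : Ker (Γ × I)) (1, i) = 1 := by
    intro i
    unfold row idK
    rw [tsum_eq_single ((1 : Γ), i)]
    · rw [if_pos rfl]
    · intro y hy
      rw [if_neg (fun h => hy h.symm)]
  simp only [h1, Finset.sum_const, Finset.card_univ, nsmul_eq_mul, mul_one]
  exact le_rfl

theorem nn_ad_ne_top (H : Hyp G h m θ) : nn (adK G) ≠ ⊤ := by
  refine ne_top_of_le_ne_top ?_ (nn_le_row _)
  refine ENNReal.sum_ne_top.2 fun i _ => ?_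
  unfold row adK
  rw [tsum_eq_sum (s := (H.fin (1, i)).toFinset)]
  · refine ENNReal.sum_ne_top.2 fun y _ => ?_
    split
    · exact ENNReal.one_ne_top
    · exact ENNReal.zero_ne_top
  · intro y hy
    rw [if_neg]
    intro h1
    apply hy
    rw [Set.Finite.mem_toFinset]
    exact h1

end Pool.Agent.SWH
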