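import Pool.Agent.SWH.Defs

/-!
# SWH module Pro: the product bound
-/

set_option autoImplicit false

open scoped ENNReal NNReal Classical
open Filter Topology

namespace Pool.Agent.SWH

private theorem pro_tel (a : ℕ → ℝ≥0∞) (c : ℝ≥0∞) (T : ℕ) :
    c + ∑ T1 ∈ Finset.Icc 1 T, a T1 * (c * ∏ j ∈ Finset.Icc 1 (T1 - 1), (1 + a j)) =
      c * ∏ j ∈ Finset.Icc 1 T, (1 + a j) := by
  induction T with
  | zero => simp
  | succ n ih =>
    rw [Finset.sum_Icc_succ_top (by omega), Finset.prod_Icc_succ_top (by omega), ← add_assoc, ih]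
    simp only [Nat.add_sub_cancel]
    ring

private theorem pro_exp (a : ℕ → ℝ≥0∞) (C : ℝ≥0∞) (hC : C ≠ ⊤) (hs : ∑' T, a T ≤ C) (T : ℕ) :
    ∏ j ∈ Finset.Icc 1 T, (1 + a j) ≤ ENNReal.ofReal (Real.exp C.toReal) := by
  have hfin : ∀ j, a j ≠ ⊤ := fun j =>
    ne_top_of_le_ne_top hC ((ENNReal.le_tsum j).trans hs)
  have h1 : ∀ j, 1 + a j ≤ ENNReal.ofReal (Real.exp (a j).toReal) := by
    intro j
    have h2 : 1 + a j = ENNReal.ofReal (1 + (a j).toReal) := by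
      rw [ENNReal.ofReal_add zero_le_one ENNReal.toReal_nonneg, ENNReal.ofReal_one,
        ENNReal.ofReal_toReal (hfin j)]
    rw [h2]
    apply ENNReal.ofReal_le_ofReal
    have := Real.add_one_le_exp (a j).toReal
    linarith
  calc ∏ j ∈ Finset.Icc 1 T, (1 + a j) ≤ ∏ j ∈ Finset.Icc 1 T, ENNReal.ofReal (Real.exp (a j).toReal) :=
        Finset.prod_le_prod' fun j _ => h1 j
    _ = ENNReal.ofReal (∏ j ∈ Finset.Icc 1 T, Real.exp (a j).toReal) :=
        (ENNReal.ofReal_prod_of_nonneg fun j _ => (Real.exp_pos _).le).symm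
    _ = ENNReal.ofReal (Real.exp (∑ j ∈ Finset.Icc 1 T, (a j).toReal)) := by rw [Real.exp_sum]
    _ ≤ ENNReal.ofReal (Real.exp C.toReal) := by
        apply ENNReal.ofReal_le_ofReal
        apply Real.exp_le_exp.mpr
        rw [← ENNReal.toReal_sum fun j _ => hfin j]
        exact ENNReal.toReal_mono hC ((ENNReal.sum_le_tsum _).trans hs)

theorem pro_bound (a Hp Hm : ℕ → ℝ≥0∞) (c C : ℝ≥0∞) (hC : C ≠ ⊤)
    (hp : ∀ T, Hp T ≤ c + ∑ T1 ∈ Finset.Icc 1 T, a T1 * Hm (T1 - 1))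
    (hm : ∀ T, Hm T ≤ c + ∑ T1 ∈ Finset.Icc 1 T, a T1 * Hp (T1 - 1))
    (hs : ∑' T, a T ≤ C) (T : ℕ) :
    Hp T ≤ c * ENNReal.ofReal (Real.exp C.toReal) ∧ Hm T ≤ c * ENNReal.ofReal (Real.exp C.toReal) := by
  have key : ∀ T, Hp T ≤ c * ∏ j ∈ Finset.Icc 1 T, (1 + a j) ∧ Hm T ≤ c * ∏ j ∈ Finset.Icc 1 T, (1 + a j) := by
    intro T
    induction T using Nat.strong_induction_on with
    | _ T ih =>
      have hstep : ∀ H : ℕ → ℝ≥0∞, (∀ S < T, H S ≤ c * ∏ j ∈ Finset.Icc 1 S, (1 + a j)) →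
          c + ∑ T1 ∈ Finset.Icc 1 T, a T1 * H (T1 - 1) ≤ c * ∏ j ∈ Finset.Icc 1 T, (1 + a j) := by
        intro H hH
        rw [← pro_tel a c T]
        refine add_le_add le_rfl (Finset.sum_le_sum fun T1 hT1 => ?_)
        rw [Finset.mem_Icc] at hT1
        exact mul_le_mul_right (hH (T1 - 1) (by omega)) _
      exact ⟨(hp T).trans (hstep Hm fun S hS => (ih S hS).2), (hm T).trans (hstep Hp fun S hS => (ih S hS).1)⟩
  have h3 := pro_exp a C hC hs T
  exact ⟨(key T).1.trans (mul_le_mul_right h3 _), (key T).2.trans (mul_le_mul_right h3 _)⟩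

end Pool.Agent.SWH
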