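import Pool.Agent.SWH.Brg
import Pool.Agent.SWH.Wtk
import Pool.Agent.SWH.Ker

/-!
# SWH module Rev: self-avoiding walks and half-space walks
-/

set_option autoImplicit false

open scoped ENNReal NNReal Classical
open Filter Topology

namespace Pool.Agent.SWH

variable {V : Type} {G : SimpleGraph V} {h : V → ℤ}

private theorem Rev_lip {m : ℕ} (lip : ∀ x y, G.Adj x y → h y ≤ h x + m) :
    ∀ (l : List V) (x : V), (x :: l).IsChain G.Adj → ∀ y ∈ l, h y ≤ h x + m * (l.length : ℤ)
  | [], x, _, y, hy => by simp at hy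
  | a :: l, x, hc, y, hy => by
    rw [List.isChain_cons_cons] at hc
    have h1 := lip x a hc.1
    have h2 : (0 : ℤ) ≤ m * (l.length : ℤ) := by positivity
    have h3 : (((a :: l).length : ℕ) : ℤ) = l.length + 1 := by simp
    rw [h3]
    rcases List.mem_cons.1 hy with rfl | hy
    · nlinarith
    · have h4 := Rev_lip lip l a hc.2 y hy
      nlinarith

private theorem Rev_min (h : V → ℤ) : ∀ (l : List V) (x : V),
    ∃ l1 l2, l = l1 ++ l2 ∧ (∀ y ∈ x :: l1, h (endp x l1) ≤ h y) ∧ (∀ y ∈ l2, h (endp x l1) < h y)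
  | [], x => ⟨[], [], rfl, by simp [endp_nil], by simp⟩
  | a :: l, x => by
    obtain ⟨l1, l2, h1, h2, h3⟩ := Rev_min h l a
    by_cases h4 : h (endp a l1) ≤ h x
    · refine ⟨a :: l1, l2, by rw [h1]; rfl, ?_, ?_⟩
      · intro y hy
        rw [endp_cons]
        rcases List.mem_cons.1 hy with rfl | hy
        · exact h4
        · exact h2 y hy
      · intro y hy
        rw [endp_cons]
        exact h3 y hy
    · refine ⟨[], a :: l, rfl, ?_, ?_⟩
      · intro y hy
        simp only [List.mem_cons, List.not_mem_nil, or_false] at hy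
        rw [hy, endp_nil]
      · intro y hy
        rw [endp_nil]
        rcases List.mem_cons.1 hy with rfl | hy
        · have := h2 y List.mem_cons_self
          omega
        · rw [h1] at hy
          rcases List.mem_append.1 hy with hy | hy
          · have := h2 y (List.mem_cons_of_mem _ hy)
            omega
          · have := h3 y hy
            omega

private theorem Rev_head (x : V) (l : List V) : ∃ r, (x :: l).reverse = endp x l :: r := by
  induction l using List.reverseRecOn with
  | nil => exact ⟨[], by simp [endp_nil]⟩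
  | append_singleton l a _ =>
    refine ⟨(x :: l).reverse, ?_⟩
    rw [endp_append, endp_cons, endp_nil, ← List.cons_append, List.reverse_append]
    rfl

private theorem Rev_end (v x : V) (l : List V) : endp v ((x :: l).reverse) = x := by
  rw [List.reverse_cons, endp_append, endp_cons, endp_nil]

/-- the decomposition of one walk -/
private theorem Rev_dec {m : ℕ} (lip : ∀ x y, G.Adj x y → h y ≤ h x + m) (low : V → V)
    (hlow : ∀ v, G.Adj v (low v) ∧ h (low v) < h v) (n : ℕ) (x : V) (l : List V) (hl : SwN G n x l) :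
    ∃ l1 l2, l = l1 ++ l2 ∧ Hs G h (m * (n + 1)) (low (endp x l1)) ((x :: l1).reverse) ∧
      Hs G h (m * (n + 1)) (endp x l1) l2 := by
  obtain ⟨l1, l2, h1, h2, h3⟩ := Rev_min h l x
  refine ⟨l1, l2, h1, ?_, ?_⟩
  · have hsw := hl.1
    rw [h1] at hsw
    obtain ⟨s1, s2⟩ := Sw_split hsw
    obtain ⟨r, hr⟩ := Rev_head x l1
    have hlw := hlow (endp x l1)
    have hmem : ∀ y ∈ (x :: l1).reverse, h (low (endp x l1)) < h y := by
      intro y hy
      rw [List.mem_reverse] at hy
      have := h2 y hy
      omega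
    have hch : (low (endp x l1) :: (x :: l1).reverse).IsChain G.Adj := by
      rw [hr, List.isChain_cons_cons]
      refine ⟨hlw.1.symm, ?_⟩
      rw [← hr, List.isChain_reverse]
      refine s1.1.imp ?_
      intro a b hab
      exact hab.symm
    refine ⟨⟨hch, ?_⟩, ?_⟩
    · rw [List.nodup_cons]
      refine ⟨fun hy => ?_, List.nodup_reverse.2 s1.2⟩
      exact absurd (hmem _ hy) (lt_irrefl _)
    · intro y hy
      refine ⟨hmem y hy, ?_⟩
      have h4 := Rev_lip lip _ _ hch y hy
      have h5 : (x :: l1).reverse.length ≤ n + 1 := by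
        have h6 := hl.2
        rw [h1, List.length_append] at h6
        rw [List.length_reverse, List.length_cons]
        omega
      refine h4.trans ?_
      push_cast
      have h7 : (((x :: l1).reverse.length : ℕ) : ℤ) ≤ n + 1 := by exact_mod_cast h5
      have h8 : (0 : ℤ) ≤ m := Int.natCast_nonneg m
      have h9 := mul_le_mul_of_nonneg_left h7 h8
      linarith
  · have hsw := hl.1
    rw [h1] at hsw
    obtain ⟨s1, s2⟩ := Sw_split hsw
    refine ⟨s2, fun y hy => ⟨h3 y hy, ?_⟩⟩
    have h4 := Rev_lip lip _ _ s2.1 y hy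
    have h5 : l2.length ≤ n + 1 := by
      have h6 := hl.2
      rw [h1, List.length_append] at h6
      omega
    refine h4.trans ?_
    push_cast
    have h7 : ((l2.length : ℕ) : ℤ) ≤ n + 1 := by exact_mod_cast h5
    have h8 : (0 : ℤ) ≤ m := Int.natCast_nonneg m
    have h9 := mul_le_mul_of_nonneg_left h7 h8
    linarith

theorem sw_le {m : ℕ} (lip : ∀ x y, G.Adj x y → h y ≤ h x + m) (dn : ∀ x, ∃ y, G.Adj x y ∧ h y < h x)
    (n : ℕ) (z : ℝ≥0∞) (x y : V) :
    z * wt z (SwN G n) x y ≤
      cmp (tp (cmp (adK G) (wt z (Hs G h (m * (n + 1)))))) (wt z (Hs G h (m * (n + 1)))) x y := by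
  choose low hlow using dn
  have hdec := Rev_dec lip low hlow n x
  have hex : ∀ l : {l : List V // SwN G n x l ∧ endp x l = y}, ∃ p : List V × List V, l.1 = p.1 ++ p.2 ∧
      Hs G h (m * (n + 1)) (low (endp x p.1)) ((x :: p.1).reverse) ∧
      Hs G h (m * (n + 1)) (endp x p.1) p.2 := by
    intro l
    obtain ⟨l1, l2, h1⟩ := hdec l.1 l.2.1
    exact ⟨(l1, l2), h1⟩
  choose p hp using hex
  have hinj : Function.Injective (fun l : {l : List V // SwN G n x l ∧ endp x l = y} =>
      (endp x (p l).1, (x :: (p l).1).reverse, (p l).2)) := by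
    intro l l' hll
    simp only [Prod.mk.injEq, List.reverse_inj, List.cons.injEq, true_and] at hll
    apply Subtype.ext
    rw [(hp l).1, (hp l').1, hll.2.1, hll.2.2]
  have h1 : z * wt z (SwN G n) x y =
      ∑' l : {l : List V // SwN G n x l ∧ endp x l = y}, z ^ (l.1.length + 1) := by
    unfold wt
    rw [← ENNReal.tsum_mul_left]
    rw [← tsum_subtype_eq_of_support_subset (s := {l : List V | SwN G n x l ∧ endp x l = y})]
    · apply tsum_congr
      intro l
      have h2 : SwN G n x l.1 ∧ endp x l.1 = y := l.2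
      rw [if_pos h2, pow_succ, mul_comm]
    · intro l hl
      rw [Function.mem_support] at hl
      by_contra h2
      apply hl
      have h3 : ¬ (SwN G n x l ∧ endp x l = y) := h2
      rw [if_neg h3, mul_zero]
  have h2 : ∀ v, wt z (Hs G h (m * (n + 1))) (low v) x * wt z (Hs G h (m * (n + 1))) v y ≤
      tp (cmp (adK G) (wt z (Hs G h (m * (n + 1))))) x v * wt z (Hs G h (m * (n + 1))) v y := by
    intro v
    refine mul_le_mul' ?_ le_rfl
    have h3 : adK G v (low v) * wt z (Hs G h (m * (n + 1))) (low v) x ≤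
        cmp (adK G) (wt z (Hs G h (m * (n + 1)))) v x :=
      ENNReal.le_tsum (f := fun w => adK G v w * wt z (Hs G h (m * (n + 1))) w x) (low v)
    have h4 : adK G v (low v) = 1 := by
      unfold adK
      rw [if_pos (hlow v).1]
    rw [h4, one_mul] at h3
    exact h3
  have h5 : ∑' v, wt z (Hs G h (m * (n + 1))) (low v) x * wt z (Hs G h (m * (n + 1))) v y ≤
      cmp (tp (cmp (adK G) (wt z (Hs G h (m * (n + 1)))))) (wt z (Hs G h (m * (n + 1)))) x y :=
    ENNReal.tsum_le_tsum h2
  refine le_trans ?_ h5
  have h6 : ∑' v, wt z (Hs G h (m * (n + 1))) (low v) x * wt z (Hs G h (m * (n + 1))) v y =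
      ∑' q : V × List V × List V,
        (if Hs G h (m * (n + 1)) (low q.1) q.2.1 ∧ endp (low q.1) q.2.1 = x then z ^ q.2.1.length else 0) *
        (if Hs G h (m * (n + 1)) q.1 q.2.2 ∧ endp q.1 q.2.2 = y then z ^ q.2.2.length else 0) := by
    rw [ENNReal.tsum_prod (f := fun (v : V) (w : List V × List V) =>
      (if Hs G h (m * (n + 1)) (low v) w.1 ∧ endp (low v) w.1 = x then z ^ w.1.length else 0) *
        (if Hs G h (m * (n + 1)) v w.2 ∧ endp v w.2 = y then z ^ w.2.length else 0))]
    apply tsum_congr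
    intro v
    rw [ENNReal.tsum_prod (f := fun (r s : List V) =>
      (if Hs G h (m * (n + 1)) (low v) r ∧ endp (low v) r = x then z ^ r.length else 0) *
        (if Hs G h (m * (n + 1)) v s ∧ endp v s = y then z ^ s.length else 0))]
    unfold wt
    rw [← ENNReal.tsum_mul_right]
    apply tsum_congr
    intro r
    rw [← ENNReal.tsum_mul_left]
  rw [h1, h6]
  refine le_trans (le_of_eq ?_) (ENNReal.tsum_comp_le_tsum_of_injective hinj _)
  apply tsum_congr
  intro l
  obtain ⟨e1, e2, e3⟩ := hp l
  have hy := l.2.2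
  rw [if_pos ⟨e2, Rev_end _ _ _⟩, if_pos ⟨e3, by rw [← endp_append, ← e1, hy]⟩, ← pow_add]
  congr 1
  change l.1.length + 1 = (x :: (p l).1).reverse.length + (p l).2.length
  rw [e1, List.length_reverse, List.length_cons, List.length_append]
  omega

end Pool.Agent.SWH
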