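import Pool.Agent.SWH.Sum
import Pool.Agent.SWH.Hsd
import Pool.Agent.SWH.Rev
import Pool.Agent.SWH.Pro
import Pool.Agent.SWH.Ivk

/-!
# SWH module Bnd: the generating function of self-avoiding walks is bounded on `l^2`

PROOF.  Apply `sumb` to `H` and to `H.neg`: constants `C1, C2`.  (`row (wt z Br) ≤ row (wt z Sw) < ⊤` by `wt_mono`.)
Put `a T = nn (wt z (sl h Br T)) + nn (wt z (sl (-h) (Br (-h)) T))`, `Hp T = nn (wt z (Hs h T))`, `Hm T = nn (wt z (Hs (-h) T))`.
`hs_le` (for `h` and for `-h`; `- - h = h`), `nn_add`, `nn_tsum`, `nn_cmp`, `nn_id_le` give the hypotheses of `pro_bound` with `c = card I`,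
`C = C1 + C2`.  So `Hp T ≤ C3` for all `T`.  `sw_le` with `nn_cmp`, `nn_tp`: `z * nn (wt z SwN) ≤ nn (adK G) * C3 * C3`
(`nn_smul`), and `z ≥ z0 > 0`.
-/

set_option autoImplicit false

open scoped ENNReal NNReal Classical
open Filter Topology

namespace Pool.Agent.SWH

variable {Γ I : Type} [Group Γ] [Fintype I] {G : SimpleGraph (Γ × I)} {h : Γ × I → ℤ} {m : ℕ} {θ : ℝ}

theorem bnd (H : Hyp G h m θ) (z0 : ℝ≥0∞) (h0 : z0 ≠ 0) (h01 : z0 ≤ 1) : ∃ C : ℝ≥0∞, C ≠ ⊤ ∧
    ∀ z, z0 ≤ z → z ≤ 1 → (∀ x, row (wt z (Sw G)) x ≠ ⊤) → ∀ n : ℕ, nn (wt z (SwN G n)) ≤ C := by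
  obtain ⟨C1, hC1, h1⟩ := sumb H z0 h0 h01
  obtain ⟨C2, hC2, h2⟩ := sumb H.neg z0 h0 h01
  have hC : C1 + C2 ≠ ⊤ := ENNReal.add_ne_top.2 ⟨hC1, hC2⟩
  set c : ℝ≥0∞ := (Fintype.card I : ℝ≥0∞) with hc
  set C3 : ℝ≥0∞ := c * ENNReal.ofReal (Real.exp (C1 + C2).toReal) with hC3
  have hC3t : C3 ≠ ⊤ := ENNReal.mul_ne_top (by rw [hc]; exact ENNReal.natCast_ne_top _) ENNReal.ofReal_ne_top
  refine ⟨nn (adK G) * C3 * C3 / z0, ?_, ?_⟩
  · apply ENNReal.div_ne_top _ h0
    exact ENNReal.mul_ne_top (ENNReal.mul_ne_top (nn_ad_ne_top H) hC3t) hC3t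
  intro z hz hz1 hrow n
  -- the bridges
  have hr1 : ∀ x, row (wt z (Br G h)) x ≠ ⊤ := by
    intro x
    apply ne_top_of_le_ne_top (hrow x)
    unfold row
    exact ENNReal.tsum_le_tsum (fun y => wt_mono x (fun l hl => hl.1) z y)
  have hr2 : ∀ x, row (wt z (Br G (fun v => - h v))) x ≠ ⊤ := by
    intro x
    apply ne_top_of_le_ne_top (hrow x)
    unfold row
    exact ENNReal.tsum_le_tsum (fun y => wt_mono x (fun l hl => hl.1) z y)
  have hs1 := h1 z hz hz1 hr1
  have hs2 := h2 z hz hz1 hr2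
  -- the recursion
  have key : ∀ (h' : Γ × I → ℤ), Hyp G h' m θ → ∀ T : ℕ, nn (wt z (Hs G h' T)) ≤ c +
      ∑ T1 ∈ Finset.Icc 1 T, nn (wt z (sl h' (Br G h') T1)) * nn (wt z (Hs G (fun v => - h' v) (T1 - 1))) := by
    intro h' H' T
    calc nn (wt z (Hs G h' T)) ≤ nn (fun x y => idK x y +
          ∑ T1 ∈ Finset.Icc 1 T, cmp (wt z (sl h' (Br G h') T1)) (wt z (Hs G (fun v => - h' v) (T1 - 1))) x y) :=
          nn_mono (fun x y => hs_le T z x y)
      _ ≤ nn (idK : Ker (Γ × I)) + nn (fun x y => 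
          ∑ T1 ∈ Finset.Icc 1 T, cmp (wt z (sl h' (Br G h') T1)) (wt z (Hs G (fun v => - h' v) (T1 - 1))) x y) :=
          nn_add _ _
      _ ≤ c + ∑ T1 ∈ Finset.Icc 1 T,
          nn (wt z (sl h' (Br G h') T1)) * nn (wt z (Hs G (fun v => - h' v) (T1 - 1))) := by
          apply add_le_add nn_id_le
          have h3 : (fun x y => ∑ T1 ∈ Finset.Icc 1 T, cmp (wt z (sl h' (Br G h') T1))
              (wt z (Hs G (fun v => - h' v) (T1 - 1))) x y) =
              (fun x y => ∑' T1 : Finset.Icc 1 T, cmp (wt z (sl h' (Br G h') (T1 : ℕ)))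
              (wt z (Hs G (fun v => - h' v) ((T1 : ℕ) - 1))) x y) := by
            funext x y
            rw [tsum_fintype]
            exact (Finset.sum_coe_sort (Finset.Icc 1 T) (fun T1 => cmp (wt z (sl h' (Br G h') T1))
              (wt z (Hs G (fun v => - h' v) (T1 - 1))) x y)).symm
          rw [h3]
          refine (nn_tsum _).trans ?_
          rw [tsum_fintype, ← Finset.sum_coe_sort (Finset.Icc 1 T)
            (fun T1 => nn (wt z (sl h' (Br G h') T1)) * nn (wt z (Hs G (fun v => - h' v) (T1 - 1))))]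
          apply Finset.sum_le_sum
          intro T1 _
          exact nn_cmp (InvK_hs H'.neg _ z)
  -- the product bound
  have hneg : (fun v => - (fun v => - h v) v) = h := by
    funext v
    exact neg_neg _
  have hpb : ∀ T, nn (wt z (Hs G h T)) ≤ C3 := by
    intro T
    refine (pro_bound (fun T => nn (wt z (sl h (Br G h) T)) + nn (wt z (sl (fun v => - h v) (Br G (fun v => - h v)) T)))
      (fun T => nn (wt z (Hs G h T))) (fun T => nn (wt z (Hs G (fun v => - h v) T))) c (C1 + C2) hC ?_ ?_ ?_ T).1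
    · intro T
      refine (key h H T).trans ?_
      apply add_le_add le_rfl
      apply Finset.sum_le_sum
      intro T1 _
      exact mul_le_mul_left le_self_add _
    · intro T
      refine (key _ H.neg T).trans ?_
      rw [hneg]
      apply add_le_add le_rfl
      apply Finset.sum_le_sum
      intro T1 _
      exact mul_le_mul_left le_add_self _
    · rw [ENNReal.tsum_add]
      exact add_le_add hs1 hs2
  -- the walks
  have hfin : z * nn (wt z (SwN G n)) ≤ nn (adK G) * C3 * C3 := by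
    rw [← nn_smul]
    have hI := InvK_hs H (m * (n + 1)) z
    calc nn (fun x y => z * wt z (SwN G n) x y)
        ≤ nn (cmp (tp (cmp (adK G) (wt z (Hs G h (m * (n + 1)))))) (wt z (Hs G h (m * (n + 1))))) :=
          nn_mono (fun x y => sw_le H.lip H.dn n z x y)
      _ ≤ nn (tp (cmp (adK G) (wt z (Hs G h (m * (n + 1)))))) * nn (wt z (Hs G h (m * (n + 1)))) := nn_cmp hI
      _ = nn (cmp (adK G) (wt z (Hs G h (m * (n + 1))))) * nn (wt z (Hs G h (m * (n + 1)))) := by
          rw [nn_tp (InvK_cmp (InvK_ad H) hI)]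
      _ ≤ nn (adK G) * C3 * C3 := by
          apply mul_le_mul' _ (hpb _)
          exact (nn_cmp hI).trans (mul_le_mul' le_rfl (hpb _))
  rw [ENNReal.le_div_iff_mul_le (Or.inl h0) (Or.inl (ne_top_of_le_ne_top ENNReal.one_ne_top h01)), mul_comm]
  exact (mul_le_mul_left hz _).trans hfin

end Pool.Agent.SWH
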