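import Pool.Agent.SWH.Exb

/-!
# SWH module Chs: choice of the bridges

PROOF.  `chs`: let `N` be the maximum of the numbers of `exb` and `exd` (both statements stay true for larger `N`).  For a type `i` and
`j : ℤ` choose `γ i j ∈ Γ` with `U (1, i) (γ i j, i0)` and `h (γ i j, i0) = h (1, i) + j` if there is one, else `1`.  For `x = (a, i)` and
`y0` with `h x + N ≤ h y0`, `exb` gives `y` with `U x y`, `h y = h y0`; apply `tr a⁻¹`: so `γ i j` is a proper choice for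
`j = h y0 - h x` (`h_tr`), and apply `tr a` (`U_tr`).
`chs_edge`: let `x, x'` be adjacent.  If `h x < h x'`: by the second part of `chs` there is `k` with `U (k, i0) x`, `h (k, i0) = h y1`; then
`U (k, i0) (g x)` and `U (k, i0) x → U x x' (U_adj) → U x' (g x')`.  If `h x' < h x`: symmetric.  If `h x = h x'`: `u` with `G.Adj x u`,
`h u < h x`, `h u ≥ h x - m` (`lip`), `U u x`, `U u x'` (`U_hor`); `k` with `U (k, i0) u`.
-/

set_option autoImplicit false

open scoped ENNReal NNReal Classical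
open Filter Topology

namespace Pool.Agent.SWH

variable {Γ I : Type} [Group Γ] [Fintype I] {G : SimpleGraph (Γ × I)} {h : Γ × I → ℤ} {m : ℕ} {θ : ℝ}

/-- The property of the choice function. -/
structure Cho (G : SimpleGraph (Γ × I)) (h : Γ × I → ℤ) (i0 : I) (N : ℕ) (γ : I → ℤ → Γ) : Prop where
  upw : ∀ x y0 : Γ × I, y0.2 = i0 → h x + N ≤ h y0 →
    U G h x (x.1 * γ x.2 (h y0 - h x), i0) ∧ h (x.1 * γ x.2 (h y0 - h x), i0) = h y0
  dnw : ∀ x y0 : Γ × I, y0.2 = i0 → h y0 + N ≤ h x → ∃ k : Γ, U G h (k, i0) x ∧ h (k, i0) = h y0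

theorem chs (H : Hyp G h m θ) (i0 : I) : ∃ (N : ℕ) (γ : I → ℤ → Γ), Cho G h i0 N γ := by
  obtain ⟨N1, hN1⟩ := exb H i0
  obtain ⟨N2, hN2⟩ := exd H i0
  refine ⟨max N1 N2, fun i j => if hex : ∃ g : Γ, U G h (1, i) (g, i0) ∧ h (g, i0) = h (1, i) + j then hex.choose else 1,
    ⟨?_, ?_⟩⟩
  · rintro ⟨a, i⟩ y0 hy0 hle
    have hle' : h (a, i) + N1 ≤ h y0 := by
      have : (N1 : ℤ) ≤ ((max N1 N2 : ℕ) : ℤ) := by exact_mod_cast le_max_left _ _
      omega
    obtain ⟨⟨c, i'⟩, hy2, hU, hy⟩ := hN1 (a, i) y0 hy0 hle'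
    simp only at hy2
    subst hy2
    have hx1 : tr a⁻¹ (a, i) = ((1 : Γ), i) := by unfold tr; simp
    have hx2 : tr a⁻¹ (c, i') = (a⁻¹ * c, i') := rfl
    have hex : ∃ g : Γ, U G h (1, i) (g, i') ∧ h (g, i') = h (1, i) + (h y0 - h (a, i)) := by
      refine ⟨a⁻¹ * c, ?_, ?_⟩
      · have := U_tr H a⁻¹ hU
        rwa [hx1, hx2] at this
      · have := h_tr H a⁻¹ (c, i') (a, i)
        rw [hx1, hx2] at this
        omega
    have hs := hex.choose_spec
    simp only [hex, ↓reduceDIte]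
    have e1 : tr a ((1 : Γ), i) = (a, i) := by unfold tr; simp
    have e2 : tr a (hex.choose, i') = (a * hex.choose, i') := rfl
    refine ⟨?_, ?_⟩
    · have := U_tr H a hs.1
      rwa [e1, e2] at this
    · have := h_tr H a (hex.choose, i') ((1 : Γ), i)
      rw [e1, e2] at this
      have h3 := hs.2
      omega
  · intro x y0 hy0 hle
    have hle' : h y0 + N2 ≤ h x := by
      have : (N2 : ℤ) ≤ ((max N1 N2 : ℕ) : ℤ) := by exact_mod_cast le_max_right _ _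
      omega
    obtain ⟨⟨c, i'⟩, hy2, hU, hy⟩ := hN2 x y0 hy0 hle'
    simp only at hy2
    subst hy2
    exact ⟨c, hU, hy⟩

theorem chs_edge (H : Hyp G h m θ) {i0 : I} {N : ℕ} {γ : I → ℤ → Γ} (C : Cho G h i0 N γ)
    {x x' y0 y1 : Γ × I} (hxx : G.Adj x x') (h0 : y0.2 = i0) (h1 : y1.2 = i0)
    (w1 : h x + N ≤ h y0) (w2 : h x' + N ≤ h y0) (w3 : h y1 + N + m ≤ h x) (w4 : h y1 + N + m ≤ h x') :
    ∃ k : Γ, h (k, i0) = h y1 ∧ U G h (k, i0) (x.1 * γ x.2 (h y0 - h x), i0) ∧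
      U G h (k, i0) (x'.1 * γ x'.2 (h y0 - h x'), i0) := by
  have u1 := (C.upw x y0 h0 w1).1
  have u2 := (C.upw x' y0 h0 w2).1
  rcases lt_trichotomy (h x) (h x') with hlt | heq | hgt
  · obtain ⟨k, hk, hk'⟩ := C.dnw x y1 h1 (by omega)
    exact ⟨k, hk', U_trans hk u1, U_trans (U_trans hk (U_adj hxx hlt)) u2⟩
  · obtain ⟨u, hu, hu'⟩ := H.dn x
    have hl := H.lip u x hu.symm
    obtain ⟨k, hk, hk'⟩ := C.dnw u y1 h1 (by omega)
    exact ⟨k, hk', U_trans (U_trans hk (U_adj hu.symm hu')) u1,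
      U_trans (U_trans hk (U_hor hu.symm hu' hxx heq.symm)) u2⟩
  · obtain ⟨k, hk, hk'⟩ := C.dnw x' y1 h1 (by omega)
    exact ⟨k, hk', U_trans (U_trans hk (U_adj hxx.symm hgt)) u1, U_trans hk u2⟩

end Pool.Agent.SWH
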