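import Pool.Agent.SWH.Ivk
import Pool.Agent.SAWL.REC

/-!
# SWH module Cna: counting self-avoiding walks with lists

PROOF.  `saw_eq`: the paths of `G` (`SimpleGraph.Walk` with `IsPath`) of length `n` from `v` correspond to the lists `l` with `Sw G v l`,
`l.length = n` by `p ↦ p.support.tail` (`SimpleGraph.Walk.isChain_adj_support`, `IsPath.support_nodup`, `length_support`; the inverse is
built by induction on `l` or with `SimpleGraph.Walk.ofSupport`); a walk is determined by its support (`SimpleGraph.Walk.ext_support`).  The set is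
finite (`SAWL.saw_finite` in `Pool.Agent.SAWL.REC`, or directly).  `row_wt`, `tsum` of an indicator function = `ncard`.
`row_sw`: `row_wt` and sum over the length of `l`.
`sal_le`: a cycle `v, u_1, ..., u_n, v` of length `n + 1` gives the list `[u_1, ..., u_n]` with `Sw G v`, last vertex `u_n` adjacent to `v`; the
cycle is determined by the list.
-/

set_option autoImplicit false

open scoped ENNReal NNReal Classical
open Filter Topology

namespace Pool.Agent.SWH

variable {V : Type} {G : SimpleGraph V}

private theorem cna_build (l : List V) : ∀ v : V, (v :: l).IsChain G.Adj →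
    ∃ (w : V) (p : G.Walk v w), p.support = v :: l := by
  induction l with
  | nil => intro v _; exact ⟨v, SimpleGraph.Walk.nil, rfl⟩
  | cons a l ih =>
    intro v hv
    rw [List.isChain_cons_cons] at hv
    obtain ⟨w, p, hp⟩ := ih a hv.2
    exact ⟨w, SimpleGraph.Walk.cons hv.1 p, by rw [SimpleGraph.Walk.support_cons, hp]⟩

private theorem cna_ext {v : V} (p q : Σ w : V, G.Walk v w) (h : p.2.support = q.2.support) : p = q := by
  obtain ⟨w, p⟩ := p
  obtain ⟨w', q⟩ := q
  simp only at h
  have h1 : w = w' := by
    have e1 := p.getLast_support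
    have e2 := q.getLast_support
    rw [← e1, ← e2]
    congr 1
  subst h1
  rw [SimpleGraph.Walk.ext_support h]

private theorem cna_set (n : ℕ) (v : V) :
    {l : List V | SwE G n v l} = (fun p : Σ w : V, G.Walk v w => p.2.support.tail) ''
      {p : Σ w : V, G.Walk v w | p.2.IsPath ∧ p.2.length = n} := by
  ext l
  simp only [Set.mem_setOf_eq, Set.mem_image]
  constructor
  · rintro ⟨⟨h1, h2⟩, h3⟩
    obtain ⟨w, p, hp⟩ := cna_build l v h1
    refine ⟨⟨w, p⟩, ⟨?_, ?_⟩, ?_⟩
    · rw [SimpleGraph.Walk.isPath_def, hp]
      exact h2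
    · have h4 := p.length_support
      rw [hp, List.length_cons] at h4
      simp only
      omega
    · simp only [hp, List.tail_cons]
  · rintro ⟨⟨w, p⟩, ⟨h1, h2⟩, rfl⟩
    simp only at h1 h2 ⊢
    have h3 : v :: p.support.tail = p.support := by
      rw [SimpleGraph.Walk.cons_tail_support]
    refine ⟨⟨?_, ?_⟩, ?_⟩
    · rw [h3]
      exact p.isChain_adj_support
    · rw [h3]
      exact h1.support_nodup
    · rw [List.length_tail, SimpleGraph.Walk.length_support]
      omega

private theorem cna_inj (n : ℕ) (v : V) : Set.InjOn (fun p : Σ w : V, G.Walk v w => p.2.support.tail)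
      {p : Σ w : V, G.Walk v w | p.2.IsPath ∧ p.2.length = n} := by
  intro p _ q _ h
  apply cna_ext
  simp only at h
  rw [← SimpleGraph.Walk.cons_tail_support p.2, ← SimpleGraph.Walk.cons_tail_support q.2, h]

private theorem cna_fin (hfin : ∀ v, (G.neighborSet v).Finite) (n : ℕ) (v : V) :
    ({l : List V | SwE G n v l}).Finite := by
  rw [cna_set]
  have : G.LocallyFinite := fun v => (hfin v).fintype
  exact (SAWL.saw_finite G n v).image _

private theorem cna_tsum {α : Type} (P : α → Prop) [DecidablePred P] (h : {a | P a}.Finite) :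
    (∑' a : α, if P a then (1 : ℝ≥0∞) else 0) = (({a | P a}).ncard : ℝ≥0∞) := by
  rw [tsum_eq_sum (s := h.toFinset)]
  · rw [Finset.sum_congr rfl (g := fun _ => (1 : ℝ≥0∞))]
    · rw [Finset.sum_const, nsmul_eq_mul, mul_one, Set.ncard_eq_toFinset_card _ h]
    · intro a ha
      rw [Set.Finite.mem_toFinset] at ha
      exact if_pos ha
  · intro a ha
    rw [if_neg]
    intro h1
    exact ha (by rw [Set.Finite.mem_toFinset]; exact h1)

private theorem cna_ncard (n : ℕ) (v : V) : ({l : List V | SwE G n v l}).ncard = SAWL.saw G n v := by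
  rw [cna_set, Set.ncard_image_of_injOn (cna_inj n v)]
  rfl

private theorem cna_row1 (hfin : ∀ v, (G.neighborSet v).Finite) (n : ℕ) (v : V) :
    (∑' l : List V, if SwE G n v l then (1 : ℝ≥0∞) else 0) = (SAWL.saw G n v : ℝ≥0∞) := by
  rw [cna_tsum _ (cna_fin hfin n v), cna_ncard]

theorem saw_eq (hfin : ∀ v, (G.neighborSet v).Finite) (n : ℕ) (v : V) :
    row (wt 1 (SwE G n)) v = (SAWL.saw G n v : ℝ≥0∞) := by
  rw [row_wt, ← cna_row1 hfin n v]
  refine tsum_congr fun l => ?_
  rw [one_pow]

theorem row_sw (hfin : ∀ v, (G.neighborSet v).Finite) (z : ℝ≥0∞) (v : V) :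
    row (wt z (Sw G)) v = ∑' n : ℕ, (SAWL.saw G n v : ℝ≥0∞) * z ^ n := by
  rw [row_wt]
  have h1 : ∀ l : List V, (if Sw G v l then z ^ l.length else 0) =
      ∑' n : ℕ, (if SwE G n v l then (1 : ℝ≥0∞) else 0) * z ^ n := by
    intro l
    rw [tsum_eq_single l.length]
    · unfold SwE
      by_cases h : Sw G v l
      · rw [if_pos h, if_pos ⟨h, rfl⟩, one_mul]
      · rw [if_neg h, if_neg (fun h2 => h h2.1), zero_mul]
    · intro n hn
      rw [if_neg, zero_mul]
      rintro ⟨_, h2⟩
      exact hn h2.symm
  rw [tsum_congr h1, ENNReal.tsum_comm]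
  refine tsum_congr fun n => ?_
  rw [ENNReal.tsum_mul_right, cna_row1 hfin n v]

theorem sal_le (hfin : ∀ v, (G.neighborSet v).Finite) (n : ℕ) (v : V) :
    (SAWL.sal G (n + 1) v : ℝ≥0∞) ≤ ∑' y, adK G v y * wt 1 (SwE G n) v y := by
  have h1 : ∑' y, adK G v y * wt 1 (SwE G n) v y =
      ∑' l : List V, if SwE G n v l ∧ G.Adj v (endp v l) then (1 : ℝ≥0∞) else 0 := by
    have h2 : ∀ y, adK G v y * wt 1 (SwE G n) v y =
        ∑' l : List V, if (SwE G n v l ∧ endp v l = y) ∧ G.Adj v y then (1 : ℝ≥0∞) else 0 := by
      intro y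
      unfold adK wt
      rw [← ENNReal.tsum_mul_left]
      refine tsum_congr fun l => ?_
      rw [one_pow]
      by_cases ha : G.Adj v y
      · rw [if_pos ha, one_mul]
        simp only [ha, and_true]
      · rw [if_neg ha, zero_mul, if_neg (fun h => ha h.2)]
    rw [tsum_congr h2, ENNReal.tsum_comm]
    refine tsum_congr fun l => ?_
    rw [tsum_eq_single (endp v l)]
    · simp only [and_true]
    · intro y hy
      rw [if_neg]
      rintro ⟨⟨_, h3⟩, _⟩
      exact hy h3.symm
  have hF : ({l : List V | SwE G n v l ∧ G.Adj v (endp v l)}).Finite :=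
    (cna_fin hfin n v).subset fun l hl => hl.1
  rw [h1, cna_tsum (fun l : List V => SwE G n v l ∧ G.Adj v (endp v l)) hF]
  unfold SAWL.sal
  refine Nat.cast_le.2 ?_
  have key : ∀ c : G.Walk v v, c.IsCycle → c.length = n + 1 →
      c.support = (v :: c.support.tail.dropLast) ++ [v] := by
    intro c hc hl
    have h3 : c.support.tail ≠ [] := by
      intro h4
      have h5 := c.length_support
      have h6 : c.support.tail.length = 0 := by rw [h4]; rfl
      rw [List.length_tail] at h6
      omega
    have h7 : c.support.tail.getLast h3 = v := by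
      rw [List.getLast_tail]
      exact c.getLast_support
    rw [List.cons_append]
    have h8 : c.support.tail.dropLast ++ [v] = c.support.tail := by
      conv_rhs => rw [← List.dropLast_append_getLast h3, h7]
    rw [h8, SimpleGraph.Walk.cons_tail_support]
  refine Set.ncard_le_ncard_of_injOn (fun c : G.Walk v v => c.support.tail.dropLast) ?_ ?_ hF
  · rintro c ⟨hc, hl⟩
    have hk := key c hc hl
    have hch := c.isChain_adj_support
    have hnd : (c.support.tail.dropLast ++ [v]).Nodup := by
      have h9 := hc.support_nodup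
      have h10 : c.support.tail = c.support.tail.dropLast ++ [v] := by
        conv_lhs => rw [hk]
        rfl
      rw [← h10]
      exact h9
    rw [hk, List.isChain_append] at hch
    refine ⟨⟨⟨hch.1, ?_⟩, ?_⟩, ?_⟩
    · rw [List.nodup_cons]
      rw [List.nodup_append] at hnd
      refine ⟨?_, hnd.1⟩
      intro hv
      exact hnd.2.2 v hv v (by simp) rfl
    · rw [List.length_dropLast, List.length_tail, SimpleGraph.Walk.length_support]
      omega
    · have h11 := hch.2.2 (endp v c.support.tail.dropLast) ?_ v (by simp)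
      · exact h11.symm
      · unfold endp
        rw [List.getLast?_cons]
        simp
  · intro c hc d hd h
    have h3 := key c hc.1 hc.2
    have h4 := key d hd.1 hd.2
    simp only at h
    apply SimpleGraph.Walk.ext_support
    rw [h3, h4, h]

end Pool.Agent.SWH
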