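import Pool.Agent.SWH.Cna

/-!
# SWH module Cnt: inequalities for the numbers of self-avoiding walks

PROOF.  `wt_swE`: all lengths are `n`.
`swE_add`: `wt_le_cmp` with `l1 = l.take m`, `l2 = l.drop m` (`Sw_split`).
`swN_two`: `cmp_wt`; for `l` with `SwE n x l`, `endp x l = y` the `n + 1` pairs `(l.take k, l.drop k)`, `k ≤ n`, are different; the map
`(k, l) ↦ (l.take k, l.drop k)` on `Fin (n+1) × lists` is injective (`k` is the length of the first list).
`saw_sub`: `saw_eq`, `swE_add`, `row_cmp`, `hconst`.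
`one_le_saw`: walk `n` times to a higher neighbour (`H.up`); the heights are strictly increasing, so the list is self-avoiding; `saw_eq`, `row_wt`.
`nn_swE_ne_top`: `nn_le_row`, `saw_eq`.
-/

set_option autoImplicit false

open scoped ENNReal NNReal Classical
open Filter Topology

namespace Pool.Agent.SWH

section
variable {V : Type} {G : SimpleGraph V}

theorem wt_swE (z : ℝ≥0∞) (n : ℕ) (x y : V) : wt z (SwE G n) x y = z ^ n * wt 1 (SwE G n) x y := by
  unfold wt
  rw [← ENNReal.tsum_mul_left]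
  refine tsum_congr fun l => ?_
  by_cases hl : SwE G n x l ∧ endp x l = y
  · rw [if_pos hl, if_pos hl, hl.1.2, one_pow, mul_one]
  · rw [if_neg hl, if_neg hl, mul_zero]

theorem swE_add (m n : ℕ) (x y : V) :
    wt 1 (SwE G (m + n)) x y ≤ cmp (wt 1 (SwE G m)) (wt 1 (SwE G n)) x y := by
  refine wt_le_cmp x (fun l hl => ⟨l.take m, l.drop m, (List.take_append_drop m l).symm, ?_, ?_⟩) 1 y
  · have h1 : Sw G x (l.take m ++ l.drop m) := by rw [List.take_append_drop]; exact hl.1
    refine ⟨(Sw_split h1).1, ?_⟩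
    rw [List.length_take, hl.2]
    omega
  · have h1 : Sw G x (l.take m ++ l.drop m) := by rw [List.take_append_drop]; exact hl.1
    refine ⟨(Sw_split h1).2, ?_⟩
    rw [List.length_drop, hl.2]
    omega

theorem swN_two (z : ℝ≥0∞) (n : ℕ) (x y : V) :
    ((n : ℝ≥0∞) + 1) * (z ^ n * wt 1 (SwE G n) x y) ≤ cmp (wt z (SwN G n)) (wt z (SwN G n)) x y := by
  rw [cmp_wt, ← wt_swE]
  set C : List V → Prop := fun l => SwE G n x l ∧ endp x l = y with hC
  have e1 : wt z (SwE G n) x y = ∑' l : List V, if C l then z ^ n else 0 := by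
    unfold wt
    refine tsum_congr fun l => ?_
    by_cases hl : C l
    · rw [if_pos hl, if_pos hl, hl.1.2]
    · rw [if_neg hl, if_neg hl]
  have e2 : ((n : ℝ≥0∞) + 1) * wt z (SwE G n) x y
      = ∑' q : Fin (n + 1) × List V, if C q.2 then z ^ n else 0 := by
    rw [ENNReal.tsum_prod', tsum_fintype, e1]
    have e0 : ∀ k : Fin (n + 1), (∑' b : List V, if C ((k, b) : Fin (n + 1) × List V).2 then z ^ n else 0)
        = ∑' l : List V, if C l then z ^ n else 0 := fun k => rfl
    rw [Finset.sum_congr rfl (fun k _ => e0 k), Finset.sum_const, Finset.card_univ, Fintype.card_fin, nsmul_eq_mul]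
    push_cast
    rfl
  rw [e2]
  set S : Set (Fin (n + 1) × List V) := {q | C q.2} with hS
  have e3 : (∑' q : Fin (n + 1) × List V, if C q.2 then z ^ n else 0)
      = ∑' q : S, z ^ n := by
    rw [tsum_subtype S (fun _ => z ^ n)]
    refine tsum_congr fun q => ?_
    by_cases hq : C q.2
    · rw [if_pos hq, Set.indicator_of_mem (show q ∈ S from hq)]
    · rw [if_neg hq, Set.indicator_of_notMem (show q ∉ S from hq)]
  rw [e3]
  set F : List V × List V → ℝ≥0∞ := fun p =>
    if SwN G n x p.1 ∧ SwN G n (endp x p.1) p.2 ∧ endp x (p.1 ++ p.2) = y then z ^ (p.1 ++ p.2).length else 0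
    with hF
  set φ : S → List V × List V := fun q => (q.1.2.take q.1.1, q.1.2.drop q.1.1) with hφ
  have hinj : Function.Injective φ := by
    rintro ⟨⟨k, l⟩, hq⟩ ⟨⟨k', l'⟩, hq'⟩ he
    have h1 : l.take k = l'.take k' := congrArg Prod.fst he
    have h2 : l.drop k = l'.drop k' := congrArg Prod.snd he
    have hl : l.length = n := hq.1.2
    have hl' : l'.length = n := hq'.1.2
    have h3 : l = l' := by
      rw [← List.take_append_drop k l, ← List.take_append_drop k' l', h1, h2]
    have h4 : (l.take k).length = (l'.take k').length := by rw [h1]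
    rw [List.length_take, List.length_take, hl, hl'] at h4
    have h5 : (k : ℕ) = k' := by
      have := k.2
      have := k'.2
      omega
    have h6 : k = k' := Fin.ext h5
    subst h3
    subst h6
    rfl
  have h2 := ENNReal.tsum_comp_le_tsum_of_injective hinj F
  refine le_trans (le_of_eq ?_) h2
  refine tsum_congr fun q => ?_
  obtain ⟨⟨k, l⟩, hq⟩ := q
  have hl : C l := hq
  have h1 : Sw G x (l.take k ++ l.drop k) := by rw [List.take_append_drop]; exact hl.1.1
  have h3 : SwN G n x (l.take k) ∧ SwN G n (endp x (l.take k)) (l.drop k) ∧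
      endp x (l.take k ++ l.drop k) = y := by
    refine ⟨⟨(Sw_split h1).1, ?_⟩, ⟨(Sw_split h1).2, ?_⟩, ?_⟩
    · rw [List.length_take, hl.1.2]; omega
    · rw [List.length_drop, hl.1.2]; omega
    · rw [List.take_append_drop]; exact hl.2
  have h4 : F (φ ⟨(k, l), hq⟩) = z ^ (l.take k ++ l.drop k).length := if_pos h3
  rw [h4, List.take_append_drop, hl.1.2]

theorem saw_sub (hfin : ∀ v, (G.neighborSet v).Finite) (hconst : ∀ n x y, SAWL.saw G n x = SAWL.saw G n y)
    (m n : ℕ) (v : V) : SAWL.saw G (m + n) v ≤ SAWL.saw G m v * SAWL.saw G n v := by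
  have h1 : (SAWL.saw G (m + n) v : ℝ≥0∞) ≤ (SAWL.saw G m v : ℝ≥0∞) * (SAWL.saw G n v : ℝ≥0∞) := by
    rw [← saw_eq hfin (m + n) v]
    calc row (wt 1 (SwE G (m + n))) v ≤ row (cmp (wt 1 (SwE G m)) (wt 1 (SwE G n))) v :=
          ENNReal.tsum_le_tsum fun y => swE_add m n v y
      _ = ∑' y, wt 1 (SwE G m) v y * row (wt 1 (SwE G n)) y := row_cmp _ _ _
      _ = ∑' y, wt 1 (SwE G m) v y * (SAWL.saw G n v : ℝ≥0∞) := by
          refine tsum_congr fun y => ?_
          rw [saw_eq hfin n y, hconst n y v]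
      _ = (SAWL.saw G m v : ℝ≥0∞) * (SAWL.saw G n v : ℝ≥0∞) := by
          rw [ENNReal.tsum_mul_right, ← saw_eq hfin m v]
          rfl
  exact_mod_cast h1

end

variable {Γ I : Type} [Group Γ] [Fintype I] {G : SimpleGraph (Γ × I)} {h : Γ × I → ℤ} {m : ℕ} {θ : ℝ}

theorem cnt_walk_up (H : Hyp G h m θ) (n : ℕ) :
    ∀ v, ∃ l : List (Γ × I), Sw G v l ∧ l.length = n ∧ ∀ y ∈ l, h v < h y := by
  induction n with
  | zero => intro v; exact ⟨[], Sw_nil v, rfl, by simp⟩
  | succ n ih =>
    intro v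
    obtain ⟨y, h1, h2⟩ := H.up v
    obtain ⟨l, h3, h4, h5⟩ := ih y
    refine ⟨y :: l, ⟨?_, ?_⟩, by rw [List.length_cons, h4], ?_⟩
    · exact List.IsChain.cons_cons h1 h3.1
    · refine List.nodup_cons.2 ⟨?_, h3.2⟩
      intro hv
      rcases List.mem_cons.1 hv with hv | hv
      · rw [hv] at h2; exact lt_irrefl _ h2
      · exact lt_irrefl _ (h2.trans (h5 v hv))
    · intro w hw
      rcases List.mem_cons.1 hw with hw | hw
      · rw [hw]; exact h2
      · exact h2.trans (h5 w hw)

theorem one_le_saw (H : Hyp G h m θ) (n : ℕ) (v : Γ × I) : 1 ≤ SAWL.saw G n v := by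
  obtain ⟨l, h1, h2, _⟩ := cnt_walk_up H n v
  have h3 : (1 : ℝ≥0∞) ≤ (SAWL.saw G n v : ℝ≥0∞) := by
    rw [← saw_eq H.fin n v, row_wt]
    have h4 := ENNReal.le_tsum (f := fun l : List (Γ × I) => if SwE G n v l then (1 : ℝ≥0∞) ^ l.length else 0) l
    have h5 : (if SwE G n v l then (1 : ℝ≥0∞) ^ l.length else 0) = 1 := by
      rw [one_pow]
      exact if_pos (⟨h1, h2⟩ : SwE G n v l)
    exact h5.symm.le.trans h4
  exact_mod_cast h3

theorem nn_swE_ne_top (H : Hyp G h m θ) (n : ℕ) : nn (wt 1 (SwE G n)) ≠ ⊤ := by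
  refine ne_top_of_le_ne_top ?_ (nn_le_row _)
  refine (ENNReal.sum_lt_top.2 fun i _ => ?_).ne
  rw [saw_eq H.fin n]
  exact ENNReal.natCast_lt_top _

end Pool.Agent.SWH
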