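import Pool.Agent.SWH.Nrm

/-!
# SWH module Cnv: the norm of a convolution

PROOF of `nrm_cnv`.  Fix `A, B, u, v`.  With `α c = ∑_{a ∈ A} u a * k (a⁻¹ c)`, `β c = ∑_{b ∈ B} l (c⁻¹ b) * v b` the double
sum is `∑' c, α c * β c` (substitute `c ↦ a⁻¹ c` in `cnv k l (a⁻¹ b) = ∑' c, k c * l (c⁻¹ a⁻¹ b)`, `Equiv.tsum_eq`).
It is enough to bound `∑_{c ∈ C} α c * β c` for finite `C` (`ENNReal.tsum_eq_iSup_sum`).
`cnvX_dual`: a finite sum of squares is bounded by the square of the dual norm.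
Then `∑_C α β ≤ √(∑ α^2) √(∑ β^2)` (Cauchy-Schwarz, `ENNReal.inner_le_Lp_mul_Lq`).
-/

set_option autoImplicit false

open scoped ENNReal NNReal Classical
open Filter Topology

namespace Pool.Agent.SWH

variable {Γ : Type} [Group Γ]

theorem cnvX_dual (C : Finset Γ) (f : Γ → ℝ≥0∞) (N : ℝ≥0∞)
    (h : ∀ w : Γ → ℝ≥0, ∑ c ∈ C, w c ^ 2 ≤ 1 → ∑ c ∈ C, f c * (w c : ℝ≥0∞) ≤ N) :
    ∑ c ∈ C, f c ^ 2 ≤ N ^ 2 := by
  by_cases hN : N = ⊤
  · rw [hN]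
    simp
  have h1 : ∀ c ∈ C, f c ≤ N := by
    intro c hc
    have h2 := h (fun d => if d = c then 1 else 0) (by simp [hc])
    have h3 : ∑ d ∈ C, f d * ((if d = c then (1 : ℝ≥0) else 0 : ℝ≥0) : ℝ≥0∞) = f c := by
      rw [Finset.sum_eq_single c]
      · simp
      · intro d _ hd
        simp [hd]
      · intro hc'
        exact absurd hc hc'
    rwa [h3] at h2
  have h1' : ∀ c ∈ C, f c ≠ ⊤ := fun c hc => ne_top_of_le_ne_top hN (h1 c hc)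
  set s : ℝ≥0 := ∑ c ∈ C, (f c).toNNReal ^ 2 with hs
  have h2 : ∑ c ∈ C, f c ^ 2 = (s : ℝ≥0∞) := by
    rw [hs]
    push_cast
    refine Finset.sum_congr rfl fun c hc => ?_
    rw [ENNReal.coe_toNNReal (h1' c hc)]
  rw [h2]
  by_cases hs0 : s = 0
  · rw [hs0]
    simp
  set r : ℝ≥0 := NNReal.sqrt s with hr
  have hr2 : r ^ 2 = s := NNReal.sq_sqrt s
  have hr0 : r ≠ 0 := by
    intro h0
    apply hs0
    rw [← hr2, h0]
    simp
  have h3 := h (fun c => (f c).toNNReal / r) (by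
    simp_rw [div_pow]
    rw [← Finset.sum_div, ← hs, hr2, div_self hs0])
  have h4 : ∑ c ∈ C, f c * (((f c).toNNReal / r : ℝ≥0) : ℝ≥0∞) = (r : ℝ≥0∞) := by
    have h5 : ∑ c ∈ C, f c * (((f c).toNNReal / r : ℝ≥0) : ℝ≥0∞) =
        ((∑ c ∈ C, (f c).toNNReal * ((f c).toNNReal / r) : ℝ≥0) : ℝ≥0∞) := by
      push_cast
      refine Finset.sum_congr rfl fun c hc => ?_
      rw [ENNReal.coe_toNNReal (h1' c hc)]
    rw [h5]
    congr 1
    calc ∑ c ∈ C, (f c).toNNReal * ((f c).toNNReal / r) = s / r := by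
          rw [hs, Finset.sum_div]
          refine Finset.sum_congr rfl fun c _ => ?_
          rw [sq, mul_div_assoc]
      _ = r := by
          rw [← hr2, sq, mul_div_assoc, div_self hr0, mul_one]
  rw [h4] at h3
  calc (s : ℝ≥0∞) = (r : ℝ≥0∞) ^ 2 := by
        rw [← hr2]
        push_cast
        rfl
    _ ≤ N ^ 2 := by gcongr

theorem cnvX_cs (C : Finset Γ) (f g : Γ → ℝ≥0∞) (M N : ℝ≥0∞) (hf : ∑ c ∈ C, f c ^ 2 ≤ M ^ 2)
    (hg : ∑ c ∈ C, g c ^ 2 ≤ N ^ 2) : ∑ c ∈ C, f c * g c ≤ M * N := by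
  have h := ENNReal.inner_le_Lp_mul_Lq C f g Real.HolderConjugate.two_two
  have h2 : ∀ x : ℝ≥0∞, x ^ (2 : ℝ) = x ^ 2 := fun x => by
    rw [← ENNReal.rpow_natCast]
    norm_num
  simp_rw [h2] at h
  refine h.trans ?_
  have h3 : ∀ x : ℝ≥0∞, (x ^ 2) ^ (1 / (2 : ℝ)) = x := fun x => by
    rw [← ENNReal.rpow_natCast, ← ENNReal.rpow_mul]
    norm_num
  calc (∑ c ∈ C, f c ^ 2) ^ (1 / (2 : ℝ)) * (∑ c ∈ C, g c ^ 2) ^ (1 / (2 : ℝ))
      ≤ (M ^ 2) ^ (1 / (2 : ℝ)) * (N ^ 2) ^ (1 / (2 : ℝ)) := by gcongr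
    _ = M * N := by rw [h3, h3]

theorem nrm_cnv (k l : Γ → ℝ≥0∞) : nrm (cnv k l) ≤ nrm k * nrm l := by
  refine nrmX_le fun A B u v hu hv => ?_
  have h1 : ∀ a b : Γ, cnv k l (a⁻¹ * b) = ∑' c, k (a⁻¹ * c) * l (c⁻¹ * b) := by
    intro a b
    unfold cnv
    rw [← (Equiv.mulLeft a⁻¹).tsum_eq]
    refine tsum_congr fun c => ?_
    simp only [Equiv.coe_mulLeft]
    congr 2
    group
  have h2 : ∑ a ∈ A, ∑ b ∈ B, (u a : ℝ≥0∞) * cnv k l (a⁻¹ * b) * (v b : ℝ≥0∞) =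
      ∑' c, (∑ a ∈ A, (u a : ℝ≥0∞) * k (a⁻¹ * c)) * (∑ b ∈ B, l (c⁻¹ * b) * (v b : ℝ≥0∞)) := by
    simp_rw [Finset.sum_mul_sum]
    rw [Summable.tsum_finsetSum (fun _ _ => ENNReal.summable)]
    refine Finset.sum_congr rfl fun a _ => ?_
    rw [Summable.tsum_finsetSum (fun _ _ => ENNReal.summable)]
    refine Finset.sum_congr rfl fun b _ => ?_
    rw [h1, ← ENNReal.tsum_mul_left, ← ENNReal.tsum_mul_right]
    refine tsum_congr fun c => ?_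
    ring
  rw [h2, ENNReal.tsum_eq_iSup_sum]
  refine iSup_le fun C => cnvX_cs C _ _ _ _ ?_ ?_
  · apply cnvX_dual
    intro w hw
    refine le_trans (le_of_eq ?_) (nrmX_test k A C u w hu hw)
    rw [Finset.sum_comm]
    refine Finset.sum_congr rfl fun c _ => ?_
    rw [Finset.sum_mul]
  · apply cnvX_dual
    intro w hw
    refine le_trans (le_of_eq ?_) (nrmX_test l C B w v hw hv)
    refine Finset.sum_congr rfl fun c _ => ?_
    rw [Finset.sum_mul]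
    refine Finset.sum_congr rfl fun b _ => ?_
    ring

end Pool.Agent.SWH
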