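import Pool.Agent.SWH.Ivk

/-!
# SWH module Dsm: a Dirichlet form summed over the heights

Here `[M, L]` is a window of integers, `γ i j` are group elements, `v` is a vector on `Γ`.

PROOF.  For `c : ℤ` put `f c x = v (x.1 * γ x.2 (c - h x))` if `c - h x ∈ [M, L]` and `c` is the height of a vertex of type `i0`, else `f c x = 0`.
`f c` has finite support: for each type `i` and each of the finitely many `j ∈ [M, L]` only finitely many `a` have `v (a * γ i j) ≠ 0`.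
(1) `∑' c, ∑' x, (f c x)^2 = ∑' x, ∑' c, (f c x)^2 = ∑_i ∑' a, ∑' j, ...` (substitute `c = h (a, i) + j`; `c` is a height of type `i0` iff `h (1, i) + j` is
one: translate by `a⁻¹`, `h_tr`) `= ∑_i ∑_{j ∈ J i} ∑' a, v (a * γ i j)^2 = ∑_i |J i| * ∑' a, v a ^ 2 ≥ ∑_i |J i| / 2` (`Equiv.mulRight`, `Equiv.tsum_eq`).
(2) `∑' c, ∑' x, ∑' y, 1[x ~ y] (f c x - f c y)^2`: write `x = tr a (1, i)`, `y = tr a x'` with `x'` a neighbour of `(1, i)` (`H.inv`), `c = h x + j`,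
`δ = h x' - h (1, i)`, `|δ| ≤ m` (`lip` in both directions).  For fixed `i, x', j`: if both `j` and `j - δ` are in `[M, L]` (and `h (1, i) + j` is a height of
type `i0`) then the sum over `a` is at most `ε` by `hedge` (with `c = h (1, i) + j`); if exactly one is in `[M, L]`, it is at most `∑ v^2 ≤ 1`; else `0`.  There
are at most `L - M + 1` values of `j` of the first kind and at most `2 m` of the second kind (`|δ|` for each end of the window).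
So the sum is at most `∑_i (number of neighbours of (1, i)) * (ε * (L - M + 1) + 2 m)`.
(3) `H.gap (f c)`, summed over `c` (`ENNReal.tsum_mul_left`, `ENNReal.tsum_le_tsum`).
-/

set_option autoImplicit false

open scoped ENNReal NNReal Classical
open Filter Topology

namespace Pool.Agent.SWH

variable {Γ I : Type} [Group Γ] [Fintype I] {G : SimpleGraph (Γ × I)} {h : Γ × I → ℤ} {m : ℕ} {θ : ℝ}

/-- `c` is the height of a vertex of type `i0` -/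
private def dsmHT (h : Γ × I → ℤ) (i0 : I) (c : ℤ) : Prop := ∃ y0 : Γ × I, y0.2 = i0 ∧ h y0 = c

/-- the functions `f c` -/
private noncomputable def dsmF (h : Γ × I → ℤ) (i0 : I) (M L : ℤ) (γ : I → ℤ → Γ) (v : Γ → ℝ) (c : ℤ) (x : Γ × I) : ℝ :=
  if M ≤ c - h x ∧ c - h x ≤ L ∧ dsmHT h i0 c then v (x.1 * γ x.2 (c - h x)) else 0

/-- the translated functions -/
private noncomputable def dsmG (h : Γ × I → ℤ) (i0 : I) (M L : ℤ) (γ : I → ℤ → Γ) (v : Γ → ℝ) (a : Γ) (c : ℤ) (x : Γ × I) : ℝ :=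
  if M ≤ c - h x ∧ c - h x ≤ L ∧ dsmHT h i0 c then v (a * (x.1 * γ x.2 (c - h x))) else 0

private theorem dsm_ht {φ : Γ → ℤ} (hφ : ∀ γ x, h (tr γ x) = φ γ + h x) (i0 : I) (a : Γ) (c : ℤ) :
    dsmHT h i0 (φ a + c) ↔ dsmHT h i0 c := by
  constructor
  · rintro ⟨y0, h1, h2⟩
    refine ⟨tr a⁻¹ y0, h1, ?_⟩
    have h3 := hφ a (tr a⁻¹ y0)
    rw [← tr_mul, mul_inv_cancel, tr_one] at h3
    omega
  · rintro ⟨y0, h1, h2⟩
    refine ⟨tr a y0, h1, ?_⟩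
    rw [hφ, h2]

private theorem dsm_FG {φ : Γ → ℤ} (hφ : ∀ γ x, h (tr γ x) = φ γ + h x) (i0 : I) (M L : ℤ) (γ : I → ℤ → Γ)
    (v : Γ → ℝ) (a : Γ) (c : ℤ) (x : Γ × I) :
    dsmF h i0 M L γ v (φ a + c) (tr a x) = dsmG h i0 M L γ v a c x := by
  unfold dsmF dsmG
  have h1 : φ a + c - h (tr a x) = c - h x := by
    rw [hφ]
    ring
  rw [h1, dsm_ht hφ]
  have h2 : (tr a x).1 * γ (tr a x).2 (c - h x) = a * (x.1 * γ x.2 (c - h x)) := by
    unfold tr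
    exact mul_assoc _ _ _
  rw [h2]

private theorem dsm_prod (f : Γ × I → ℝ≥0∞) : ∑' x, f x = ∑ i, ∑' a, f (a, i) := by
  rw [ENNReal.tsum_prod', ENNReal.tsum_comm, tsum_fintype]

private theorem dsm_add (f : ℤ → ℝ≥0∞) (k : ℤ) : ∑' c, f c = ∑' c, f (k + c) :=
  ((Equiv.addLeft k).tsum_eq f).symm

private def dsmE (I : Type) (a : Γ) : Γ × I ≃ Γ × I where
  toFun := tr a
  invFun := tr a⁻¹
  left_inv x := by rw [← tr_mul, inv_mul_cancel, tr_one]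
  right_inv x := by rw [← tr_mul, mul_inv_cancel, tr_one]

private theorem dsm_tr (f : Γ × I → ℝ≥0∞) (a : Γ) : ∑' y, f y = ∑' x, f (tr a x) :=
  ((dsmE I a).tsum_eq f).symm

private theorem dsm_pt (a : Γ) (i : I) : (a, i) = tr a ((1 : Γ), i) := by
  unfold tr
  simp

private theorem dsm_fin (i0 : I) (M L : ℤ) (γ : I → ℤ → Γ) (v : Γ → ℝ) (hv : v.support.Finite) (c : ℤ) :
    (dsmF h i0 M L γ v c).support.Finite := by
  have h1 : (⋃ i : I, ⋃ j ∈ Set.Icc M L, (fun a : Γ => (a * (γ i j)⁻¹, i)) '' v.support).Finite := by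
    refine Set.finite_iUnion fun i => ?_
    exact (Set.finite_Icc M L).biUnion fun j _ => hv.image _
  refine h1.subset ?_
  intro x hx
  rw [Function.mem_support] at hx
  unfold dsmF at hx
  by_cases h2 : M ≤ c - h x ∧ c - h x ≤ L ∧ dsmHT h i0 c
  · rw [if_pos h2] at hx
    rw [Set.mem_iUnion]
    refine ⟨x.2, ?_⟩
    rw [Set.mem_iUnion₂]
    refine ⟨c - h x, ⟨h2.1, h2.2.1⟩, x.1 * γ x.2 (c - h x), hx, ?_⟩
    simp
  · rw [if_neg h2] at hx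
    exact absurd rfl hx

private theorem dsm_mul (v : Γ → ℝ) (g : Γ) : ∑' a, ENNReal.ofReal (v (a * g) ^ 2) = ∑' a, ENNReal.ofReal (v a ^ 2) :=
  (Equiv.mulRight g).tsum_eq (fun a => ENNReal.ofReal (v a ^ 2))

private theorem dsm_S1 (H : Hyp G h m θ) (i0 : I) (M L : ℤ) (γ : I → ℤ → Γ) (v : Γ → ℝ)
    (hv1 : 1 / 2 ≤ ∑' a, ENNReal.ofReal (v a ^ 2)) :
    ((∑ i : I, ((Finset.Icc M L).filter
        (fun j => ∃ y0 : Γ × I, y0.2 = i0 ∧ h y0 = h (1, i) + j)).card : ℕ) / 2 : ℝ≥0∞) ≤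
      ∑' c, ∑' x, ENNReal.ofReal (dsmF h i0 M L γ v c x ^ 2) := by
  obtain ⟨φ, hφ⟩ := H.eqv
  rw [ENNReal.tsum_comm, dsm_prod, Nat.cast_sum, ENNReal.div_eq_inv_mul, Finset.mul_sum]
  refine Finset.sum_le_sum fun i _ => ?_
  have h1 : ∀ a : Γ, ∑' c, ENNReal.ofReal (dsmF h i0 M L γ v c (a, i) ^ 2) =
      ∑' c, ENNReal.ofReal (dsmG h i0 M L γ v a c ((1 : Γ), i) ^ 2) := by
    intro a
    rw [dsm_add _ (φ a)]
    refine tsum_congr fun c => ?_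
    rw [dsm_pt a i, dsm_FG hφ]
  simp only [h1]
  rw [ENNReal.tsum_comm]
  have h2 : Function.Injective fun j : ℤ => h ((1 : Γ), i) + j := fun a b hab => by
    simpa using hab
  refine le_trans ?_ (ENNReal.tsum_comp_le_tsum_of_injective h2 _)
  refine le_trans ?_ (ENNReal.sum_le_tsum ((Finset.Icc M L).filter
        (fun j => ∃ y0 : Γ × I, y0.2 = i0 ∧ h y0 = h (1, i) + j)))
  have h3 : ∀ j ∈ (Finset.Icc M L).filter
        (fun j => ∃ y0 : Γ × I, y0.2 = i0 ∧ h y0 = h (1, i) + j), (2 : ℝ≥0∞)⁻¹ ≤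
      ∑' a, ENNReal.ofReal (dsmG h i0 M L γ v a (h ((1 : Γ), i) + j) ((1 : Γ), i) ^ 2) := by
    intro j hj
    rw [Finset.mem_filter, Finset.mem_Icc] at hj
    have h4 : ∀ a : Γ, dsmG h i0 M L γ v a (h ((1 : Γ), i) + j) ((1 : Γ), i) = v (a * γ i j) := by
      intro a
      unfold dsmG
      have h5 : h ((1 : Γ), i) + j - h ((1 : Γ), i) = j := by ring
      rw [h5, if_pos ⟨hj.1.1, hj.1.2, hj.2⟩, one_mul]
    simp only [h4]
    rw [dsm_mul, ← one_div]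
    exact hv1
  refine le_trans ?_ (Finset.card_nsmul_le_sum _ _ _ h3)
  rw [nsmul_eq_mul, mul_comm]

private theorem dsm_cnt (R : ℤ → Prop) [DecidablePred R] (S : Finset ℤ) (hR : ∀ c, R c → c ∈ S) (k : ℝ≥0∞) :
    ∑' c, (if R c then k else 0) ≤ (S.card : ℝ≥0∞) * k := by
  rw [tsum_eq_sum (s := S) (fun c hc => if_neg fun h1 => hc (hR c h1))]
  rw [← nsmul_eq_mul]
  refine Finset.sum_le_card_nsmul _ _ _ fun c _ => ?_
  split
  · exact le_rfl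
  · exact zero_le

private theorem dsm_win (M L p q : ℤ) (m : ℕ) (h1 : p ≤ q + m) (h2 : q ≤ p + m) :
    ∑' c : ℤ, (if (M ≤ c - p ∧ c - p ≤ L) ∧ ¬ (M ≤ c - q ∧ c - q ≤ L) then (1 : ℝ≥0∞) else 0) ≤ m := by
  refine (dsm_cnt _ (Finset.Ico (M + p) (M + q) ∪ Finset.Ioc (L + q) (L + p)) ?_ 1).trans ?_
  · rintro c ⟨⟨h3, h4⟩, h5⟩
    rw [Finset.mem_union, Finset.mem_Ico, Finset.mem_Ioc]
    by_cases h6 : M ≤ c - q
    · right
      have : ¬ c - q ≤ L := fun h7 => h5 ⟨h6, h7⟩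
      constructor <;> omega
    · left
      constructor <;> omega
  · rw [mul_one]
    have h3 := Finset.card_union_le (Finset.Ico (M + p) (M + q)) (Finset.Ioc (L + q) (L + p))
    rw [Int.card_Ico, Int.card_Ioc] at h3
    have h4 : (Finset.Ico (M + p) (M + q) ∪ Finset.Ioc (L + q) (L + p)).card ≤ m := by
      refine h3.trans ?_
      omega
    exact_mod_cast h4

private theorem dsm_edge (H : Hyp G h m θ) (i0 : I) (M L : ℤ) (γ : I → ℤ → Γ) (v : Γ → ℝ)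
    (hv2 : ∑' a, ENNReal.ofReal (v a ^ 2) ≤ 1) (ε : ℝ≥0∞)
    (hedge : ∀ (i : I) (x' : Γ × I) (c : ℤ), G.Adj (1, i) x' → (∃ y0 : Γ × I, y0.2 = i0 ∧ h y0 = c) →
      M ≤ c - h (1, i) → c - h (1, i) ≤ L → M ≤ c - h x' → c - h x' ≤ L →
      ∑' a, ENNReal.ofReal ((v (a * γ i (c - h (1, i))) - v (a * (x'.1 * γ x'.2 (c - h x')))) ^ 2) ≤ ε)
    (i : I) (x' : Γ × I) (hadj : G.Adj (1, i) x') :
    ∑' c, ∑' a, ENNReal.ofReal ((dsmG h i0 M L γ v a c ((1 : Γ), i) - dsmG h i0 M L γ v a c x') ^ 2) ≤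
      ε * ((L - M + 1).toNat : ℝ≥0∞) + 2 * (m : ℝ≥0∞) := by
  set p := h ((1 : Γ), i) with hp
  set q := h x' with hq
  have h1 : ∀ c : ℤ, ∑' a, ENNReal.ofReal ((dsmG h i0 M L γ v a c ((1 : Γ), i) - dsmG h i0 M L γ v a c x') ^ 2) ≤
      (if (M ≤ c - p ∧ c - p ≤ L) ∧ (M ≤ c - q ∧ c - q ≤ L) then ε else 0) +
      ((if (M ≤ c - p ∧ c - p ≤ L) ∧ ¬ (M ≤ c - q ∧ c - q ≤ L) then 1 else 0) +
      (if (M ≤ c - q ∧ c - q ≤ L) ∧ ¬ (M ≤ c - p ∧ c - p ≤ L) then 1 else 0)) := by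
    intro c
    unfold dsmG
    rw [← hp, ← hq]
    by_cases hc : dsmHT h i0 c
    · by_cases hP : M ≤ c - p ∧ c - p ≤ L
      · by_cases hQ : M ≤ c - q ∧ c - q ≤ L
        · have hP3 : M ≤ c - p ∧ c - p ≤ L ∧ dsmHT h i0 c := ⟨hP.1, hP.2, hc⟩
          have hQ3 : M ≤ c - q ∧ c - q ≤ L ∧ dsmHT h i0 c := ⟨hQ.1, hQ.2, hc⟩
          simp only [if_pos hP3, if_pos hQ3, one_mul]
          rw [if_pos (And.intro hP hQ)]
          exact (hedge i x' c hadj hc hP.1 hP.2 hQ.1 hQ.2).trans (le_add_of_nonneg_right zero_le)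
        · have hQ' : ¬ (M ≤ c - q ∧ c - q ≤ L ∧ dsmHT h i0 c) := fun h2 => hQ ⟨h2.1, h2.2.1⟩
          have hP3 : M ≤ c - p ∧ c - p ≤ L ∧ dsmHT h i0 c := ⟨hP.1, hP.2, hc⟩
          simp only [if_pos hP3, if_neg hQ', sub_zero]
          rw [dsm_mul]
          refine hv2.trans ?_
          rw [if_neg (fun h2 => hQ h2.2), if_pos (And.intro hP hQ), zero_add]
          exact le_add_of_nonneg_right zero_le
      · have hP' : ¬ (M ≤ c - p ∧ c - p ≤ L ∧ dsmHT h i0 c) := fun h2 => hP ⟨h2.1, h2.2.1⟩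
        by_cases hQ : M ≤ c - q ∧ c - q ≤ L
        · have hQ3 : M ≤ c - q ∧ c - q ≤ L ∧ dsmHT h i0 c := ⟨hQ.1, hQ.2, hc⟩
          simp only [if_pos hQ3, if_neg hP', zero_sub, neg_sq]
          rw [dsm_mul]
          refine hv2.trans ?_
          rw [if_neg (fun h2 => hP h2.1), if_neg (fun h2 => hP h2.1), if_pos (And.intro hQ hP), zero_add, zero_add]
        · have hQ' : ¬ (M ≤ c - q ∧ c - q ≤ L ∧ dsmHT h i0 c) := fun h2 => hQ ⟨h2.1, h2.2.1⟩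
          simp only [hP', hQ', if_false, sub_zero]
          simp
    · have hP' : ¬ (M ≤ c - p ∧ c - p ≤ L ∧ dsmHT h i0 c) := fun h2 => hc h2.2.2
      have hQ' : ¬ (M ≤ c - q ∧ c - q ≤ L ∧ dsmHT h i0 c) := fun h2 => hc h2.2.2
      simp only [hP', hQ', if_false, sub_zero]
      simp
  refine (ENNReal.tsum_le_tsum h1).trans ?_
  rw [ENNReal.tsum_add, ENNReal.tsum_add]
  have hl1 : p ≤ q + m := H.lip x' _ hadj.symm
  have hl2 : q ≤ p + m := H.lip _ x' hadj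
  have h2 := dsm_win M L p q m hl1 hl2
  have h3 := dsm_win M L q p m hl2 hl1
  have h4 := dsm_cnt (fun c => (M ≤ c - p ∧ c - p ≤ L) ∧ (M ≤ c - q ∧ c - q ≤ L)) (Finset.Icc (M + p) (L + p))
    (by
      rintro c ⟨⟨h5, h6⟩, _⟩
      rw [Finset.mem_Icc]
      constructor <;> omega) ε
  rw [Int.card_Icc] at h4
  have h5 : L + p + 1 - (M + p) = L - M + 1 := by ring
  rw [h5, mul_comm] at h4
  refine add_le_add h4 ?_
  rw [two_mul]
  exact add_le_add h2 h3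

private theorem dsm_S2 (H : Hyp G h m θ) (i0 : I) (M L : ℤ) (γ : I → ℤ → Γ) (v : Γ → ℝ)
    (hv2 : ∑' a, ENNReal.ofReal (v a ^ 2) ≤ 1) (ε : ℝ≥0∞)
    (hedge : ∀ (i : I) (x' : Γ × I) (c : ℤ), G.Adj (1, i) x' → (∃ y0 : Γ × I, y0.2 = i0 ∧ h y0 = c) →
      M ≤ c - h (1, i) → c - h (1, i) ≤ L → M ≤ c - h x' → c - h x' ≤ L →
      ∑' a, ENNReal.ofReal ((v (a * γ i (c - h (1, i))) - v (a * (x'.1 * γ x'.2 (c - h x')))) ^ 2) ≤ ε) :
    ∑' c, ∑' x, ∑' y, (if G.Adj x y then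
      ENNReal.ofReal ((dsmF h i0 M L γ v c x - dsmF h i0 M L γ v c y) ^ 2) else 0) ≤
      ((∑ i : I, (G.neighborSet (1, i)).ncard : ℕ) : ℝ≥0∞) * (ε * ((L - M + 1).toNat : ℝ≥0∞) + 2 * (m : ℝ≥0∞)) := by
  obtain ⟨φ, hφ⟩ := H.eqv
  rw [ENNReal.tsum_comm, dsm_prod, Nat.cast_sum, Finset.sum_mul]
  refine Finset.sum_le_sum fun i _ => ?_
  have h1 : ∀ a : Γ, ∑' c, ∑' y, (if G.Adj (a, i) y then
      ENNReal.ofReal ((dsmF h i0 M L γ v c (a, i) - dsmF h i0 M L γ v c y) ^ 2) else 0) =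
      ∑' x', ∑' c, (if G.Adj ((1 : Γ), i) x' then
        ENNReal.ofReal ((dsmG h i0 M L γ v a c ((1 : Γ), i) - dsmG h i0 M L γ v a c x') ^ 2) else 0) := by
    intro a
    rw [ENNReal.tsum_comm, dsm_tr _ a]
    refine tsum_congr fun x' => ?_
    rw [dsm_add _ (φ a)]
    refine tsum_congr fun c => ?_
    rw [dsm_pt a i, dsm_FG hφ, dsm_FG hφ]
    simp only [H.inv]
  simp only [h1]
  rw [ENNReal.tsum_comm]
  have h2 : ∀ x' : Γ × I, ∑' a, ∑' c, (if G.Adj ((1 : Γ), i) x' then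
        ENNReal.ofReal ((dsmG h i0 M L γ v a c ((1 : Γ), i) - dsmG h i0 M L γ v a c x') ^ 2) else 0) ≤
      if G.Adj ((1 : Γ), i) x' then ε * ((L - M + 1).toNat : ℝ≥0∞) + 2 * (m : ℝ≥0∞) else 0 := by
    intro x'
    by_cases h3 : G.Adj ((1 : Γ), i) x'
    · simp only [if_pos h3]
      rw [ENNReal.tsum_comm]
      exact dsm_edge H i0 M L γ v hv2 ε hedge i x' h3
    · simp only [if_neg h3]
      simp
  refine (ENNReal.tsum_le_tsum h2).trans ?_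
  rw [tsum_eq_sum (s := (H.fin ((1 : Γ), i)).toFinset)]
  · rw [Set.ncard_eq_toFinset_card _ (H.fin ((1 : Γ), i)), ← nsmul_eq_mul]
    refine Finset.sum_le_card_nsmul _ _ _ fun c _ => ?_
    split
    · exact le_rfl
    · exact zero_le
  · intro y hy
    rw [if_neg]
    intro h3
    apply hy
    rw [Set.Finite.mem_toFinset]
    exact h3

theorem dsm (H : Hyp G h m θ) (i0 : I) (M L : ℤ) (hML : M ≤ L) (γ : I → ℤ → Γ) (v : Γ → ℝ) (hv : v.support.Finite)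
    (hv1 : 1 / 2 ≤ ∑' a, ENNReal.ofReal (v a ^ 2)) (hv2 : ∑' a, ENNReal.ofReal (v a ^ 2) ≤ 1) (ε : ℝ≥0∞)
    (hedge : ∀ (i : I) (x' : Γ × I) (c : ℤ), G.Adj (1, i) x' → (∃ y0 : Γ × I, y0.2 = i0 ∧ h y0 = c) →
      M ≤ c - h (1, i) → c - h (1, i) ≤ L → M ≤ c - h x' → c - h x' ≤ L →
      ∑' a, ENNReal.ofReal ((v (a * γ i (c - h (1, i))) - v (a * (x'.1 * γ x'.2 (c - h x')))) ^ 2) ≤ ε) :
    ENNReal.ofReal θ * ((∑ i : I, ((Finset.Icc M L).filter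
        (fun j => ∃ y0 : Γ × I, y0.2 = i0 ∧ h y0 = h (1, i) + j)).card : ℕ) / 2 : ℝ≥0∞) ≤
      ((∑ i : I, (G.neighborSet (1, i)).ncard : ℕ) : ℝ≥0∞) * (ε * ((L - M + 1).toNat : ℝ≥0∞) + 2 * (m : ℝ≥0∞)) := by
  have h1 := dsm_S1 H i0 M L γ v hv1
  have h2 := dsm_S2 H i0 M L γ v hv2 ε hedge
  refine le_trans ?_ h2
  refine le_trans (mul_le_mul_right h1 _) ?_
  rw [← ENNReal.tsum_mul_left]
  exact ENNReal.tsum_le_tsum fun c => H.gap _ (dsm_fin i0 M L γ v hv c)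

end Pool.Agent.SWH
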