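import Pool.Agent.SWH.Uba

/-!
# SWH module Exa: bridges from every vertex to every type

PROOF.  There is `R` such that for all vertices `a` and all types `k` there is a walk of length at most `R` from `a` to a vertex
of type `k` (`Γ` acts by automorphisms of the connected graph `G` and there are finitely many types; a walk from `(1, i)` to `(1, k)`
for all `i, k`, translated by `tr`).  Along it the height changes by at most `m * R` (`lip`).  Put `K = 2 * m * R + 1`.
Going up (`up`) `K` times from `x` gives a walk with strictly increasing heights from `x` to some `v` with `h v ≥ h x + K`.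
Going down (`dn`) `K` times from `(1, i)` gives a walk with strictly decreasing heights from `(1, i)` to some `w`, `h w ≤ h (1, i) - K`.
There is a walk of length at most `R` from `v` to some `w' = tr γ w` (a vertex of the type of `w`).  Walk: `x` up to `v`, then to
`w'`, then up (the reversed translated descending walk) to `y = tr γ (1, i)`.  Heights: on the first part, apart from `x`, in
`(h x, h v]`; on the second part in `[h v - m R, h v + m R]`, so `> h x`; on the third in `[h w', h y]` and `h w' ≥ h v - m R > h x`.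
And `h y ≥ h w' + K ≥ h v - m R + K ≥ h v + m R`, so all heights are `≤ h y`.  Use `U_walk`.
-/

set_option autoImplicit false

open scoped ENNReal NNReal Classical
open Filter Topology

namespace Pool.Agent.SWH

variable {Γ I : Type} [Group Γ] [Fintype I] {G : SimpleGraph (Γ × I)} {h : Γ × I → ℤ} {m : ℕ} {θ : ℝ}

private theorem exa_lip (H : Hyp G h m θ) {a b : Γ × I} (p : G.Walk a b) :
    ∀ v ∈ p.support, h v ≤ h a + m * p.length ∧ h a ≤ h v + m * p.length := by
  induction p with
  | nil =>
    intro v hv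
    simp only [SimpleGraph.Walk.support_nil, List.mem_singleton] at hv
    subst hv
    simp
  | @cons a b c hab q ih =>
    intro v hv
    rw [SimpleGraph.Walk.support_cons, List.mem_cons] at hv
    have h1 := H.lip a b hab
    have h2 := H.lip b a hab.symm
    have h3 : ((m : ℤ) * ((SimpleGraph.Walk.cons hab q).length : ℤ)) = m * q.length + m := by
      rw [SimpleGraph.Walk.length_cons]
      push_cast
      ring
    rw [h3]
    have h4 : (0 : ℤ) ≤ m * q.length := by positivity
    have h5 : (0 : ℤ) ≤ m := by positivity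
    rcases hv with hv | hv
    · subst hv
      constructor <;> omega
    · obtain ⟨h6, h7⟩ := ih v hv
      constructor <;> omega

private theorem exa_up (H : Hyp G h m θ) (x : Γ × I) (n : ℕ) :
    ∃ (v : Γ × I) (p : G.Walk x v), h x + n ≤ h v ∧ ∀ w ∈ p.support, w = x ∨ (h x < h w ∧ h w ≤ h v) := by
  induction n with
  | zero =>
    refine ⟨x, SimpleGraph.Walk.nil, by simp, ?_⟩
    intro w hw
    simp only [SimpleGraph.Walk.support_nil, List.mem_singleton] at hw
    exact Or.inl hw
  | succ n ih =>
    obtain ⟨v, p, h1, h2⟩ := ih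
    obtain ⟨y, h3, h4⟩ := H.up v
    refine ⟨y, p.concat h3, ?_, ?_⟩
    · push_cast
      omega
    · intro w hw
      rw [SimpleGraph.Walk.support_concat, List.mem_append] at hw
      rcases hw with hw | hw
      · rcases h2 w hw with h5 | ⟨h5, h6⟩
        · exact Or.inl h5
        · exact Or.inr ⟨h5, by omega⟩
      · simp only [List.mem_singleton] at hw
        subst hw
        refine Or.inr ⟨?_, le_refl _⟩
        have : (0 : ℤ) ≤ n := by positivity
        omega

private theorem exa_dn (H : Hyp G h m θ) (x : Γ × I) (n : ℕ) :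
    ∃ (v : Γ × I) (p : G.Walk v x), h v + n ≤ h x ∧ ∀ w ∈ p.support, h v ≤ h w ∧ h w ≤ h x := by
  obtain ⟨v, p, h1, h2⟩ := exa_up H.neg x n
  refine ⟨v, p.reverse, by omega, ?_⟩
  intro w hw
  rw [SimpleGraph.Walk.support_reverse, List.mem_reverse] at hw
  have h3 : (0 : ℤ) ≤ n := by positivity
  rcases h2 w hw with h5 | ⟨h5, h6⟩
  · subst h5
    constructor <;> omega
  · constructor <;> omega

private def exa_hom (H : Hyp G h m θ) (γ : Γ) : G →g G where
  toFun := tr γ
  map_rel' := fun {a b} hab => (H.inv γ a b).2 hab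

private theorem exa_R (H : Hyp G h m θ) :
    ∃ R : ℕ, ∀ (a : Γ × I) (k : I), ∃ p : G.Walk a (a.1, k), p.length ≤ R := by
  have h1 : ∀ i k : I, ∃ n : ℕ, ∃ p : G.Walk ((1 : Γ), i) ((1 : Γ), k), p.length = n := by
    intro i k
    obtain ⟨p⟩ := H.conn.preconnected ((1 : Γ), i) ((1 : Γ), k)
    exact ⟨p.length, p, rfl⟩
  choose N hN using h1
  refine ⟨∑ i, ∑ k, N i k, ?_⟩
  rintro ⟨g, i⟩ k
  obtain ⟨p, hp⟩ := hN i k
  have h2 : exa_hom H g ((1 : Γ), i) = (g, i) := by
    change tr g ((1 : Γ), i) = (g, i)
    unfold tr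
    simp
  have h3 : exa_hom H g ((1 : Γ), k) = (g, k) := by
    change tr g ((1 : Γ), k) = (g, k)
    unfold tr
    simp
  refine ⟨(p.map (exa_hom H g)).copy h2 h3, ?_⟩
  rw [SimpleGraph.Walk.length_copy, SimpleGraph.Walk.length_map, hp]
  calc N i k ≤ ∑ k, N i k := Finset.single_le_sum (f := fun k => N i k) (fun _ _ => Nat.zero_le _) (Finset.mem_univ k)
    _ ≤ ∑ i, ∑ k, N i k :=
        Finset.single_le_sum (f := fun i => ∑ k, N i k) (fun _ _ => Nat.zero_le _) (Finset.mem_univ i)

theorem exa (H : Hyp G h m θ) (x : Γ × I) (i : I) : ∃ y : Γ × I, y.2 = i ∧ U G h x y ∧ h x < h y := by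
  obtain ⟨R, hR⟩ := exa_R H
  obtain ⟨φ, hφ⟩ := H.eqv
  obtain ⟨v, p1, h1, h2⟩ := exa_up H x (2 * m * R + 1)
  obtain ⟨w, p3, h3, h4⟩ := exa_dn H ((1 : Γ), i) (2 * m * R + 1)
  obtain ⟨q, hq⟩ := hR v w.2
  set γ : Γ := v.1 * w.1⁻¹ with hγ
  have h5 : exa_hom H γ w = (v.1, w.2) := by
    change tr γ w = (v.1, w.2)
    unfold tr
    rw [hγ]
    simp
  have h6 : exa_hom H γ ((1 : Γ), i) = (γ, i) := by
    change tr γ ((1 : Γ), i) = (γ, i)
    unfold tr
    simp
  have h7 : h (v.1, w.2) = φ γ + h w := by
    rw [← h5]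
    exact hφ γ w
  have h8 : h (γ, i) = φ γ + h ((1 : Γ), i) := by
    rw [← h6]
    exact hφ γ ((1 : Γ), i)
  have h9 : (m : ℤ) * q.length ≤ m * R := by
    have : (q.length : ℤ) ≤ R := by exact_mod_cast hq
    exact mul_le_mul_of_nonneg_left this (by positivity)
  have hK : ((2 * m * R + 1 : ℕ) : ℤ) = 2 * ((m : ℤ) * R) + 1 := by
    push_cast
    ring
  rw [hK] at h1 h3
  have h0 : (0 : ℤ) ≤ (m : ℤ) * R := by positivity
  have hw' := exa_lip H q (v.1, w.2) (SimpleGraph.Walk.end_mem_support q)
  generalize hA : (m : ℤ) * R = A at *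
  generalize hB : (m : ℤ) * q.length = B at *
  refine ⟨(γ, i), rfl, ?_, ?_⟩
  · refine U_walk (p1.append (q.append ((p3.map (exa_hom H γ)).copy h5 h6))) ?_
    intro z hz
    rw [SimpleGraph.Walk.mem_support_append_iff, SimpleGraph.Walk.mem_support_append_iff] at hz
    rcases hz with hz | hz | hz
    · rcases h2 z hz with h10 | ⟨h10, h11⟩
      · exact Or.inl h10
      · refine Or.inr ⟨h10, ?_⟩
        omega
    · have h10 := exa_lip H q z hz
      rw [hB] at h10
      refine Or.inr ⟨?_, ?_⟩ <;> omega
    · rw [SimpleGraph.Walk.support_copy, SimpleGraph.Walk.support_map, List.mem_map] at hz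
      obtain ⟨z', hz', rfl⟩ := hz
      have h10 := h4 z' hz'
      have h11 : h (exa_hom H γ z') = φ γ + h z' := hφ γ z'
      rw [h11]
      refine Or.inr ⟨?_, ?_⟩ <;> omega
  · omega

end Pool.Agent.SWH
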