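import Pool.Agent.SWH.Exa

/-!
# SWH module Exb: bridges to and from a given type with a prescribed height

PROOF (all vertices of type `i0` are `tr γ (1, i0)`; `h (tr γ x) = φ γ + h x`, `φ` is a homomorphism: `φ (γ δ) = φ γ + φ δ`).
By `exa` there is a bridge from `(1, i0)` to `(g, i0)` with `p = φ g ≥ 1`.
(A) For all `x` and `y0` of type `i0` there is `y` of type `i0` with `U x y` and `p ∣ h y - h y0`.  Let `R x` be this property
(`y0` fixed).  `R y0` holds (`y = y0`).  If `U x' x` then `R x → R x'` (`U_trans`).  If `U x x'` then `R x → R x'`: by `exa` (type of `x`)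
there is `δ` with `U x' (tr δ x)`; then `U x' (tr δ x)`, `U (tr δ x) (tr δ x')`, `U (tr δ x') (tr (δ^2) x)`, ..., `U x' (tr (δ^p) x)`,
`U (tr (δ^p) x) (tr (δ^p) y)` and `h (tr (δ^p) y) = p φ δ + h y`.  Hence `G.Adj x x'` and `R x` imply `R x'`: if `h x < h x'` use
`U_adj` and the second rule; if `h x' < h x` the first one; if `h x = h x'` take `u` with `G.Adj x u`, `h u < h x` (`dn`): `U u x` and
`U u x'` (`U_hor`), so `R x → R u → R x'`.  By connectedness `R x` holds for all `x`.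
(B) If `y` of type `i0` has `U x y`, `h y ≤ h y0` and `p ∣ h y0 - h y`, then adding `(h y0 - h y) / p` loops (`y = (a, i0)`,
`U (a, i0) (a g, i0)`) gives `y'` of type `i0` with `U x y'`, `h y' = h y0`.
(C) `N`: for each type `i` and each residue `r` mod `p` for which there are `x` of type `i` and `y0` of type `i0` with
`h y0 - h x ≡ r`, choose `y` as in (A) and let `N(i, r) = h y - h x`; for another pair `x~ = tr γ x`, `y0~` with the same `i, r` the vertex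
`tr γ y` works.  `N` is the maximum over the finite set `I × ZMod p` (or `I × Fin p`).
`exd` (bridges ending at `x`) is proved in the same way: `R' x`: there is `y` of type `i0` with `U y x` and `p ∣ h y - h y0`.
`U x x'` gives `R' x → R' x'`.  If `U x' x`, then by `exa` `U x (tr δ x')` for some `δ`, so `U x (tr (δ^p) x')`, `U y (tr (δ^p) x')` and
`U (tr (δ^(-p)) y) x'`.
-/

set_option autoImplicit false

open scoped ENNReal NNReal Classical
open Filter Topology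

namespace Pool.Agent.SWH

variable {Γ I : Type} [Group Γ] [Fintype I] {G : SimpleGraph (Γ × I)} {h : Γ × I → ℤ} {m : ℕ} {θ : ℝ}

section

variable {W : Γ × I → Γ × I → Prop} {φ : Γ → ℤ}

omit [Fintype I] in
private theorem exb_pow (hφ : ∀ γ x, h (tr γ x) = φ γ + h x) (δ : Γ) (x : Γ × I) (k : ℕ) :
    h (tr (δ ^ k) x) = k * φ δ + h x := by
  induction k with
  | zero => rw [pow_zero, tr_one]; simp
  | succ k ih =>
    rw [pow_succ', tr_mul, hφ, ih]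
    push_cast
    ring

omit [Fintype I] in
private theorem exb_A2 (htrans : ∀ x y z, W x y → W y z → W x z) (htr : ∀ γ x y, W x y → W (tr γ x) (tr γ y))
    (ha : ∀ x i, ∃ y : Γ × I, y.2 = i ∧ W x y ∧ h x < h y) (hφ : ∀ γ x, h (tr γ x) = φ γ + h x)
    (i0 : I) (P : ℕ) (hP : 1 ≤ P) (y0 x x' : Γ × I) (h1 : W x x')
    (h2 : ∃ y : Γ × I, y.2 = i0 ∧ W x y ∧ (P : ℤ) ∣ h y - h y0) :
    ∃ y : Γ × I, y.2 = i0 ∧ W x' y ∧ (P : ℤ) ∣ h y - h y0 := by
  obtain ⟨y, hy1, hy2, hy3⟩ := h2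
  obtain ⟨z, hz1, hz2, hz3⟩ := ha x' x.2
  obtain ⟨δ, hδ⟩ : ∃ δ : Γ, z = tr δ x := by
    refine ⟨z.1 * x.1⁻¹, ?_⟩
    unfold tr
    ext
    · simp
    · exact hz1
  have key : ∀ k : ℕ, W x' (tr (δ ^ (k + 1)) x) := by
    intro k
    induction k with
    | zero => rw [zero_add, pow_one, ← hδ]; exact hz2
    | succ k ih =>
      have e1 : tr (δ ^ (k + 1 + 1)) x = tr (δ ^ (k + 1)) z := by
        rw [hδ, ← tr_mul, pow_succ]
      rw [e1]
      exact htrans _ _ _ ih (htrans _ _ _ (htr _ _ _ h1) (htr _ _ _ hz2))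
  obtain ⟨k, rfl⟩ : ∃ k, P = k + 1 := ⟨P - 1, by omega⟩
  refine ⟨tr (δ ^ (k + 1)) y, hy1, htrans _ _ _ (key k) (htr _ _ _ hy2), ?_⟩
  rw [exb_pow hφ]
  have e2 : ((k + 1 : ℕ) : ℤ) * φ δ + h y - h y0 = ((k + 1 : ℕ) : ℤ) * φ δ + (h y - h y0) := by ring
  rw [e2]
  exact dvd_add (Dvd.intro _ rfl) hy3

omit [Fintype I] in
private theorem exb_A (hrefl : ∀ x, W x x) (htrans : ∀ x y z, W x y → W y z → W x z)
    (htr : ∀ γ x y, W x y → W (tr γ x) (tr γ y))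
    (ha : ∀ x i, ∃ y : Γ × I, y.2 = i ∧ W x y ∧ h x < h y) (hφ : ∀ γ x, h (tr γ x) = φ γ + h x)
    (hadj : ∀ x x', G.Adj x x' → W x x' ∨ W x' x ∨ (∃ u, W u x ∧ W u x') ∨ ∃ u, W x u ∧ W x' u)
    (i0 : I) (P : ℕ) (hP : 1 ≤ P) {x y0 : Γ × I} (p : G.Walk x y0) (hy0 : y0.2 = i0) :
    ∃ y : Γ × I, y.2 = i0 ∧ W x y ∧ (P : ℤ) ∣ h y - h y0 := by
  induction p with
  | nil => exact ⟨_, hy0, hrefl _, by simp⟩
  | @cons a b c hab q ih =>
    have hb := ih hy0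
    have A1 : ∀ x x' : Γ × I, W x' x → (∃ y : Γ × I, y.2 = i0 ∧ W x y ∧ (P : ℤ) ∣ h y - h c) →
        ∃ y : Γ × I, y.2 = i0 ∧ W x' y ∧ (P : ℤ) ∣ h y - h c := by
      rintro x x' h1 ⟨y, hy1, hy2, hy3⟩
      exact ⟨y, hy1, htrans _ _ _ h1 hy2, hy3⟩
    have A2 := exb_A2 htrans htr ha hφ i0 P hP c
    rcases hadj a b hab with h1 | h1 | ⟨u, h1, h2⟩ | ⟨u, h1, h2⟩
    · exact A1 _ _ h1 hb
    · exact A2 _ _ h1 hb
    · exact A2 _ _ h1 (A1 _ _ h2 hb)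
    · exact A1 _ _ h1 (A2 _ _ h2 hb)

private theorem exb_gen (hconn : G.Connected) (hrefl : ∀ x, W x x) (htrans : ∀ x y z, W x y → W y z → W x z)
    (htr : ∀ γ x y, W x y → W (tr γ x) (tr γ y))
    (ha : ∀ x i, ∃ y : Γ × I, y.2 = i ∧ W x y ∧ h x < h y) (hφ : ∀ γ x, h (tr γ x) = φ γ + h x)
    (hadj : ∀ x x', G.Adj x x' → W x x' ∨ W x' x ∨ (∃ u, W u x ∧ W u x') ∨ ∃ u, W x u ∧ W x' u)
    (i0 : I) : ∃ N : ℕ, ∀ x y0 : Γ × I, y0.2 = i0 → h x + N ≤ h y0 →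
      ∃ y : Γ × I, y.2 = i0 ∧ W x y ∧ h y = h y0 := by
  obtain ⟨⟨g, j⟩, hg1, hg2, hg3⟩ := ha ((1 : Γ), i0) i0
  change j = i0 at hg1
  subst hg1
  obtain ⟨P, hP⟩ : ∃ P : ℕ, h (g, j) = h ((1 : Γ), j) + P := ⟨(h (g, j) - h ((1 : Γ), j)).toNat, by omega⟩
  have hP1 : 1 ≤ P := by omega
  have hx : ∀ x : Γ × I, tr x.1 ((1 : Γ), x.2) = x := by
    intro x
    unfold tr
    ext
    · simp
    · rfl
  -- loops
  have hB : ∀ (k : ℕ) (x y : Γ × I), y.2 = j → W x y → ∃ y' : Γ × I, y'.2 = j ∧ W x y' ∧ h y' = h y + k * P := by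
    intro k
    induction k with
    | zero => intro x y h1 h2; exact ⟨y, h1, h2, by simp⟩
    | succ k ih =>
      intro x y h1 h2
      have e1 : tr y.1 ((1 : Γ), j) = y := by
        rw [← h1]; exact hx y
      have e2 : W y (tr y.1 (g, j)) := by
        have := htr y.1 _ _ hg2
        rwa [e1] at this
      have e3 : h (tr y.1 (g, j)) = h y + P := by
        have h3 := hφ y.1 ((1 : Γ), j)
        rw [e1] at h3
        rw [hφ, hP, h3]
        ring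
      obtain ⟨y', h3, h4, h5⟩ := ih x (tr y.1 (g, j)) rfl (htrans _ _ _ h2 e2)
      refine ⟨y', h3, h4, ?_⟩
      rw [h5, e3]
      push_cast
      ring
  have hA : ∀ x y0 : Γ × I, y0.2 = j → ∃ y : Γ × I, y.2 = j ∧ W x y ∧ (P : ℤ) ∣ h y - h y0 := by
    intro x y0 hy0
    obtain ⟨p⟩ := hconn.preconnected x y0
    exact exb_A hrefl htrans htr ha hφ hadj j P hP1 p hy0
  have hC1 : ∀ (i : I) (r : Fin P), ∃ n : ℕ, ∀ y0 : Γ × I, y0.2 = j → (h y0 - h ((1 : Γ), i)) % (P : ℤ) = (r : ℕ) →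
      ∃ y : Γ × I, y.2 = j ∧ W ((1 : Γ), i) y ∧ (P : ℤ) ∣ h y - h y0 ∧ h y ≤ h ((1 : Γ), i) + n := by
    intro i r
    by_cases hex : ∃ y0 : Γ × I, y0.2 = j ∧ (h y0 - h ((1 : Γ), i)) % (P : ℤ) = (r : ℕ)
    · obtain ⟨y1, h1, h2⟩ := hex
      obtain ⟨y, h3, h4, h5⟩ := hA ((1 : Γ), i) y1 h1
      refine ⟨(h y - h ((1 : Γ), i)).toNat, ?_⟩
      intro y0 h6 h7
      refine ⟨y, h3, h4, ?_, by omega⟩
      have h8 : (P : ℤ) ∣ (h y1 - h ((1 : Γ), i)) - (h y0 - h ((1 : Γ), i)) :=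
        Int.ModEq.dvd (n := (P : ℤ)) (h7.trans h2.symm)
      have h9 : h y - h y0 = (h y - h y1) + ((h y1 - h ((1 : Γ), i)) - (h y0 - h ((1 : Γ), i))) := by ring
      rw [h9]
      exact dvd_add h5 h8
    · refine ⟨0, ?_⟩
      intro y0 h6 h7
      exact absurd ⟨y0, h6, h7⟩ hex
  choose n hn using hC1
  refine ⟨∑ i, ∑ r, n i r, ?_⟩
  intro x y0 hy0 hle
  have hPpos : (0 : ℤ) < P := by exact_mod_cast hP1
  set y1 : Γ × I := tr x.1⁻¹ y0 with hy1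
  have h1 : h y0 = φ x.1 + h y1 := by
    rw [← hφ, hy1, ← tr_mul, mul_inv_cancel, tr_one]
  have h2 : h x = φ x.1 + h ((1 : Γ), x.2) := by
    rw [← hφ, hx]
  have h3 : 0 ≤ (h y1 - h ((1 : Γ), x.2)) % (P : ℤ) := Int.emod_nonneg _ hPpos.ne'
  have h4 : (h y1 - h ((1 : Γ), x.2)) % (P : ℤ) < P := Int.emod_lt_of_pos _ hPpos
  obtain ⟨r, hr⟩ : ∃ r : Fin P, (h y1 - h ((1 : Γ), x.2)) % (P : ℤ) = (r : ℕ) := by
    refine ⟨⟨((h y1 - h ((1 : Γ), x.2)) % (P : ℤ)).toNat, by omega⟩, ?_⟩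
    simp only
    omega
  obtain ⟨y, h5, h6, h7, h8⟩ := hn x.2 r y1 hy0 hr
  have h9 : n x.2 r ≤ ∑ i, ∑ r, n i r := by
    calc n x.2 r ≤ ∑ r, n x.2 r :=
          Finset.single_le_sum (f := fun r => n x.2 r) (fun _ _ => Nat.zero_le _) (Finset.mem_univ r)
      _ ≤ ∑ i, ∑ r, n i r :=
          Finset.single_le_sum (f := fun i => ∑ r, n i r) (fun _ _ => Nat.zero_le _) (Finset.mem_univ x.2)
  have h10 : (n x.2 r : ℤ) ≤ ((∑ i, ∑ r, n i r : ℕ) : ℤ) := by exact_mod_cast h9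
  have h11 : W x (tr x.1 y) := by
    have := htr x.1 _ _ h6
    rwa [hx] at this
  have h12 : h (tr x.1 y) = φ x.1 + h y := hφ _ _
  obtain ⟨k, hk⟩ : ∃ k : ℕ, h y0 = h (tr x.1 y) + k * P := by
    obtain ⟨c, hc⟩ := h7
    have hc0 : 0 ≤ -c := by
      by_contra hneg
      push Not at hneg
      have : 1 ≤ c := by omega
      have h13 : (P : ℤ) * 1 ≤ P * c := mul_le_mul_of_nonneg_left this hPpos.le
      omega
    refine ⟨(-c).toNat, ?_⟩
    rw [Int.toNat_of_nonneg hc0]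
    have : -c * (P : ℤ) = -(P * c) := by ring
    rw [this, ← hc]
    omega
  obtain ⟨y', h13, h14, h15⟩ := hB k x (tr x.1 y) h5 h11
  exact ⟨y', h13, h14, by rw [h15, hk]⟩

end

private theorem exb_adj (H : Hyp G h m θ) (x x' : Γ × I) (hx : G.Adj x x') :
    U G h x x' ∨ U G h x' x ∨ ∃ u, U G h u x ∧ U G h u x' := by
  rcases lt_trichotomy (h x) (h x') with h1 | h1 | h1
  · exact Or.inl (U_adj hx h1)
  · obtain ⟨u, h2, h3⟩ := H.dn x
    exact Or.inr (Or.inr ⟨u, U_adj h2.symm h3, U_hor h2.symm h3 hx h1.symm⟩)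
  · exact Or.inr (Or.inl (U_adj hx.symm h1))

theorem exb (H : Hyp G h m θ) (i0 : I) : ∃ N : ℕ, ∀ x y0 : Γ × I, y0.2 = i0 → h x + N ≤ h y0 →
    ∃ y : Γ × I, y.2 = i0 ∧ U G h x y ∧ h y = h y0 := by
  obtain ⟨φ, hφ⟩ := H.eqv
  refine exb_gen (W := U G h) (φ := φ) H.conn U_refl (fun _ _ _ => U_trans) (fun γ x y => U_tr H γ) (exa H) hφ ?_ i0
  intro x x' hx
  rcases exb_adj H x x' hx with h1 | h1 | h1
  · exact Or.inl h1
  · exact Or.inr (Or.inl h1)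
  · exact Or.inr (Or.inr (Or.inl h1))

theorem exd (H : Hyp G h m θ) (i0 : I) : ∃ N : ℕ, ∀ x y0 : Γ × I, y0.2 = i0 → h y0 + N ≤ h x →
    ∃ y : Γ × I, y.2 = i0 ∧ U G h y x ∧ h y = h y0 := by
  obtain ⟨φ, hφ⟩ := H.eqv
  obtain ⟨N, hN⟩ := exb_gen (G := G) (h := fun x => - h x) (W := fun x y => U G h y x) (φ := fun γ => - φ γ)
    H.conn U_refl (fun _ _ _ h1 h2 => U_trans h2 h1) (fun γ x y => U_tr H γ) (by
      intro x i
      obtain ⟨y, h1, h2, h3⟩ := exa H ((1 : Γ), i) x.2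
      refine ⟨tr (x.1 * y.1⁻¹) ((1 : Γ), i), rfl, ?_, ?_⟩
      · have h4 := U_tr H (x.1 * y.1⁻¹) h2
        have h5 : tr (x.1 * y.1⁻¹) y = x := by
          unfold tr
          ext
          · simp
          · exact h1
        rwa [h5] at h4
      · have h5 : tr (x.1 * y.1⁻¹) y = x := by
          unfold tr
          ext
          · simp
          · exact h1
        have h6 : h x = φ (x.1 * y.1⁻¹) + h y := by rw [← hφ, h5]
        have h7 := hφ (x.1 * y.1⁻¹) ((1 : Γ), i)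
        change - h x < - h (tr (x.1 * y.1⁻¹) ((1 : Γ), i))
        omega) (by
      intro γ x
      rw [hφ]
      ring) (by
      intro x x' hx
      rcases exb_adj H x x' hx with h1 | h1 | ⟨u, h1, h2⟩
      · exact Or.inr (Or.inl h1)
      · exact Or.inl h1
      · exact Or.inr (Or.inr (Or.inr ⟨u, h1, h2⟩))) i0
  refine ⟨N, ?_⟩
  intro x y0 hy0 hle
  obtain ⟨y, h1, h2, h3⟩ := hN x y0 hy0 (by omega)
  exact ⟨y, h1, h2, by change - h y = - h y0 at h3; omega⟩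

end Pool.Agent.SWH
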