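import Mathlib

/-!
# SWH module Hga: harmonic equivariant functions

PROOF.  Choose a set `R` of representatives of the `N`-orbits (finite); by freeness every `x` is `γ • r` with unique `γ ∈ N`, `r ∈ R`.
`f0 (γ • r) = φ γ` is equivariant.  For a function `k : V → ℚ` with `N`-invariant increments (`k (γ x) - k (γ y) = k x - k y`) let
`Δ k x = ∑_{y ~ x} (k y - k x)`; it is `N`-invariant.
(1) `∑_{r ∈ R} Δ k r = 0`: on the finite set `E = {(r, y) | r ∈ R, y ~ r}` the map `(r, y) ↦ (r', γ⁻¹ • r)`, where `y = γ • r'`, is an involution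
and changes the sign of `k y - k r` (`Finset.sum_involution`, or: the sum equals its negative).
(2) Let `W` be the space of the `N`-invariant functions `V → ℚ` (= functions on `R`, dimension `R.card`).  `Δ : W → W` is linear, its kernel
consists of the constants: take the maximum over `R`; at a point of maximum all neighbours are maximal, `G` is connected.  By (1) the range is
contained in the kernel of the linear form `g ↦ ∑_{r ∈ R} g r`; both have dimension `R.card - 1`, so they are equal
(`LinearMap.finrank_range_add_finrank_ker`, `Submodule.eq_of_le_of_finrank_eq`).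
(3) `Δ f0` is in `W` with sum zero, so `Δ f0 = - Δ g` with `g ∈ W`; `f = f0 + g`.
-/

set_option autoImplicit false

open scoped Classical
open Filter Topology

namespace Pool.Agent.SWH

private theorem hga_inv {V Γ : Type} [Group Γ] [MulAction Γ V] (G : SimpleGraph V)
    (hfin : ∀ v : V, (G.neighborSet v).Finite) (hadj : ∀ (γ : Γ) (x y : V), G.Adj x y → G.Adj (γ • x) (γ • y))
    (γ : Γ) (x : V) (k : V → ℚ) (hk : ∀ y, k (γ • y) - k (γ • x) = k y - k x) :
    ∑ y ∈ (hfin (γ • x)).toFinset, (k y - k (γ • x)) = ∑ y ∈ (hfin x).toFinset, (k y - k x) := by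
  refine Finset.sum_nbij' (fun y => γ⁻¹ • y) (fun y => γ • y) ?_ ?_ ?_ ?_ ?_
  · intro y hy
    simp only [Set.Finite.mem_toFinset, SimpleGraph.mem_neighborSet] at hy ⊢
    have := hadj γ⁻¹ _ _ hy
    rwa [inv_smul_smul] at this
  · intro y hy
    simp only [Set.Finite.mem_toFinset, SimpleGraph.mem_neighborSet] at hy ⊢
    exact hadj γ _ _ hy
  · intro y _
    exact smul_inv_smul γ y
  · intro y _
    exact inv_smul_smul γ y
  · intro y _
    rw [← hk (γ⁻¹ • y), smul_inv_smul]

theorem hga {V Γ : Type} [Group Γ] [MulAction Γ V] (G : SimpleGraph V) (hc : G.Connected)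
    (hfin : ∀ v : V, (G.neighborSet v).Finite) (hadj : ∀ (γ : Γ) (x y : V), G.Adj x y → G.Adj (γ • x) (γ • y))
    (N : Subgroup Γ) (hfree : ∀ γ ∈ N, ∀ x : V, γ • x = x → γ = 1)
    (horb : ∃ R : Finset V, ∀ x : V, ∃ γ ∈ N, ∃ r ∈ R, x = γ • r) (φ : N →* Multiplicative ℤ) :
    ∃ f : V → ℚ, (∀ (γ : N) (x : V), f ((γ : Γ) • x) = ((Multiplicative.toAdd (φ γ) : ℤ) : ℚ) + f x) ∧
      ∀ x, ∑ y ∈ (hfin x).toFinset, (f y - f x) = 0 := by
  let S : Setoid V := MulAction.orbitRel N V
  let Q : Type := Quotient S
  let mk : V → Q := fun x => Quotient.mk S x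
  let out : Q → V := fun q => Quotient.out q
  have hmk : ∀ q, mk (out q) = q := fun q => Quotient.out_eq q
  have hmks : ∀ (γ : N) (x : V), mk ((γ : Γ) • x) = mk x := by
    intro γ x
    apply Quotient.sound
    change (MulAction.orbitRel N V) _ _
    rw [MulAction.orbitRel_apply]
    exact ⟨γ, rfl⟩
  have hγ : ∀ x, ∃ γ : N, (γ : Γ) • out (mk x) = x := by
    intro x
    have h1 : S (out (mk x)) x := Quotient.mk_out x
    have h2 : S x (out (mk x)) := Setoid.symm h1
    change (MulAction.orbitRel N V) _ _ at h2
    rw [MulAction.orbitRel_apply] at h2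
    obtain ⟨γ, h3⟩ := h2
    exact ⟨γ, h3⟩
  choose c hcc using hγ
  have huniq : ∀ (γ γ' : N) (x : V), (γ : Γ) • x = (γ' : Γ) • x → γ = γ' := by
    intro γ γ' x h
    have h1 : ((γ'⁻¹ * γ : N) : Γ) • x = x := by
      rw [Subgroup.coe_mul, mul_smul, h, ← mul_smul, Subgroup.coe_inv, inv_mul_cancel, one_smul]
    have h2 := hfree _ (γ'⁻¹ * γ : N).2 x h1
    have h3 : γ'⁻¹ * γ = 1 := Subtype.ext h2
    exact (inv_mul_eq_one.mp h3).symm
  have hcs : ∀ (γ : N) (x : V), c ((γ : Γ) • x) = γ * c x := by
    intro γ x
    apply huniq _ _ (out (mk x))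
    have h1 := hcc ((γ : Γ) • x)
    rw [hmks γ x] at h1
    rw [h1, Subgroup.coe_mul, mul_smul, hcc x]
  have hcout : ∀ q, c (out q) = 1 := by
    intro q
    apply huniq _ _ (out q)
    have h1 := hcc (out q)
    rw [hmk q] at h1
    rw [h1]
    simp
  have : Nonempty V := hc.nonempty
  have : Nonempty Q := ⟨mk (Classical.arbitrary V)⟩
  have : Finite Q := by
    obtain ⟨R, hR⟩ := horb
    have hs : Function.Surjective (fun r : R => mk (r : V)) := by
      intro q
      obtain ⟨γ, hγN, r, hr, h1⟩ := hR (out q)
      refine ⟨⟨r, hr⟩, ?_⟩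
      have h2 := hmks ⟨γ, hγN⟩ r
      change mk (γ • r) = mk r at h2
      change mk r = q
      rw [← h2, ← h1, hmk]
    exact Finite.of_surjective _ hs
  have : Fintype Q := Fintype.ofFinite Q
  -- the sum over the orbits of the Laplacian of a function with invariant increments is zero
  have hsum : ∀ k : V → ℚ, (∀ (γ : N) (x y : V), k ((γ : Γ) • x) - k ((γ : Γ) • y) = k x - k y) →
      ∑ q : Q, ∑ y ∈ (hfin (out q)).toFinset, (k y - k (out q)) = 0 := by
    intro k hk
    have h1 : ∑ q : Q, ∑ y ∈ (hfin (out q)).toFinset, (k y - k (out q))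
        = ∑ p ∈ (Finset.univ : Finset Q).sigma (fun q => (hfin (out q)).toFinset), (k p.2 - k (out p.1)) := by
      rw [Finset.sum_sigma]
    have h2 : ∑ p ∈ (Finset.univ : Finset Q).sigma (fun q => (hfin (out q)).toFinset), (k p.2 - k (out p.1))
        = ∑ p ∈ (Finset.univ : Finset Q).sigma (fun q => (hfin (out q)).toFinset), -(k p.2 - k (out p.1)) := by
      have hinv : ∀ p : (_ : Q) × V, mk (((c p.2)⁻¹ : N) • out p.1) = p.1 := by
        intro p
        have := hmks ((c p.2)⁻¹) (out p.1)
        rw [hmk] at this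
        exact this
      have hmem : ∀ p ∈ (Finset.univ : Finset Q).sigma (fun q => (hfin (out q)).toFinset),
          (⟨mk p.2, ((c p.2)⁻¹ : N) • out p.1⟩ : (_ : Q) × V) ∈
            (Finset.univ : Finset Q).sigma (fun q => (hfin (out q)).toFinset) := by
        intro p hp
        simp only [Finset.mem_sigma, Finset.mem_univ, true_and, Set.Finite.mem_toFinset,
          SimpleGraph.mem_neighborSet] at hp ⊢
        have h3 := hadj ((c p.2)⁻¹ : N) _ _ hp
        have h4 : (((c p.2)⁻¹ : N) : Γ) • p.2 = out (mk p.2) := by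
          conv_lhs => rw [← hcc p.2]
          rw [hcc p.2, Subgroup.coe_inv]
          conv_lhs => rw [← hcc p.2]
          rw [hcc p.2]
          conv_lhs =>
            arg 2
            rw [← hcc p.2]
          rw [inv_smul_smul]
        rw [h4] at h3
        exact h3.symm
      have hback : ∀ p ∈ (Finset.univ : Finset Q).sigma (fun q => (hfin (out q)).toFinset),
          (⟨mk (((c p.2)⁻¹ : N) • out p.1), ((c (((c p.2)⁻¹ : N) • out p.1))⁻¹ : N) • out (mk p.2)⟩ : (_ : Q) × V)
            = p := by
        intro p _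
        have h3 : c (((c p.2)⁻¹ : N) • out p.1) = (c p.2)⁻¹ := by
          have := hcs ((c p.2)⁻¹) (out p.1)
          rw [hcout, mul_one] at this
          exact this
        rw [h3, inv_inv, hinv]
        have h4 : (c p.2) • out (mk p.2) = p.2 := hcc p.2
        rw [h4]
      refine Finset.sum_nbij' (fun p => ⟨mk p.2, ((c p.2)⁻¹ : N) • out p.1⟩)
        (fun p => ⟨mk p.2, ((c p.2)⁻¹ : N) • out p.1⟩) hmem hmem hback hback ?_
      intro p _
      have h3 := hk (c p.2) (((c p.2)⁻¹ : N) • out p.1) (out (mk p.2))
      have h4 : ((c p.2 : N) : Γ) • (((c p.2)⁻¹ : N) • out p.1) = out p.1 := smul_inv_smul (c p.2) (out p.1)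
      rw [h4, hcc p.2] at h3
      simp only
      linarith
    rw [Finset.sum_neg_distrib] at h2
    rw [h1]
    linarith
  -- the Laplacian on the functions on the quotient
  let L : (Q → ℚ) →ₗ[ℚ] (Q → ℚ) :=
    { toFun := fun g q => ∑ y ∈ (hfin (out q)).toFinset, (g (mk y) - g q)
      map_add' := by
        intro g h
        funext q
        simp only [Pi.add_apply]
        rw [← Finset.sum_add_distrib]
        apply Finset.sum_congr rfl
        intro y _
        ring
      map_smul' := by
        intro a g
        funext q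
        simp only [Pi.smul_apply, smul_eq_mul, RingHom.id_apply]
        rw [Finset.mul_sum]
        apply Finset.sum_congr rfl
        intro y _
        ring }
  let T : (Q → ℚ) →ₗ[ℚ] ℚ := ∑ q : Q, LinearMap.proj q
  have hT : ∀ g, T g = ∑ q : Q, g q := by
    intro g
    simp [T]
  have hLx : ∀ (g : Q → ℚ) (x : V), ∑ y ∈ (hfin x).toFinset, (g (mk y) - g (mk x)) = L g (mk x) := by
    intro g x
    have h1 := hga_inv G hfin hadj (c x : Γ) (out (mk x)) (fun y => g (mk y)) (by
      intro y
      rw [hmks, hmks])
    rw [hcc x] at h1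
    rw [h1]
    simp only [hmk]
    rfl
  have hkerL : LinearMap.ker L = Submodule.span ℚ {(fun _ : Q => (1 : ℚ))} := by
    apply le_antisymm
    · intro g hg
      rw [LinearMap.mem_ker] at hg
      obtain ⟨q0, hq0⟩ := Finite.exists_max g
      have hstep : ∀ x y : V, G.Adj x y → g (mk x) = g q0 → g (mk y) = g q0 := by
        intro x y hxy hx
        have h1 := hLx g x
        rw [hg] at h1
        have h2 : ∀ z ∈ (hfin x).toFinset, g (mk z) - g (mk x) ≤ 0 := by
          intro z _
          have := hq0 (mk z)
          rw [hx]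
          linarith
        have h3 := (Finset.sum_eq_zero_iff_of_nonpos h2).mp h1 y (by
          simp only [Set.Finite.mem_toFinset, SimpleGraph.mem_neighborSet]
          exact hxy)
        linarith
      have hall : ∀ x y : V, G.Reachable x y → g (mk x) = g q0 → g (mk y) = g q0 := by
        intro x y hr
        obtain ⟨w⟩ := hr
        induction w with
        | nil => exact fun h => h
        | cons h _ ih => exact fun h' => ih (hstep _ _ h h')
      have hconst : ∀ q, g q = g q0 := by
        intro q
        have h1 := hall (out q0) (out q) (hc.preconnected _ _) (by rw [hmk])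
        rwa [hmk] at h1
      rw [Submodule.mem_span_singleton]
      refine ⟨g q0, ?_⟩
      funext q
      simp [hconst q]
    · rw [Submodule.span_le]
      intro g hg
      rw [Set.mem_singleton_iff] at hg
      subst hg
      rw [SetLike.mem_coe, LinearMap.mem_ker]
      funext q
      simp [L]
  have hrange : LinearMap.range L = LinearMap.ker T := by
    apply Submodule.eq_of_le_of_finrank_eq
    · rintro _ ⟨g, rfl⟩
      rw [LinearMap.mem_ker, hT]
      have h1 := hsum (fun x => g (mk x)) (by
        intro γ x y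
        rw [hmks, hmks])
      simp only [hmk] at h1
      exact h1
    · have h1 := LinearMap.finrank_range_add_finrank_ker L
      have h2 := LinearMap.finrank_range_add_finrank_ker T
      have h3 : Module.finrank ℚ (LinearMap.ker L) = 1 := by
        rw [hkerL]
        apply finrank_span_singleton
        intro h
        have := congrFun h (Classical.arbitrary Q)
        simp at this
      have h4 : Module.finrank ℚ (LinearMap.range T) = 1 := by
        have h5 : LinearMap.range T = ⊤ := by
          rw [LinearMap.range_eq_top]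
          intro a
          refine ⟨fun _ => a / (Fintype.card Q : ℚ), ?_⟩
          rw [hT]
          have : (Fintype.card Q : ℚ) ≠ 0 := by
            exact_mod_cast Fintype.card_ne_zero
          simp only [Finset.sum_const, Finset.card_univ, nsmul_eq_mul]
          field_simp
        rw [h5, finrank_top]
        exact Module.finrank_self ℚ
      omega
  -- the equivariant function
  let f0 : V → ℚ := fun x => ((Multiplicative.toAdd (φ (c x)) : ℤ) : ℚ)
  have hf0 : ∀ (γ : N) (x : V), f0 ((γ : Γ) • x) = ((Multiplicative.toAdd (φ γ) : ℤ) : ℚ) + f0 x := by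
    intro γ x
    change ((Multiplicative.toAdd (φ (c ((γ : Γ) • x))) : ℤ) : ℚ) = _
    rw [hcs, map_mul, toAdd_mul]
    push_cast
    rfl
  have hinc : ∀ (γ : N) (x y : V), f0 ((γ : Γ) • x) - f0 ((γ : Γ) • y) = f0 x - f0 y := by
    intro γ x y
    rw [hf0, hf0]
    ring
  let D : Q → ℚ := fun q => ∑ y ∈ (hfin (out q)).toFinset, (f0 y - f0 (out q))
  have hD : -D ∈ LinearMap.range L := by
    rw [hrange, LinearMap.mem_ker, map_neg, hT]
    have := hsum f0 hinc
    change -(∑ q : Q, ∑ y ∈ (hfin (out q)).toFinset, (f0 y - f0 (out q))) = 0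
    rw [this, neg_zero]
  obtain ⟨g, hg⟩ := hD
  refine ⟨fun x => f0 x + g (mk x), ?_, ?_⟩
  · intro γ x
    simp only
    rw [hf0, hmks]
    ring
  · intro x
    have h1 : ∑ y ∈ (hfin x).toFinset, (f0 y - f0 x) = D (mk x) := by
      have h2 := hga_inv G hfin hadj (c x : Γ) (out (mk x)) f0 (fun y => hinc (c x) y (out (mk x)))
      rw [hcc x] at h2
      exact h2
    have h2 := hLx g x
    have h3 : ∑ y ∈ (hfin x).toFinset, (f0 y + g (mk y) - (f0 x + g (mk x)))
        = ∑ y ∈ (hfin x).toFinset, (f0 y - f0 x) + ∑ y ∈ (hfin x).toFinset, (g (mk y) - g (mk x)) := by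
      rw [← Finset.sum_add_distrib]
      apply Finset.sum_congr rfl
      intro y _
      ring
    simp only
    rw [h3, h1, h2, hg]
    simp

end Pool.Agent.SWH
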