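import Pool.Agent.SWH.Hga

/-!
# SWH module Hgb: integer height functions without local extrema

PROOF.  Let `f` be as in `hga` (the orbits: `V = Γ • v0 = ⋃ N g_i • v0`, finite index).  There are finitely many `N`-orbits of edges, so for some
`M0 ≥ 1` all `M0 (f y - f x)`, `x ~ y`, are integers, and by connectedness `F x = M0 (f x - f v0)` is an integer for all `x`.
`F (γ x) = M0 φ γ + F x` for `γ ∈ N`; `∑_{y ~ x} (F y - F x) = 0`; `|F y - F x| ≤ B` for `x ~ y`.
Let `g_1, ..., g_k` be representatives with `Γ = ⋃ N g_i`, `K = 2 B + 2`, `h x = ∑_i K^i F (g_i • x)`.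
Equivariance: `g_i γ = (g_i γ g_i⁻¹) g_i` and `N` is normal: `h (γ x) = h x + ∑_i K^i M0 φ (g_i γ g_i⁻¹)`.
Harmonic: `y ↦ g_i y` maps the neighbours of `x` bijectively to those of `g_i x`.
Not flat: if `h y = h x` for all `y ~ x` then `∑_i K^i (F (g_i y) - F (g_i x)) = 0` with `|..| ≤ B < K / 2`, so all the differences are `0` (uniqueness of
expansions: look at the smallest `i` with a nonzero difference, modulo `K^(i+1)`).  Every vertex is `n g_i x` with `n ∈ N` (transitivity), so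
`F` is locally constant, hence constant; but `F (γ x) - F x = M0 φ γ ≠ 0` for some `γ`.
So some neighbour has `h y ≠ h x`, and as `∑_{y ~ x} (h y - h x) = 0` there are higher and lower neighbours.
-/

set_option autoImplicit false

open scoped Classical
open Filter Topology

namespace Pool.Agent.SWH

private theorem expand_zero (B : ℤ) (K : ℤ) (hK : B < K) (hK0 : 0 < K) : ∀ (k : ℕ) (d : Fin k → ℤ), (∀ i, |d i| ≤ B) →
    ∑ i : Fin k, K ^ (i : ℕ) * d i = 0 → ∀ i, d i = 0 := by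
  intro k
  induction k with
  | zero => intro d _ _ i; exact i.elim0
  | succ k ih =>
    intro d hd hs
    rw [Fin.sum_univ_succ] at hs
    have e : ∑ i : Fin k, K ^ ((i.succ : Fin (k + 1)) : ℕ) * d i.succ = K * ∑ i : Fin k, K ^ (i : ℕ) * d i.succ := by
      rw [Finset.mul_sum]
      refine Finset.sum_congr rfl fun i _ => ?_
      rw [Fin.val_succ, pow_succ]
      ring
    rw [e] at hs
    have h0 : d 0 = 0 := by
      have hdvd : K ∣ d 0 := by
        refine ⟨-∑ i : Fin k, K ^ (i : ℕ) * d i.succ, ?_⟩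
        simp only [Fin.val_zero, pow_zero, one_mul] at hs
        linarith
      exact Int.eq_zero_of_abs_lt_dvd hdvd (lt_of_le_of_lt (hd 0) hK)
    have h1 : ∑ i : Fin k, K ^ (i : ℕ) * d i.succ = 0 := by
      rw [h0, mul_zero, zero_add] at hs
      rcases mul_eq_zero.mp hs with h | h
      · omega
      · exact h
    intro i
    refine Fin.cases h0 (fun j => ?_) i
    exact ih (fun j => d j.succ) (fun j => hd j.succ) h1 j

theorem hgb {V Γ : Type} [Group Γ] [MulAction Γ V] (G : SimpleGraph V) (hc : G.Connected)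
    (hfin : ∀ v : V, (G.neighborSet v).Finite) (hadj : ∀ (γ : Γ) (x y : V), G.Adj x y → G.Adj (γ • x) (γ • y))
    (htr : ∀ x y : V, ∃ γ : Γ, γ • x = y)
    (N : Subgroup Γ) (hn : N.Normal) (hi : N.FiniteIndex) (hfree : ∀ γ ∈ N, ∀ x : V, γ • x = x → γ = 1)
    (φ : N →* Multiplicative ℤ) (hφ : φ ≠ 1) :
    ∃ (ψ : N → ℤ) (h : V → ℤ), (∀ (γ : N) (x : V), h ((γ : Γ) • x) = ψ γ + h x) ∧
      (∀ x, ∃ y, G.Adj x y ∧ h x < h y) ∧ (∀ x, ∃ y, G.Adj x y ∧ h y < h x) := by
  obtain ⟨v0⟩ := hc.nonempty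
  have : Finite (Γ ⧸ N) := N.finite_quotient_of_finiteIndex
  have : Fintype (Γ ⧸ N) := Fintype.ofFinite _
  -- representatives
  have hrep : ∀ γ : Γ, ∃ n ∈ N, γ = n * (Quotient.out (γ : Γ ⧸ N) : Γ) := by
    intro γ
    obtain ⟨g, hg⟩ : ∃ g : Γ, g = (Quotient.out (γ : Γ ⧸ N) : Γ) := ⟨_, rfl⟩
    rw [← hg]
    have h1 : g⁻¹ * γ ∈ N := by
      rw [← QuotientGroup.eq, hg]
      exact Quotient.out_eq' _
    refine ⟨g * (g⁻¹ * γ) * g⁻¹, hn.conj_mem _ h1 g, ?_⟩
    group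
  obtain ⟨k, e⟩ : ∃ k : ℕ, Nonempty (Fin k ≃ (Γ ⧸ N)) := ⟨Fintype.card (Γ ⧸ N), ⟨(Fintype.equivFin _).symm⟩⟩
  obtain ⟨e⟩ := e
  obtain ⟨g, hgdef⟩ : ∃ g : Fin k → Γ, ∀ i, g i = (Quotient.out (e i) : Γ) := ⟨_, fun _ => rfl⟩
  have hrepi : ∀ γ : Γ, ∃ n ∈ N, ∃ i, γ = n * g i := by
    intro γ
    obtain ⟨n, hn1, hn2⟩ := hrep γ
    refine ⟨n, hn1, e.symm (γ : Γ ⧸ N), ?_⟩
    rw [hgdef, Equiv.apply_symm_apply]
    exact hn2
  have hvert : ∀ x w : V, ∃ n ∈ N, ∃ i, w = n • (g i • x) := by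
    intro x w
    obtain ⟨γ, hγ⟩ := htr x w
    obtain ⟨n, hn1, i, hi1⟩ := hrepi γ
    refine ⟨n, hn1, i, ?_⟩
    rw [← hγ, hi1, mul_smul]
  -- the rational function
  obtain ⟨f, hf1, hf2⟩ := hga G hc hfin hadj N hfree
    ⟨Finset.univ.image (fun i : Fin k => g i • v0), by
      intro x
      obtain ⟨n, hn1, i, hi1⟩ := hvert v0 x
      exact ⟨n, hn1, g i • v0, Finset.mem_image.mpr ⟨i, Finset.mem_univ _, rfl⟩, hi1⟩⟩ φ
  -- common denominator
  obtain ⟨M0, hM0, hM0z⟩ : ∃ M0 : ℕ, 0 < M0 ∧ ∀ x : V, ∃ z : ℤ, (z : ℚ) = (M0 : ℚ) * f x := by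
    refine ⟨∏ i : Fin k, (f (g i • v0)).den, Finset.prod_pos fun i _ => (f (g i • v0)).den_pos, ?_⟩
    intro x
    obtain ⟨n, hn1, i, hi1⟩ := hvert v0 x
    have h1 := hf1 ⟨n, hn1⟩ (g i • v0)
    simp only at h1
    rw [← hi1] at h1
    obtain ⟨c, hc1⟩ : (f (g i • v0)).den ∣ ∏ i : Fin k, (f (g i • v0)).den :=
      Finset.dvd_prod_of_mem _ (Finset.mem_univ i)
    refine ⟨(∏ i : Fin k, ((f (g i • v0)).den : ℤ)) * Multiplicative.toAdd (φ ⟨n, hn1⟩) + c * (f (g i • v0)).num, ?_⟩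
    rw [h1]
    have h2 : ((∏ i : Fin k, (f (g i • v0)).den : ℕ) : ℚ) * f (g i • v0) = c * (f (g i • v0)).num := by
      rw [hc1]
      push_cast
      have h3 : ((f (g i • v0)).den : ℚ) * f (g i • v0) = (f (g i • v0)).num := by
        rw [mul_comm]; exact Rat.mul_den_eq_num _
      rw [mul_comm ((f (g i • v0)).den : ℚ) c, mul_assoc, h3]
    rw [mul_add, h2]
    push_cast
    ring
  choose F hF using hM0z
  have hM0q : (0 : ℚ) < M0 := by exact_mod_cast hM0
  have hFn : ∀ (n : N) (x : V), F ((n : Γ) • x) = M0 * Multiplicative.toAdd (φ n) + F x := by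
    intro n x
    have h1 : ((F ((n : Γ) • x) : ℤ) : ℚ) = ((M0 * Multiplicative.toAdd (φ n) + F x : ℤ) : ℚ) := by
      rw [hF, hf1, mul_add]
      push_cast
      rw [hF]
    exact_mod_cast h1
  have hFh : ∀ x, ∑ y ∈ (hfin x).toFinset, (F y - F x) = 0 := by
    intro x
    have h1 : ((∑ y ∈ (hfin x).toFinset, (F y - F x) : ℤ) : ℚ) = M0 * ∑ y ∈ (hfin x).toFinset, (f y - f x) := by
      push_cast
      rw [Finset.mul_sum]
      refine Finset.sum_congr rfl fun y _ => ?_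
      rw [hF, hF]; ring
    rw [hf2, mul_zero] at h1
    exact_mod_cast h1
  have hadj' : ∀ (γ : Γ) (x y : V), G.Adj (γ • x) (γ • y) ↔ G.Adj x y := by
    intro γ x y
    refine ⟨fun h => ?_, hadj γ x y⟩
    have := hadj γ⁻¹ _ _ h
    rwa [inv_smul_smul, inv_smul_smul] at this
  -- the bound
  obtain ⟨B, hB0, hB⟩ : ∃ B : ℤ, 0 ≤ B ∧ ∀ x y, G.Adj x y → |F y - F x| ≤ B := by
    refine ⟨∑ i : Fin k, ∑ y ∈ (hfin (g i • v0)).toFinset, |F y - F (g i • v0)|,
      Finset.sum_nonneg fun i _ => Finset.sum_nonneg fun y _ => abs_nonneg _, ?_⟩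
    intro x y hxy
    obtain ⟨n, hn1, i, hi1⟩ := hvert v0 x
    have hy : y = n • (n⁻¹ • y) := by rw [smul_inv_smul]
    have h1 := hFn ⟨n, hn1⟩ (g i • v0)
    have h2 := hFn ⟨n, hn1⟩ (n⁻¹ • y)
    simp only at h1 h2
    rw [← hi1] at h1
    rw [← hy] at h2
    have h3 : F y - F x = F (n⁻¹ • y) - F (g i • v0) := by rw [h1, h2]; ring
    rw [h3]
    have hmem : n⁻¹ • y ∈ (hfin (g i • v0)).toFinset := by
      rw [Set.Finite.mem_toFinset, SimpleGraph.mem_neighborSet]
      rw [← hadj' n, ← hi1, ← hy]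
      exact hxy
    refine le_trans (Finset.single_le_sum (f := fun y => |F y - F (g i • v0)|) (fun y _ => abs_nonneg _) hmem) ?_
    exact Finset.single_le_sum (f := fun i : Fin k => ∑ y ∈ (hfin (g i • v0)).toFinset, |F y - F (g i • v0)|)
      (fun i _ => Finset.sum_nonneg fun y _ => abs_nonneg _) (Finset.mem_univ i)
  obtain ⟨K, hKB⟩ : ∃ K : ℤ, K = 2 * B + 2 := ⟨_, rfl⟩
  have hconj : ∀ (i : Fin k) (γ : N), g i * (γ : Γ) * (g i)⁻¹ ∈ N := fun i γ => hn.conj_mem _ γ.2 _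
  obtain ⟨h, hh⟩ : ∃ h : V → ℤ, ∀ x, h x = ∑ i : Fin k, K ^ (i : ℕ) * F (g i • x) := ⟨_, fun _ => rfl⟩
  have hharm : ∀ x, ∑ y ∈ (hfin x).toFinset, (h y - h x) = 0 := by
    intro x
    have h1 : ∑ y ∈ (hfin x).toFinset, (h y - h x) =
        ∑ i : Fin k, K ^ (i : ℕ) * ∑ y ∈ (hfin x).toFinset, (F (g i • y) - F (g i • x)) := by
      simp only [hh, ← Finset.sum_sub_distrib, Finset.mul_sum]
      rw [Finset.sum_comm]
      refine Finset.sum_congr rfl fun i _ => Finset.sum_congr rfl fun y _ => ?_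
      ring
    rw [h1]
    refine Finset.sum_eq_zero fun i _ => ?_
    have h2 : ∑ y ∈ (hfin x).toFinset, (F (g i • y) - F (g i • x)) =
        ∑ y ∈ (hfin (g i • x)).toFinset, (F y - F (g i • x)) := by
      refine Finset.sum_bij' (fun y _ => g i • y) (fun y _ => (g i)⁻¹ • y) ?_ ?_ ?_ ?_ ?_
      · intro y hy
        rw [Set.Finite.mem_toFinset, SimpleGraph.mem_neighborSet] at hy ⊢
        exact hadj _ _ _ hy
      · intro y hy
        rw [Set.Finite.mem_toFinset, SimpleGraph.mem_neighborSet] at hy ⊢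
        rw [← hadj' (g i), smul_inv_smul]
        exact hy
      · intro y _; exact inv_smul_smul _ _
      · intro y _; exact smul_inv_smul _ _
      · intro y _; rfl
    rw [h2, hFh, mul_zero]
  have hnf : ∀ x, ∃ y, G.Adj x y ∧ h y ≠ h x := by
    intro x
    by_contra hcon
    push Not at hcon
    have hd : ∀ y, G.Adj x y → ∀ i, F (g i • y) = F (g i • x) := by
      intro y hy
      have h1 := hcon y hy
      rw [hh, hh] at h1
      have h2 := expand_zero B K (by omega) (by omega) k (fun i => F (g i • y) - F (g i • x))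
        (fun i => hB _ _ (hadj _ _ _ hy)) (by
          simp only [mul_sub, Finset.sum_sub_distrib]
          omega)
      intro i
      have h3 : F (g i • y) - F (g i • x) = 0 := h2 i
      omega
    have hloc : ∀ w w', G.Adj w w' → F w' = F w := by
      intro w w' hw
      obtain ⟨n, hn1, i, hi1⟩ := hvert x w
      have hw' : w' = n • (g i • ((g i)⁻¹ • (n⁻¹ • w'))) := by rw [smul_inv_smul, smul_inv_smul]
      have hady : G.Adj x ((g i)⁻¹ • (n⁻¹ • w')) := by
        rw [← hadj' (g i), ← hadj' n, ← hw', ← hi1]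
        exact hw
      have h1 := hFn ⟨n, hn1⟩ (g i • x)
      have h2 := hFn ⟨n, hn1⟩ (g i • ((g i)⁻¹ • (n⁻¹ • w')))
      simp only at h1 h2
      rw [← hi1] at h1
      rw [← hw', hd _ hady i] at h2
      rw [h1, h2]
    have hconst : ∀ w w', F w' = F w := by
      intro w w'
      obtain ⟨p⟩ := hc.preconnected w w'
      induction p with
      | nil => rfl
      | cons hadj1 _ ih => rw [ih, hloc _ _ hadj1]
    apply hφ
    ext γ
    have h1 := hFn γ x
    rw [hconst x] at h1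
    have h2 : (M0 : ℤ) * Multiplicative.toAdd (φ γ) = 0 := by omega
    rcases mul_eq_zero.mp h2 with h3 | h3
    · exfalso
      have : (0 : ℤ) < M0 := by exact_mod_cast hM0
      omega
    · rw [h3]; rfl
  refine ⟨fun γ => ∑ i : Fin k, K ^ (i : ℕ) * (M0 * Multiplicative.toAdd (φ ⟨g i * (γ : Γ) * (g i)⁻¹, hconj i γ⟩)), h,
    ?_, ?_, ?_⟩
  · intro γ x
    rw [hh, hh, ← Finset.sum_add_distrib]
    refine Finset.sum_congr rfl fun i _ => ?_
    have h1 := hFn ⟨g i * (γ : Γ) * (g i)⁻¹, hconj i γ⟩ (g i • x)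
    simp only at h1
    have h2 : (g i * (γ : Γ) * (g i)⁻¹) • (g i • x) = g i • ((γ : Γ) • x) := by
      rw [mul_smul, mul_smul, inv_smul_smul]
    rw [h2] at h1
    rw [h1]
    ring
  · intro x
    by_contra hcon
    push Not at hcon
    obtain ⟨y, hy1, hy2⟩ := hnf x
    have h1 : ∀ y ∈ (hfin x).toFinset, h y - h x ≤ 0 := by
      intro y hy
      rw [Set.Finite.mem_toFinset, SimpleGraph.mem_neighborSet] at hy
      have := hcon y hy
      omega
    have h2 := (Finset.sum_eq_zero_iff_of_nonpos h1).mp (hharm x) y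
      (by rw [Set.Finite.mem_toFinset, SimpleGraph.mem_neighborSet]; exact hy1)
    omega
  · intro x
    by_contra hcon
    push Not at hcon
    obtain ⟨y, hy1, hy2⟩ := hnf x
    have h1 : ∀ y ∈ (hfin x).toFinset, 0 ≤ h y - h x := by
      intro y hy
      rw [Set.Finite.mem_toFinset, SimpleGraph.mem_neighborSet] at hy
      have := hcon y hy
      omega
    have h2 := (Finset.sum_eq_zero_iff_of_nonneg h1).mp (hharm x) y
      (by rw [Set.Finite.mem_toFinset, SimpleGraph.mem_neighborSet]; exact hy1)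
    omega

end Pool.Agent.SWH
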