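import Pool.Agent.SWH.Hgb

/-!
# SWH module Hgc: passage to the normal core

PROOF.  `N = H.normalCore`; it is normal (`Subgroup.normalCore_normal`), of finite index (`Subgroup.finiteIndex_normalCore`) and contained in `H`
(`Subgroup.normalCore_le`).  `φ' = φ ∘ inclusion`.  `φ' ≠ 1`: choose `γ ∈ H` with `φ γ ≠ 1`; some power `γ ^ k`, `k ≥ 1`, is in `N`
(`Subgroup.exists_pow_mem_of_index_ne_zero`), and `toAdd (φ (γ^k)) = k * toAdd (φ γ) ≠ 0`.
-/

set_option autoImplicit false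

open scoped Classical
open Filter Topology

namespace Pool.Agent.SWH

theorem hgc {V Γ : Type} [Group Γ] [MulAction Γ V] (G : SimpleGraph V) (hc : G.Connected)
    (hfin : ∀ v : V, (G.neighborSet v).Finite) (hadj : ∀ (γ : Γ) (x y : V), G.Adj x y → G.Adj (γ • x) (γ • y))
    (htr : ∀ x y : V, ∃ γ : Γ, γ • x = y)
    (H : Subgroup Γ) (hi : H.FiniteIndex) (hfree : ∀ γ ∈ H, ∀ x : V, γ • x = x → γ = 1)
    (φ : H →* Multiplicative ℤ) (hφ : φ ≠ 1) :
    ∃ (N : Subgroup Γ) (ψ : N → ℤ) (h : V → ℤ), (∀ γ ∈ N, ∀ x : V, γ • x = x → γ = 1) ∧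
      (∃ R : Finset V, ∀ x : V, ∃ γ ∈ N, ∃ r ∈ R, x = γ • r) ∧
      (∀ (γ : N) (x : V), h ((γ : Γ) • x) = ψ γ + h x) ∧
      (∀ x, ∃ y, G.Adj x y ∧ h x < h y) ∧ (∀ x, ∃ y, G.Adj x y ∧ h y < h x) := by
  haveI := hi
  have hle : H.normalCore ≤ H := Subgroup.normalCore_le H
  have hNfi : H.normalCore.FiniteIndex := Subgroup.finiteIndex_normalCore H
  have hfree' : ∀ γ ∈ H.normalCore, ∀ x : V, γ • x = x → γ = 1 := fun γ hγ => hfree γ (hle hγ)
  have hφ' : φ.comp (Subgroup.inclusion hle) ≠ 1 := by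
    intro h1
    apply hφ
    ext γ
    obtain ⟨k, hk0, -, hk⟩ := Subgroup.exists_pow_mem_of_index_ne_zero hNfi.index_ne_zero (γ : Γ)
    have h2 := DFunLike.congr_fun h1 (⟨(γ : Γ) ^ k, hk⟩ : H.normalCore)
    have h3 : Subgroup.inclusion hle (⟨(γ : Γ) ^ k, hk⟩ : H.normalCore) = γ ^ k := by
      apply Subtype.ext
      simp
    rw [MonoidHom.comp_apply, h3, map_pow, MonoidHom.one_apply] at h2
    have h4 := congrArg Multiplicative.toAdd h2
    rw [toAdd_pow, toAdd_one] at h4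
    have h5 : Multiplicative.toAdd (φ γ) = 0 := by
      rcases smul_eq_zero.mp h4 with h | h
      · omega
      · exact h
    simpa using h5
  obtain ⟨ψ, h, a, b, c⟩ := hgb G hc hfin hadj htr H.normalCore (Subgroup.normalCore_normal H) hNfi hfree'
    (φ.comp (Subgroup.inclusion hle)) hφ'
  refine ⟨H.normalCore, ψ, h, hfree', ?_, a, b, c⟩
  haveI := hNfi
  haveI : Nonempty V := hc.nonempty
  obtain ⟨v0⟩ := hc.nonempty
  -- representatives of right cosets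
  haveI : Finite (Γ ⧸ H.normalCore) := Subgroup.finite_quotient_of_finiteIndex
  haveI := Fintype.ofFinite (Γ ⧸ H.normalCore)
  refine ⟨(Finset.univ : Finset (Γ ⧸ H.normalCore)).image (fun q => (Quotient.out q)⁻¹ • v0), ?_⟩
  intro x
  obtain ⟨g, rfl⟩ := htr v0 x
  have hq : (Quotient.out ((g⁻¹ : Γ) : Γ ⧸ H.normalCore) : Γ)⁻¹ * g⁻¹ ∈ H.normalCore := by
    rw [← QuotientGroup.eq]
    exact Quotient.out_eq _
  refine ⟨((Quotient.out ((g⁻¹ : Γ) : Γ ⧸ H.normalCore) : Γ)⁻¹ * g⁻¹)⁻¹, inv_mem hq,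
    (Quotient.out ((g⁻¹ : Γ) : Γ ⧸ H.normalCore) : Γ)⁻¹ • v0, Finset.mem_image_of_mem _ (Finset.mem_univ _), ?_⟩
  rw [smul_smul]
  congr 1
  group

end Pool.Agent.SWH
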