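import Pool.Agent.SWH.Brg
import Pool.Agent.SWH.Wtk
import Pool.Agent.SWH.Ker

/-!
# SWH module Sld: inequalities between the generating functions of bridges

PROOF.  `cl_br_le`: `cmp_wt_le` with `Q = Cl L`, `R = P = Br` (`Br_append`, `Cl_inj`).
`row_cl`: `row_cmp` and `cl_br_le`.
`br_slice`: `wt_le_tsum_cmp` with `ι = ℕ`, `Q T1 = sl h (Cl L) T1` if `L ≤ T1 ≤ T` (and the empty class otherwise), `R T1 = sl h Br (T - T1)`,
by `Br_split` and `sp_append` (`T1 = (sp h x l1).toNat`); then drop the zero terms (`tsum_eq_sum`).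
`br_le_cl`: `Cl_of_Br`.  `br_zero`: a bridge of span `0` is trivial (`Br_sp_pos`).
`cl_eq`: `wt_sl`.
-/

set_option autoImplicit false

open scoped ENNReal NNReal Classical
open Filter Topology

namespace Pool.Agent.SWH

variable {V : Type} {G : SimpleGraph V} {h : V → ℤ}

theorem cl_br_le (L : ℕ) (z : ℝ≥0∞) (x y : V) :
    cmp (wt z (Cl G h L)) (wt z (Br G h)) x y ≤ wt z (Br G h) x y :=
  cmp_wt_le x (fun _ _ h1 h2 => Br_append h1.1 h2)
    (fun _ _ _ _ h1 h2 h3 h4 he => Cl_inj h1 h2 h3 h4 he) z y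

theorem row_cl (L : ℕ) (z : ℝ≥0∞) (x : V) :
    ∑' y, wt z (Cl G h L) x y * row (wt z (Br G h)) y ≤ row (wt z (Br G h)) x := by
  rw [← row_cmp]
  unfold row
  exact ENNReal.tsum_le_tsum fun y => cl_br_le L z x y

theorem br_slice {L T : ℕ} (hLT : L ≤ T) (z : ℝ≥0∞) (x y : V) :
    wt z (sl h (Br G h) T) x y ≤
      ∑ T1 ∈ Finset.Icc L T, cmp (wt z (sl h (Cl G h L) T1)) (wt z (sl h (Br G h) (T - T1))) x y := by
  have key := wt_le_tsum_cmp (ι := ℕ) (P := sl h (Br G h) T)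
    (Q := fun T1 x l => T1 ∈ Finset.Icc L T ∧ sl h (Cl G h L) T1 x l)
    (R := fun T1 => sl h (Br G h) (T - T1)) x (by
      intro l hl
      obtain ⟨hb, hs⟩ := hl
      obtain ⟨l1, l2, he, hC, hB⟩ := Br_split (L := L) hb (by rw [hs]; exact_mod_cast hLT)
      have h1 : 0 ≤ sp h (endp x l1) l2 := Br_sp_nonneg hB
      have h2 : sp h x l = sp h x l1 + sp h (endp x l1) l2 := by rw [he, sp_append]
      have h3 := hC.2.1
      have h4 : ((sp h x l1).toNat : ℤ) = sp h x l1 := Int.toNat_of_nonneg (by omega)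
      refine ⟨(sp h x l1).toNat, l1, l2, he, ⟨?_, hC, h4.symm⟩, hB, ?_⟩
      · rw [Finset.mem_Icc]
        constructor
        · omega
        · omega
      · push_cast [show (sp h x l1).toNat ≤ T by omega]
        omega) z y
  refine key.trans ?_
  rw [tsum_eq_sum (s := Finset.Icc L T)]
  · refine Finset.sum_le_sum fun T1 _ => ?_
    unfold cmp
    refine ENNReal.tsum_le_tsum fun w => ?_
    gcongr
    exact wt_mono x (fun l hl => hl.2) z w
  · intro T1 hT1
    unfold cmp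
    rw [ENNReal.tsum_eq_zero]
    intro w
    have h0 : wt z (fun x l => T1 ∈ Finset.Icc L T ∧ sl h (Cl G h L) T1 x l) x w = 0 := by
      unfold wt
      rw [ENNReal.tsum_eq_zero]
      intro l
      exact if_neg fun hh => hT1 hh.1.1
    rw [h0, zero_mul]

theorem br_le_cl (T : ℕ) (z : ℝ≥0∞) (x y : V) : wt z (sl h (Br G h) T) x y ≤ wt z (Cl G h T) x y :=
  wt_mono x (fun _ hl => Cl_of_Br hl.1 hl.2) z y

theorem br_zero (z : ℝ≥0∞) (x y : V) : wt z (sl h (Br G h) 0) x y ≤ idK x y := by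
  unfold wt
  rw [tsum_eq_single ([] : List V)]
  · unfold idK
    by_cases hxy : x = y
    · rw [if_pos hxy]
      split_ifs
      · simp
      · exact bot_le
    · rw [if_neg hxy, if_neg]
      rintro ⟨_, h2⟩
      exact hxy h2
  · intro l hl
    refine if_neg ?_
    rintro ⟨⟨h1, h2⟩, _⟩
    have h3 := Br_sp_pos h1 hl
    rw [h2] at h3
    simp at h3

theorem one_le_row_br (z : ℝ≥0∞) (x : V) : 1 ≤ row (wt z (Br G h)) x := by
  have h1 : (1 : ℝ≥0∞) ≤ wt z (Br G h) x x := by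
    have := le_wt (P := Br G h) (x := x) (y := x) (l := []) (Br_nil x) rfl z
    simpa using this
  refine h1.trans ?_
  unfold row
  exact ENNReal.le_tsum x

theorem cl_eq (L : ℕ) (z : ℝ≥0∞) (x y : V) :
    wt z (Cl G h L) x y = ∑' T : ℕ, wt z (sl h (Cl G h L) T) x y :=
  wt_sl h x (fun _ hl => Br_sp_nonneg hl.1) z y

end Pool.Agent.SWH
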