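import Pool.Agent.SWH.Exa
import Pool.Agent.SWH.Sld

/-!
# SWH module Hrk: comparison of the row sums (Harnack inequality)

PROOF.  For types `i, j` there is by `exa` a bridge `l` from `(1, j)` to some `(g, i)`.  `l ++ l'` is a bridge from `(1, j)` for each
bridge `l'` from `(g, i)`, and `l'` is determined by `l ++ l'`; so (`row_wt`) `z ^ l.length * row (g, i) ≤ row (1, j)`, and
`row (g, i) = row (1, i)` (`row_tr`, `InvK_br`).  As `z ≥ z0`: `row (1, i) ≤ (z0 ^ l.length)⁻¹ * row (1, j)`.  Let `A` be the sum of the numbers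
`(z0 ^ l.length)⁻¹` over the pairs `i, j` (finite, `z0 ≠ 0`).  General vertices: `x = tr x.1 (1, x.2)`.
-/

set_option autoImplicit false

open scoped ENNReal NNReal Classical
open Filter Topology

namespace Pool.Agent.SWH

variable {Γ I : Type} [Group Γ] [Fintype I] {G : SimpleGraph (Γ × I)} {h : Γ × I → ℤ} {m : ℕ} {θ : ℝ}

private theorem hrk_one (z : ℝ≥0∞) (x : Γ × I) (l : List (Γ × I)) (hl : Br G h x l) :
    z ^ l.length * row (wt z (Br G h)) (endp x l) ≤ row (wt z (Br G h)) x := by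
  rw [row_wt, row_wt, ← ENNReal.tsum_mul_left]
  have h1 : ∀ l' : List (Γ × I), z ^ l.length * (if Br G h (endp x l) l' then z ^ l'.length else 0) ≤
      (fun l'' : List (Γ × I) => if Br G h x l'' then z ^ l''.length else 0) (l ++ l') := by
    intro l'
    by_cases h2 : Br G h (endp x l) l'
    · have h3 := Br_append hl h2
      simp only [if_pos h2, if_pos h3, List.length_append, pow_add]
      exact le_rfl
    · rw [if_neg h2, mul_zero]
      exact zero_le
  refine (ENNReal.tsum_le_tsum h1).trans ?_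
  exact ENNReal.tsum_comp_le_tsum_of_injective (List.append_right_injective l) _

theorem hrk (H : Hyp G h m θ) (z0 : ℝ≥0∞) (h0 : z0 ≠ 0) (h01 : z0 ≤ 1) : ∃ A : ℝ≥0∞, A ≠ ⊤ ∧
    ∀ z, z0 ≤ z → ∀ x y : Γ × I, row (wt z (Br G h)) x ≤ A * row (wt z (Br G h)) y := by
  have h1 : ∀ i j : I, ∃ l : List (Γ × I), Br G h ((1 : Γ), j) l ∧ (endp ((1 : Γ), j) l).2 = i := by
    intro i j
    obtain ⟨y, h2, ⟨l, h3, h4⟩, _⟩ := exa H ((1 : Γ), j) i
    exact ⟨l, h3, by rw [h4, h2]⟩
  choose l hl hl2 using h1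
  have hz0 : ∀ n : ℕ, z0 ^ n ≠ 0 := fun n => pow_ne_zero n h0
  have hzt : ∀ n : ℕ, z0 ^ n ≠ ⊤ := fun n => ENNReal.pow_ne_top (ne_top_of_le_ne_top ENNReal.one_ne_top h01)
  refine ⟨∑ i, ∑ j, (z0 ^ (l i j).length)⁻¹, ?_, ?_⟩
  · refine ENNReal.sum_ne_top.2 fun i _ => ENNReal.sum_ne_top.2 fun j _ => ?_
    exact ENNReal.inv_ne_top.2 (hz0 _)
  · intro z hz x y
    have hrow : ∀ x : Γ × I, row (wt z (Br G h)) x = row (wt z (Br G h)) ((1 : Γ), x.2) := by
      intro x
      have h2 : x = tr x.1 ((1 : Γ), x.2) := by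
        unfold tr
        simp
      conv_lhs => rw [h2]
      exact row_tr (InvK_br H z) x.1 _
    rw [hrow x, hrow y]
    generalize x.2 = i
    generalize y.2 = j
    have h2 := hrk_one z ((1 : Γ), j) (l i j) (hl i j)
    rw [hrow (endp _ _), hl2 i j] at h2
    have h3 : row (wt z (Br G h)) ((1 : Γ), i) ≤ (z0 ^ (l i j).length)⁻¹ * row (wt z (Br G h)) ((1 : Γ), j) := by
      calc row (wt z (Br G h)) ((1 : Γ), i)
          = (z0 ^ (l i j).length)⁻¹ * (z0 ^ (l i j).length * row (wt z (Br G h)) ((1 : Γ), i)) := by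
            rw [← mul_assoc, ENNReal.inv_mul_cancel (hz0 _) (hzt _), one_mul]
        _ ≤ (z0 ^ (l i j).length)⁻¹ * (z ^ (l i j).length * row (wt z (Br G h)) ((1 : Γ), i)) := by
            gcongr
        _ ≤ (z0 ^ (l i j).length)⁻¹ * row (wt z (Br G h)) ((1 : Γ), j) := by
            gcongr
    refine h3.trans ?_
    gcongr
    calc (z0 ^ (l i j).length)⁻¹ ≤ ∑ j, (z0 ^ (l i j).length)⁻¹ :=
          Finset.single_le_sum (f := fun j => (z0 ^ (l i j).length)⁻¹) (fun _ _ => zero_le) (Finset.mem_univ j)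
      _ ≤ ∑ i, ∑ j, (z0 ^ (l i j).length)⁻¹ :=
          Finset.single_le_sum (f := fun i => ∑ j, (z0 ^ (l i j).length)⁻¹) (fun _ _ => zero_le) (Finset.mem_univ i)

end Pool.Agent.SWH
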