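import Pool.Agent.SWH.Defs

/-!
# SWH module Iso: isomorphic graphs

PROOF.  Map walks with `e` and `e.symm` (`SimpleGraph.Walk.map`), `map_isPath_of_injective`, `map_isCycle_iff_of_injective`, `length_map`; compare
`SAWL.saw_iso` in the module SAWL.INV.  `Set.ncard_congr` or an equivalence of the subtypes.
-/

set_option autoImplicit false

open scoped ENNReal NNReal Classical
open Filter Topology

namespace Pool.Agent.SWH

theorem iso_surj {V W : Type} {G : SimpleGraph V} {G' : SimpleGraph W} (e : G ≃g G') {u w : W} (q : G'.Walk u w) :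
    ∀ v : V, ∀ hv : e v = u, ∃ s : Σ w' : V, G.Walk v w',
      (⟨e s.1, s.2.map e.toHom⟩ : Σ w : W, G'.Walk (e v) w) = hv ▸ (⟨w, q⟩ : Σ w : W, G'.Walk u w) := by
  induction q with
  | nil =>
    intro v hv
    subst hv
    exact ⟨⟨v, SimpleGraph.Walk.nil⟩, rfl⟩
  | @cons a x c h q' ih =>
    intro v hv
    subst hv
    obtain ⟨y, rfl⟩ := e.surjective x
    obtain ⟨⟨w', p'⟩, hs⟩ := ih y rfl
    have hs' : (⟨e w', p'.map e.toHom⟩ : Σ w : W, G'.Walk (e y) w) = ⟨c, q'⟩ := hs
    have hadj : G.Adj v y := e.map_adj_iff.mp h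
    rw [Sigma.mk.injEq] at hs'
    obtain ⟨h1, h2⟩ := hs'
    subst h1
    have h3 := eq_of_heq h2
    subst h3
    exact ⟨⟨w', SimpleGraph.Walk.cons hadj p'⟩, rfl⟩

theorem saw_iso2 {V W : Type} {G : SimpleGraph V} {G' : SimpleGraph W} (e : G ≃g G') (n : ℕ) (v : V) :
    SAWL.saw G n v = SAWL.saw G' n (e v) := by
  unfold SAWL.saw
  set F : (Σ w : V, G.Walk v w) → (Σ w : W, G'.Walk (e v) w) :=
    fun s => ⟨e s.1, s.2.map e.toHom⟩ with hF
  have hinj : Function.Injective F := by
    rintro ⟨w1, p1⟩ ⟨w2, p2⟩ h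
    simp only [hF, Sigma.mk.injEq] at h
    obtain ⟨h1, h2⟩ := h
    have h3 : w1 = w2 := e.injective h1
    subst h3
    have h4 := eq_of_heq h2
    have h5 := SimpleGraph.Walk.map_injective_of_injective (f := e.toHom) e.injective v w1 h4
    rw [h5]
  have himg : F '' {p : Σ w : V, G.Walk v w | p.2.IsPath ∧ p.2.length = n} =
      {p : Σ w : W, G'.Walk (e v) w | p.2.IsPath ∧ p.2.length = n} := by
    ext ⟨w, q⟩
    constructor
    · rintro ⟨s, ⟨h1, h2⟩, h3⟩
      rw [← h3]
      refine ⟨?_, ?_⟩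
      · exact SimpleGraph.Walk.IsPath.map e.injective h1
      · exact (SimpleGraph.Walk.length_map e.toHom s.2).trans h2
    · rintro ⟨h1, h2⟩
      obtain ⟨s, hs⟩ := iso_surj e q v rfl
      have hs' : F s = ⟨w, q⟩ := hs
      refine ⟨s, ⟨?_, ?_⟩, hs'⟩
      · have h3 : (F s).2.IsPath := by rw [hs']; exact h1
        exact (SimpleGraph.Walk.isPath_map_iff_of_injective e.injective).mp h3
      · have h3 : (F s).2.length = n := by rw [hs']; exact h2
        exact (SimpleGraph.Walk.length_map e.toHom s.2).symm.trans h3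
  rw [← himg, Set.ncard_image_of_injective _ hinj]

theorem sal_iso2 {V W : Type} {G : SimpleGraph V} {G' : SimpleGraph W} (e : G ≃g G') (n : ℕ) (v : V) :
    SAWL.sal G n v = SAWL.sal G' n (e v) := by
  unfold SAWL.sal
  have hinj : Function.Injective (fun c : G.Walk v v => c.map e.toHom) :=
    SimpleGraph.Walk.map_injective_of_injective (f := e.toHom) e.injective v v
  have himg : (fun c : G.Walk v v => c.map e.toHom) '' {c : G.Walk v v | c.IsCycle ∧ c.length = n} =
      {c : G'.Walk (e v) (e v) | c.IsCycle ∧ c.length = n} := by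
    ext q
    constructor
    · rintro ⟨s, ⟨h1, h2⟩, h3⟩
      rw [← h3]
      refine ⟨?_, ?_⟩
      · exact (SimpleGraph.Walk.isCycle_map_iff_of_injective (f := e.toHom) e.injective).mpr h1
      · exact (SimpleGraph.Walk.length_map e.toHom s).trans h2
    · rintro ⟨h1, h2⟩
      obtain ⟨⟨w, s⟩, hs⟩ := iso_surj e q v rfl
      have hs' : (⟨e w, s.map e.toHom⟩ : Σ w : W, G'.Walk (e v) w) = ⟨e v, q⟩ := hs
      rw [Sigma.mk.injEq] at hs'
      obtain ⟨h3, h4⟩ := hs'
      have h5 : w = v := e.injective h3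
      subst h5
      have h6 := eq_of_heq h4
      refine ⟨s, ⟨?_, ?_⟩, h6⟩
      · have : (s.map e.toHom).IsCycle := by rw [h6]; exact h1
        exact (SimpleGraph.Walk.isCycle_map_iff_of_injective (f := e.toHom) e.injective).mp this
      · have : (s.map e.toHom).length = n := by rw [h6]; exact h2
        exact (SimpleGraph.Walk.length_map e.toHom s).symm.trans this
  rw [← himg, Set.ncard_image_of_injective _ hinj]

theorem ncard_iso2 {V W : Type} {G : SimpleGraph V} {G' : SimpleGraph W} (e : G ≃g G') (v : V) :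
    (G.neighborSet v).ncard = (G'.neighborSet (e v)).ncard := by
  have h : G'.neighborSet (e v) = e '' G.neighborSet v := by
    ext x
    simp only [SimpleGraph.mem_neighborSet, Set.mem_image]
    constructor
    · intro hx
      obtain ⟨y, rfl⟩ := e.surjective x
      exact ⟨y, e.map_adj_iff.mp hx, rfl⟩
    · rintro ⟨y, hy, rfl⟩
      exact e.map_adj_iff.mpr hy
  rw [h, Set.ncard_image_of_injective _ e.injective]

end Pool.Agent.SWH
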