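import Pool.Agent.SWH.Defs

/-!
# SWH module Mat: a matrix inequality

PROOF.  Let `κ` be the maximum of `s i / b i`, attained at `i1` (all finite, `b ≥ 1`).  `κ b_{i1} = s_{i1} ≤ c + ∑_j a_{i1 j} κ b_j ≤ c + κ (b_{i1} - δ b_{i1})`,
so `κ δ b_{i1} ≤ c`.  For every `i`: `δ s i ≤ δ κ b i ≤ δ κ A b_{i1} ≤ A c`.  (In `ENNReal`, without subtraction: multiply
`∑_j a_{i1 j} b_j + δ b_{i1} ≤ b_{i1}` by `κ` and add, cancel the finite number `κ b_{i1}`.)
-/

set_option autoImplicit false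

open scoped ENNReal NNReal Classical
open Filter Topology

namespace Pool.Agent.SWH

theorem mat {I : Type} [Fintype I] (a : I → I → ℝ≥0∞) (b s : I → ℝ≥0∞) (c A δ : ℝ≥0∞)
    (hb1 : ∀ i, 1 ≤ b i) (hbt : ∀ i, b i ≠ ⊤) (hst : ∀ i, s i ≠ ⊤)
    (ha : ∀ i, ∑ j, a i j * b j + δ * b i ≤ b i)
    (hs : ∀ i, s i ≤ c + ∑ j, a i j * s j) (hA : ∀ i j, b i ≤ A * b j) (i : I) : δ * s i ≤ A * c := by
  obtain ⟨i1, -, h1⟩ := Finset.exists_max_image Finset.univ (fun i => s i / b i) ⟨i, Finset.mem_univ i⟩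
  have hb0 : ∀ j, b j ≠ 0 := fun j h => by
    have := hb1 j
    rw [h] at this
    exact absurd this (by simp)
  set κ : ℝ≥0∞ := s i1 / b i1 with hκ
  have hκb : κ * b i1 = s i1 := ENNReal.div_mul_cancel (hb0 i1) (hbt i1)
  have hsj : ∀ j, s j ≤ κ * b j := by
    intro j
    have h2 : s j / b j ≤ κ := h1 j (Finset.mem_univ j)
    calc s j = s j / b j * b j := (ENNReal.div_mul_cancel (hb0 j) (hbt j)).symm
      _ ≤ κ * b j := mul_le_mul_left h2 _
  have h3 : s i1 ≤ c + κ * ∑ j, a i1 j * b j := by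
    refine (hs i1).trans ?_
    gcongr
    rw [Finset.mul_sum]
    refine Finset.sum_le_sum fun j _ => ?_
    calc a i1 j * s j ≤ a i1 j * (κ * b j) := by gcongr; exact hsj j
      _ = κ * (a i1 j * b j) := by ring
  have h4 : κ * b i1 + κ * (δ * b i1) ≤ κ * b i1 + c := by
    calc κ * b i1 + κ * (δ * b i1) = s i1 + κ * (δ * b i1) := by rw [hκb]
      _ ≤ (c + κ * ∑ j, a i1 j * b j) + κ * (δ * b i1) := by gcongr
      _ = κ * (∑ j, a i1 j * b j + δ * b i1) + c := by ring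
      _ ≤ κ * b i1 + c := by gcongr; exact ha i1
  have hfin : κ * b i1 ≠ ⊤ := by rw [hκb]; exact hst i1
  have h5 : κ * (δ * b i1) ≤ c := (ENNReal.add_le_add_iff_left hfin).1 h4
  calc δ * s i ≤ δ * (κ * b i) := by gcongr; exact hsj i
    _ ≤ δ * (κ * (A * b i1)) := by gcongr; exact hA i i1
    _ = A * (κ * (δ * b i1)) := by ring
    _ ≤ A * c := by gcongr

end Pool.Agent.SWH
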