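import Pool.Agent.SWH.Defs

/-!
# SWH module Nea: almost invariant vectors

PROOF.  Let `n = F.card ≥ 1` and `0 < ε' ≤ 1/8` small.  `n - ε' < nrF F`, so there are `A, B, u, v` with `∑_A u^2 ≤ 1`, `∑_B v^2 ≤ 1` and
`∑_{a ∈ A} ∑_{b ∈ B} u a * 1[a⁻¹ b ∈ F] * v b > n - ε'` (all values finite).  Extend `u, v` by zero outside `A, B` and regard them as real
functions.  The double sum is `∑_{g ∈ F} ∑_a u a * v (a * g)` (finite sums; `b = a * g`).  For each `g`
`∑_a u a * v (a g) ≤ (∑ u^2 + ∑ v^2) / 2 ≤ 1`, so each of these `n` numbers is `> 1 - ε'`, and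
`∑_a (u a - v (a g))^2 = ∑ u^2 + ∑ v^2 - 2 ∑_a u a * v (a g) ≤ 2 ε'`.  Hence for `g, g' ∈ F`
`∑_a (v (a g) - v (a g'))^2 ≤ 2 (2 ε') + 2 (2 ε') = 8 ε'` (`(x - y)^2 ≤ 2 (x - w)^2 + 2 (w - y)^2`).  And
`1 - ε' < ∑ u a v (a g) ≤ (∑ u^2 + ∑ v^2)/2 ≤ (1 + ∑ v^2) / 2` gives `∑ v^2 ≥ 1 - 2 ε' ≥ 1/2`.  Take `ε' = min (ε/8) (1/8)`.
-/

set_option autoImplicit false

open scoped ENNReal NNReal Classical
open Filter Topology

namespace Pool.Agent.SWH

private theorem near_sum_le {Γ : Type} [Group Γ] (B : Finset Γ) (v : Γ → ℝ) (g : Γ) (T : Finset Γ)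
    (hv0 : ∀ a, a ∉ B → v a = 0) : ∑ a ∈ T, v (a * g) ^ 2 ≤ ∑ b ∈ B, v b ^ 2 := by
  have h1 : ∑ a ∈ T, v (a * g) ^ 2 = ∑ x ∈ T.image (fun a => a * g), v x ^ 2 := by
    rw [Finset.sum_image]
    intro a _ b _ h
    exact mul_right_cancel h
  rw [h1]
  have h2 : ∑ x ∈ T.image (fun a => a * g), v x ^ 2 ≤ ∑ x ∈ T.image (fun a => a * g) ∪ B, v x ^ 2 :=
    Finset.sum_le_sum_of_subset_of_nonneg Finset.subset_union_left (fun _ _ _ => sq_nonneg _)
  have h3 : ∑ x ∈ T.image (fun a => a * g) ∪ B, v x ^ 2 = ∑ x ∈ B, v x ^ 2 := by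
    symm
    apply Finset.sum_subset Finset.subset_union_right
    intro x _ hx
    rw [hv0 x hx]
    norm_num
  linarith

/-- The real version: finitely supported `U`, `v` on finite sets with almost maximal pairing. -/
private theorem near_real {Γ : Type} [Group Γ] (F : Finset Γ) (hF : F.Nonempty) (A B : Finset Γ) (U v : Γ → ℝ)
    (hU0 : ∀ a, a ∉ A → U a = 0) (hv0 : ∀ a, a ∉ B → v a = 0)
    (hU : ∑ a ∈ A, U a ^ 2 ≤ 1) (hv : ∑ b ∈ B, v b ^ 2 ≤ 1) (e : ℝ) (he0 : 0 < e) (he1 : e ≤ 1 / 8)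
    (hS : (F.card : ℝ) - e < ∑ g ∈ F, ∑ a ∈ A, U a * v (a * g)) :
    1 / 2 ≤ ∑ b ∈ B, v b ^ 2 ∧ ∀ T : Finset Γ, A ⊆ T → ∀ g ∈ F, ∀ g' ∈ F,
      ∑ a ∈ T, (v (a * g) - v (a * g')) ^ 2 ≤ 8 * e := by
  have hle : ∀ g, ∀ T : Finset Γ, ∑ a ∈ T, v (a * g) ^ 2 ≤ 1 := fun g T =>
    (near_sum_le B v g T hv0).trans hv
  have hI1 : ∀ g, ∑ a ∈ A, U a * v (a * g) ≤ (∑ a ∈ A, U a ^ 2 + ∑ a ∈ A, v (a * g) ^ 2) / 2 := by
    intro g
    rw [← Finset.sum_add_distrib, Finset.sum_div]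
    apply Finset.sum_le_sum
    intro a _
    nlinarith [sq_nonneg (U a - v (a * g))]
  have hI1' : ∀ g, ∑ a ∈ A, U a * v (a * g) ≤ 1 := by
    intro g
    have := hI1 g
    have := hle g A
    linarith
  have hI2 : ∀ g ∈ F, 1 - e < ∑ a ∈ A, U a * v (a * g) := by
    intro g hg
    have h1 := Finset.add_sum_erase F (fun g => ∑ a ∈ A, U a * v (a * g)) hg
    have h2 : ∑ x ∈ F.erase g, ∑ a ∈ A, U a * v (a * x) ≤ ∑ x ∈ F.erase g, (1 : ℝ) :=
      Finset.sum_le_sum (fun x _ => hI1' x)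
    rw [Finset.sum_const, Finset.card_erase_of_mem hg, nsmul_eq_mul, mul_one] at h2
    have hc : 1 ≤ F.card := Finset.card_pos.mpr hF
    rw [Nat.cast_sub hc, Nat.cast_one] at h2
    linarith
  constructor
  · obtain ⟨g, hg⟩ := hF
    have h1 := hI2 g hg
    have h2 := hI1 g
    have h3 := near_sum_le B v g A hv0
    linarith
  · intro T hT g hg g' hg'
    have key : ∀ h ∈ F, ∑ a ∈ T, (U a - v (a * h)) ^ 2 ≤ 2 * e := by
      intro h hh
      have h1 : ∑ a ∈ T, (U a - v (a * h)) ^ 2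
          = ∑ a ∈ T, U a ^ 2 + ∑ a ∈ T, v (a * h) ^ 2 - 2 * ∑ a ∈ T, U a * v (a * h) := by
        rw [Finset.mul_sum, ← Finset.sum_add_distrib, ← Finset.sum_sub_distrib]
        apply Finset.sum_congr rfl
        intro a _
        ring
      have h2 : ∑ a ∈ T, U a ^ 2 = ∑ a ∈ A, U a ^ 2 := by
        symm
        apply Finset.sum_subset hT
        intro a _ ha
        rw [hU0 a ha]
        norm_num
      have h3 : ∑ a ∈ T, U a * v (a * h) = ∑ a ∈ A, U a * v (a * h) := by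
        symm
        apply Finset.sum_subset hT
        intro a _ ha
        rw [hU0 a ha]
        ring
      have h4 := hI2 h hh
      have h5 := hle h T
      rw [h1, h2, h3]
      linarith
    have h1 : ∑ a ∈ T, (v (a * g) - v (a * g')) ^ 2
        ≤ ∑ a ∈ T, (2 * (U a - v (a * g)) ^ 2 + 2 * (U a - v (a * g')) ^ 2) := by
      apply Finset.sum_le_sum
      intro a _
      nlinarith [sq_nonneg ((U a - v (a * g)) + (U a - v (a * g')))]
    rw [Finset.sum_add_distrib, ← Finset.mul_sum, ← Finset.mul_sum] at h1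
    have h2 := key g hg
    have h3 := key g' hg'
    linarith

theorem near {Γ : Type} [Group Γ] (F : Finset Γ) (hF : F.Nonempty) (hn : (F.card : ℝ≥0∞) ≤ nrF F)
    (ε : ℝ) (hε : 0 < ε) :
    ∃ v : Γ → ℝ, v.support.Finite ∧ 1 / 2 ≤ ∑' a, ENNReal.ofReal (v a ^ 2) ∧ ∑' a, ENNReal.ofReal (v a ^ 2) ≤ 1 ∧
      ∀ g ∈ F, ∀ g' ∈ F, ∑' a, ENNReal.ofReal ((v (a * g) - v (a * g')) ^ 2) ≤ ENNReal.ofReal ε := by
  obtain ⟨e, he0, he1, he2⟩ : ∃ e : ℝ, 0 < e ∧ e ≤ 1 / 8 ∧ 8 * e ≤ ε :=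
    ⟨min (ε / 8) (1 / 8), lt_min (by linarith) (by norm_num), min_le_right _ _, by
      have := min_le_left (ε / 8) (1 / 8)
      linarith⟩
  have hc : 1 ≤ F.card := Finset.card_pos.mpr hF
  have hc' : (1 : ℝ) ≤ F.card := by exact_mod_cast hc
  have h1 : ENNReal.ofReal ((F.card : ℝ) - e) < nrF F := by
    refine lt_of_lt_of_le ?_ hn
    rw [show (F.card : ℝ≥0∞) = ENNReal.ofReal (F.card : ℝ) by rw [ENNReal.ofReal_natCast]]
    exact (ENNReal.ofReal_lt_ofReal_iff (by linarith)).mpr (by linarith)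
  unfold nrF nrm at h1
  simp only [lt_iSup_iff] at h1
  obtain ⟨A, B, u, v, hu, hv, h2⟩ := h1
  set U : Γ → ℝ := fun a => if a ∈ A then (u a : ℝ) else 0 with hUdef
  set W : Γ → ℝ := fun a => if a ∈ B then (v a : ℝ) else 0 with hWdef
  have hU0 : ∀ a, a ∉ A → U a = 0 := fun a ha => by simp [hUdef, ha]
  have hW0 : ∀ a, a ∉ B → W a = 0 := fun a ha => by simp [hWdef, ha]
  have hU1 : ∑ a ∈ A, U a ^ 2 ≤ 1 := by
    have h3 : ∑ a ∈ A, U a ^ 2 = ((∑ a ∈ A, u a ^ 2 : ℝ≥0) : ℝ) := by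
      push_cast
      apply Finset.sum_congr rfl
      intro a ha
      simp [hUdef, ha]
    rw [h3]
    exact_mod_cast hu
  have hW1 : ∑ b ∈ B, W b ^ 2 ≤ 1 := by
    have h3 : ∑ a ∈ B, W a ^ 2 = ((∑ a ∈ B, v a ^ 2 : ℝ≥0) : ℝ) := by
      push_cast
      apply Finset.sum_congr rfl
      intro a ha
      simp [hWdef, ha]
    rw [h3]
    exact_mod_cast hv
  have hS : (F.card : ℝ) - e < ∑ g ∈ F, ∑ a ∈ A, U a * W (a * g) := by
    have h3 : (∑ a ∈ A, ∑ b ∈ B, (u a : ℝ≥0∞) * (if a⁻¹ * b ∈ F then 1 else 0) * (v b : ℝ≥0∞))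
        = ENNReal.ofReal (∑ a ∈ A, ∑ b ∈ B, (u a : ℝ) * (if a⁻¹ * b ∈ F then 1 else 0) * (v b : ℝ)) := by
      rw [ENNReal.ofReal_sum_of_nonneg]
      · apply Finset.sum_congr rfl
        intro a _
        rw [ENNReal.ofReal_sum_of_nonneg]
        · apply Finset.sum_congr rfl
          intro b _
          split_ifs
          · rw [mul_one, mul_one, ENNReal.ofReal_mul NNReal.zero_le_coe, ENNReal.ofReal_coe_nnreal,
              ENNReal.ofReal_coe_nnreal]
          · simp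
        · intro b _
          split_ifs
          · exact mul_nonneg (mul_nonneg (u a).2 zero_le_one) (v b).2
          · simp
      · intro a _
        apply Finset.sum_nonneg
        intro b _
        split_ifs
        · exact mul_nonneg (mul_nonneg (u a).2 zero_le_one) (v b).2
        · simp
    rw [h3] at h2
    have h4 := (ENNReal.ofReal_lt_ofReal_iff_of_nonneg (by linarith)).mp h2
    refine lt_of_lt_of_eq h4 ?_
    rw [Finset.sum_comm (s := F)]
    apply Finset.sum_congr rfl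
    intro a ha
    have h5 : ∀ g ∈ F, U a * W (a * g) = ∑ b ∈ B, if g = a⁻¹ * b then (u a : ℝ) * (v b : ℝ) else 0 := by
      intro g _
      have h6 : ∀ b ∈ B, (if g = a⁻¹ * b then (u a : ℝ) * (v b : ℝ) else 0)
          = if a * g = b then (u a : ℝ) * (v b : ℝ) else 0 := by
        intro b _
        have : g = a⁻¹ * b ↔ a * g = b := by
          constructor
          · rintro rfl
            rw [mul_inv_cancel_left]
          · rintro rfl
            rw [inv_mul_cancel_left]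
        simp only [this]
      rw [Finset.sum_congr rfl h6, Finset.sum_ite_eq]
      by_cases hb : a * g ∈ B
      · simp [hUdef, hWdef, ha, hb]
      · simp [hUdef, hWdef, ha, hb]
    rw [Finset.sum_congr rfl h5, Finset.sum_comm]
    apply Finset.sum_congr rfl
    intro b _
    rw [Finset.sum_ite_eq']
    split_ifs
    · ring
    · ring
  obtain ⟨h5, h6⟩ := near_real F hF A B U W hU0 hW0 hU1 hW1 e he0 he1 hS
  have ht : ∑' a, ENNReal.ofReal (W a ^ 2) = ENNReal.ofReal (∑ b ∈ B, W b ^ 2) := by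
    rw [ENNReal.ofReal_sum_of_nonneg (fun _ _ => sq_nonneg _)]
    apply tsum_eq_sum
    intro a ha
    rw [hW0 a ha]
    simp
  refine ⟨W, ?_, ?_, ?_, ?_⟩
  · apply (B.finite_toSet).subset
    intro a ha
    by_contra hb
    exact ha (hW0 a (by simpa using hb))
  · rw [ht]
    have h7 : ENNReal.ofReal (1 / 2) ≤ ENNReal.ofReal (∑ b ∈ B, W b ^ 2) := ENNReal.ofReal_le_ofReal h5
    refine le_trans (le_of_eq ?_) h7
    rw [ENNReal.ofReal_div_of_pos (by norm_num)]
    simp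
  · rw [ht]
    have h7 : ENNReal.ofReal (∑ b ∈ B, W b ^ 2) ≤ ENNReal.ofReal 1 := ENNReal.ofReal_le_ofReal hW1
    simpa using h7
  · intro g hg g' hg'
    set T : Finset Γ := A ∪ (B.image (fun b => b * g⁻¹) ∪ B.image (fun b => b * g'⁻¹)) with hT
    have hout : ∀ a, a ∉ T → W (a * g) = 0 ∧ W (a * g') = 0 := by
      intro a ha
      constructor
      · apply hW0
        intro hb
        apply ha
        rw [hT]
        apply Finset.mem_union_right
        apply Finset.mem_union_left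
        rw [Finset.mem_image]
        exact ⟨a * g, hb, by group⟩
      · apply hW0
        intro hb
        apply ha
        rw [hT]
        apply Finset.mem_union_right
        apply Finset.mem_union_right
        rw [Finset.mem_image]
        exact ⟨a * g', hb, by group⟩
    rw [tsum_eq_sum (s := T)]
    · rw [← ENNReal.ofReal_sum_of_nonneg (fun _ _ => sq_nonneg _)]
      apply ENNReal.ofReal_le_ofReal
      exact (h6 T Finset.subset_union_left g hg g' hg').trans he2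
    · intro a ha
      obtain ⟨h8, h9⟩ := hout a ha
      rw [h8, h9]
      simp

end Pool.Agent.SWH
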