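import Pool.Agent.SWH.Defs

/-!
# SWH module Nrm: properties of the convolution norm

PROOF.  Everything is a computation with the finite sums in the definition of `nrm`.
`le_nrm`: `A = {1}`, `B = {g}`, `u = v = 1`.
`nrm_le_tsum`: in `ENNReal` (or for finite values) `u v ≤ (u^2 + v^2) / 2`, so the double sum is at most
`(1/2) ∑_a u a^2 ∑_b k (a⁻¹ b) + (1/2) ∑_b v b^2 ∑_a k (a⁻¹ b)`, and both inner sums are at most `∑' g, k g`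
(injectivity of `b ↦ a⁻¹ b` and of `a ↦ a⁻¹ b`; `ENNReal.sum_le_tsum` and `Equiv.tsum_eq`).
`nrm_tsum`: exchange the finite sums with the `tsum` (`ENNReal.tsum_add`, `ENNReal.tsum_mul_left`, ...) and bound each
term by the norm.  `nrm_add`, `nrm_smul`, `nrm_mono` similar (`ENNReal.mul_iSup`).
`nrm_inv`: exchange `(A, u)` and `(B, v)`; `(a⁻¹ * b)⁻¹ = b⁻¹ * a`.
-/

set_option autoImplicit false

open scoped ENNReal NNReal Classical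
open Filter Topology

namespace Pool.Agent.SWH

variable {Γ : Type} [Group Γ]

/-- each test sum is at most the norm -/
theorem nrmX_test (k : Γ → ℝ≥0∞) (A B : Finset Γ) (u v : Γ → ℝ≥0) (hu : ∑ a ∈ A, u a ^ 2 ≤ 1)
    (hv : ∑ b ∈ B, v b ^ 2 ≤ 1) :
    ∑ a ∈ A, ∑ b ∈ B, (u a : ℝ≥0∞) * k (a⁻¹ * b) * (v b : ℝ≥0∞) ≤ nrm k := by
  unfold nrm
  exact le_iSup_of_le A (le_iSup_of_le B (le_iSup_of_le u (le_iSup_of_le v
    (le_iSup_of_le hu (le_iSup_of_le hv le_rfl)))))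

theorem nrmX_le {k : Γ → ℝ≥0∞} {c : ℝ≥0∞}
    (h : ∀ (A B : Finset Γ) (u v : Γ → ℝ≥0), ∑ a ∈ A, u a ^ 2 ≤ 1 → ∑ b ∈ B, v b ^ 2 ≤ 1 →
      ∑ a ∈ A, ∑ b ∈ B, (u a : ℝ≥0∞) * k (a⁻¹ * b) * (v b : ℝ≥0∞) ≤ c) : nrm k ≤ c := by
  unfold nrm
  exact iSup_le fun A => iSup_le fun B => iSup_le fun u => iSup_le fun v =>
    iSup_le fun hu => iSup_le fun hv => h A B u v hu hv

theorem nrm_mono {k l : Γ → ℝ≥0∞} (h : ∀ g, k g ≤ l g) : nrm k ≤ nrm l := by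
  refine nrmX_le fun A B u v hu hv => le_trans ?_ (nrmX_test l A B u v hu hv)
  gcongr
  exact h _

theorem le_nrm (k : Γ → ℝ≥0∞) (g : Γ) : k g ≤ nrm k := by
  have h := nrmX_test k {1} {g} (fun _ => 1) (fun _ => 1) (by simp) (by simp)
  simpa using h

theorem nrm_le_tsum (k : Γ → ℝ≥0∞) : nrm k ≤ ∑' g, k g := by
  refine nrmX_le fun A B u v hu hv => ?_
  set T := ∑' g, k g with hT
  have h1 : ∀ a : Γ, ∑ b ∈ B, k (a⁻¹ * b) ≤ T := by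
    intro a
    refine (ENNReal.sum_le_tsum B).trans (le_of_eq ?_)
    exact (Equiv.mulLeft a⁻¹).tsum_eq k
  have h2 : ∀ b : Γ, ∑ a ∈ A, k (a⁻¹ * b) ≤ T := by
    intro b
    refine (ENNReal.sum_le_tsum A).trans (le_of_eq ?_)
    exact ((Equiv.inv Γ).trans (Equiv.mulRight b)).tsum_eq k
  have hu' : ∑ a ∈ A, (u a : ℝ≥0∞) ^ 2 ≤ 1 := by exact_mod_cast hu
  have hv' : ∑ b ∈ B, (v b : ℝ≥0∞) ^ 2 ≤ 1 := by exact_mod_cast hv
  have h3 : ∀ a b : Γ, 2 * ((u a : ℝ≥0∞) * k (a⁻¹ * b) * (v b : ℝ≥0∞)) ≤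
      (u a : ℝ≥0∞) ^ 2 * k (a⁻¹ * b) + (v b : ℝ≥0∞) ^ 2 * k (a⁻¹ * b) := by
    intro a b
    have h4 : 2 * ((u a : ℝ≥0∞) * (v b : ℝ≥0∞)) ≤ (u a : ℝ≥0∞) ^ 2 + (v b : ℝ≥0∞) ^ 2 := by
      have h5 : 2 * (u a * v b) ≤ u a ^ 2 + v b ^ 2 := by
        have h6 := two_mul_le_add_sq (u a : ℝ) (v b : ℝ)
        rw [← NNReal.coe_le_coe]
        push_cast
        linarith
      exact_mod_cast h5
    calc 2 * ((u a : ℝ≥0∞) * k (a⁻¹ * b) * (v b : ℝ≥0∞))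
        = (2 * ((u a : ℝ≥0∞) * (v b : ℝ≥0∞))) * k (a⁻¹ * b) := by ring
      _ ≤ ((u a : ℝ≥0∞) ^ 2 + (v b : ℝ≥0∞) ^ 2) * k (a⁻¹ * b) := by gcongr
      _ = _ := by ring
  have h4 : 2 * ∑ a ∈ A, ∑ b ∈ B, (u a : ℝ≥0∞) * k (a⁻¹ * b) * (v b : ℝ≥0∞) ≤ 2 * T := by
    calc 2 * ∑ a ∈ A, ∑ b ∈ B, (u a : ℝ≥0∞) * k (a⁻¹ * b) * (v b : ℝ≥0∞)
        = ∑ a ∈ A, ∑ b ∈ B, 2 * ((u a : ℝ≥0∞) * k (a⁻¹ * b) * (v b : ℝ≥0∞)) := by
          simp_rw [Finset.mul_sum]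
      _ ≤ ∑ a ∈ A, ∑ b ∈ B, ((u a : ℝ≥0∞) ^ 2 * k (a⁻¹ * b) + (v b : ℝ≥0∞) ^ 2 * k (a⁻¹ * b)) := by
          gcongr with a _ b _
          exact h3 a b
      _ = (∑ a ∈ A, (u a : ℝ≥0∞) ^ 2 * ∑ b ∈ B, k (a⁻¹ * b)) +
            ∑ b ∈ B, (v b : ℝ≥0∞) ^ 2 * ∑ a ∈ A, k (a⁻¹ * b) := by
          simp_rw [Finset.sum_add_distrib, Finset.mul_sum]
          congr 1
          exact Finset.sum_comm
      _ ≤ (∑ a ∈ A, (u a : ℝ≥0∞) ^ 2 * T) + ∑ b ∈ B, (v b : ℝ≥0∞) ^ 2 * T := by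
          gcongr with a _ b _
          · exact h1 a
          · exact h2 b
      _ = (∑ a ∈ A, (u a : ℝ≥0∞) ^ 2) * T + (∑ b ∈ B, (v b : ℝ≥0∞) ^ 2) * T := by
          rw [Finset.sum_mul, Finset.sum_mul]
      _ ≤ 1 * T + 1 * T := by gcongr
      _ = 2 * T := by ring
  exact (ENNReal.mul_le_mul_iff_right (by norm_num) (by norm_num)).1 h4

theorem nrm_tsum {ι : Type} (k : ι → Γ → ℝ≥0∞) : nrm (fun g => ∑' t, k t g) ≤ ∑' t, nrm (k t) := by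
  refine nrmX_le fun A B u v hu hv => ?_
  have h1 : ∑ a ∈ A, ∑ b ∈ B, (u a : ℝ≥0∞) * (∑' t, k t (a⁻¹ * b)) * (v b : ℝ≥0∞) =
      ∑' t, ∑ a ∈ A, ∑ b ∈ B, (u a : ℝ≥0∞) * k t (a⁻¹ * b) * (v b : ℝ≥0∞) := by
    rw [Summable.tsum_finsetSum (fun _ _ => ENNReal.summable)]
    refine Finset.sum_congr rfl fun a _ => ?_
    rw [Summable.tsum_finsetSum (fun _ _ => ENNReal.summable)]
    refine Finset.sum_congr rfl fun b _ => ?_
    rw [ENNReal.tsum_mul_right, ENNReal.tsum_mul_left]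
  rw [h1]
  exact ENNReal.tsum_le_tsum fun t => nrmX_test (k t) A B u v hu hv

theorem nrm_add (k l : Γ → ℝ≥0∞) : nrm (fun g => k g + l g) ≤ nrm k + nrm l := by
  have h := nrm_tsum (Γ := Γ) (fun t : Bool => if t then l else k)
  rw [tsum_bool] at h
  simp only [Bool.false_eq_true, if_false, if_true] at h
  refine le_trans (le_of_eq ?_) h
  congr 1
  funext g
  rw [tsum_bool]
  simp

theorem nrm_smul (c : ℝ≥0∞) (k : Γ → ℝ≥0∞) : nrm (fun g => c * k g) = c * nrm k := by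
  unfold nrm
  simp_rw [ENNReal.mul_iSup]
  refine iSup_congr fun A => iSup_congr fun B => iSup_congr fun u => iSup_congr fun v =>
    iSup_congr fun hu => iSup_congr fun hv => ?_
  rw [Finset.mul_sum]
  refine Finset.sum_congr rfl fun a _ => ?_
  rw [Finset.mul_sum]
  refine Finset.sum_congr rfl fun b _ => ?_
  ring

theorem nrmX_inv_le (k : Γ → ℝ≥0∞) : nrm (fun g => k g⁻¹) ≤ nrm k := by
  refine nrmX_le fun A B u v hu hv => ?_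
  refine le_trans (le_of_eq ?_) (nrmX_test k B A v u hv hu)
  rw [Finset.sum_comm]
  refine Finset.sum_congr rfl fun b _ => Finset.sum_congr rfl fun a _ => ?_
  rw [mul_inv_rev, inv_inv]
  ring

theorem nrm_inv (k : Γ → ℝ≥0∞) : nrm (fun g => k g⁻¹) = nrm k := by
  apply le_antisymm (nrmX_inv_le k)
  have h := nrmX_inv_le (fun g => k g⁻¹)
  simpa using h

end Pool.Agent.SWH
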