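import Pool.Agent.SWH.Stc
import Pool.Agent.SWH.Sld

/-!
# SWH module Skk: strict inequality for the generating functions

PROOF.  Let `L` and `F i` be as in `stc`.  For `g ∈ F i` let `l g` be a bridge from `(1, i)` to `(g, i)` of span `L`; it is in `Cl L` (`Cl_of_Br`).
Let `n` be an upper bound of the lengths and `η = z0 ^ n` (`0 < η ≤ 1`).  Then for `z0 ≤ z ≤ 1` and `g ∈ F i`:
`wt z (sl h (Cl L) L) (1, i) (g, i) ≥ z ^ (l g).length ≥ η` (`le_wt`).  So with `k g = blk (wt z (sl h (Cl L) L)) i i g`,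
`k = k' + η 1_F` (`k' g = k g - η 1_F g`), `nrm k ≤ nrm k' + η nrF F ≤ ∑' g, k' g + η nrF F`, and
`∑' g, k g = ∑' g, k' g + η card F`.  As `nrF F < card F`: `nrm k + η (card F - nrF F) ≤ ∑' g, k g`.
For the other spans `T ≠ L`: `nrm_blk_le`.  Add: `∑' T, nrm (blk (wt z (sl h (Cl L) T)) i i) + δ ≤ ∑' T, ∑' g, wt z (sl h (Cl L) T) (1, i) (g, i) =
∑' g, wt z (Cl L) (1, i) (g, i)` (`cl_eq`, `ENNReal.tsum_comm`) with `δ = min_i η (card (F i) - nrF (F i)) > 0`.
-/

set_option autoImplicit false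

open scoped ENNReal NNReal Classical
open Filter Topology

namespace Pool.Agent.SWH

variable {Γ I : Type} [Group Γ] [Fintype I] {G : SimpleGraph (Γ × I)} {h : Γ × I → ℤ} {m : ℕ} {θ : ℝ}

private theorem Skk_one (L : ℕ) (i : I) (F : Finset Γ)
    (hF : ∀ g ∈ F, U G h (1, i) (g, i) ∧ h (g, i) = h (1, i) + L) (hn : nrF F < F.card)
    (z0 : ℝ≥0∞) (h0 : z0 ≠ 0) : ∃ δ : ℝ≥0∞, δ ≠ 0 ∧
    ∀ z, z0 ≤ z → z ≤ 1 →
      ∑' T : ℕ, nrm (blk (wt z (sl h (Cl G h L) T)) i i) + δ ≤ ∑' g : Γ, wt z (Cl G h L) (1, i) (g, i) := by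
  have h1 : ∀ g : Γ, ∃ l : List (Γ × I), g ∈ F → (Br G h (1, i) l ∧ endp (1, i) l = (g, i)) := by
    intro g
    by_cases hg : g ∈ F
    · obtain ⟨l, hl⟩ := (hF g hg).1
      exact ⟨l, fun _ => hl⟩
    · exact ⟨[], fun h => absurd h hg⟩
  choose l hl using h1
  obtain ⟨n, hnl⟩ : ∃ n : ℕ, ∀ g ∈ F, (l g).length ≤ n :=
    ⟨F.sup (fun g => (l g).length), fun g hg => Finset.le_sup (f := fun g => (l g).length) hg⟩
  set η : ℝ≥0∞ := z0 ^ n with hη
  have hη0 : η ≠ 0 := pow_ne_zero n h0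
  refine ⟨η * (F.card - nrF F), mul_ne_zero hη0 (tsub_pos_of_lt hn).ne', ?_⟩
  intro z hz hz1
  have hk : ∀ g ∈ F, η ≤ blk (wt z (sl h (Cl G h L) L)) i i g := by
    intro g hg
    obtain ⟨h2, h3⟩ := hl g hg
    have h4 : sp h (1, i) (l g) = (L : ℤ) := by
      unfold sp
      rw [h3, (hF g hg).2]
      ring
    have h5 : sl h (Cl G h L) L (1, i) (l g) := ⟨Cl_of_Br h2 h4, h4⟩
    calc η ≤ z ^ n := pow_le_pow_left₀ zero_le hz n
      _ ≤ z ^ (l g).length := pow_le_pow_of_le_one zero_le hz1 (hnl g hg)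
      _ ≤ _ := le_wt h5 h3 z
  have hfT : ∀ T : ℕ, nrm (blk (wt z (sl h (Cl G h L) T)) i i) + (if T = L then η * (F.card - nrF F) else 0) ≤
      ∑' g : Γ, wt z (sl h (Cl G h L) T) (1, i) (g, i) := by
    intro T
    by_cases hT : T = L
    · subst hT
      rw [if_pos rfl]
      set k := blk (wt z (sl h (Cl G h T) T)) i i with hkd
      have hk1 : ∀ g, k g = (k g - (if g ∈ F then η else 0)) + (if g ∈ F then η else 0) := by
        intro g
        rw [tsub_add_cancel_of_le]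
        by_cases hg : g ∈ F
        · rw [if_pos hg]; exact hk g hg
        · rw [if_neg hg]; exact zero_le
      have hk2 : nrm k ≤ nrm (fun g => k g - (if g ∈ F then η else 0)) + η * nrF F := by
        have h6 : nrm (fun g : Γ => if g ∈ F then η else 0) = η * nrF F := by
          unfold nrF
          rw [← nrm_smul]
          congr 1
          funext g
          by_cases hg : g ∈ F <;> simp [hg]
        rw [← h6]
        refine le_trans (le_of_eq ?_) (nrm_add _ _)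
        congr 1
        funext g
        exact hk1 g
      have hk3 : ∑' g, k g = ∑' g, (k g - (if g ∈ F then η else 0)) + η * F.card := by
        have h7 : ∑' g : Γ, (if g ∈ F then η else 0) = η * F.card := by
          rw [tsum_eq_sum (s := F)]
          · rw [Finset.sum_congr rfl (fun g hg => if_pos hg), Finset.sum_const, nsmul_eq_mul, mul_comm]
          · intro g hg
            exact if_neg hg
        rw [← h7, ← ENNReal.tsum_add]
        exact tsum_congr hk1
      calc nrm k + η * (F.card - nrF F)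
          ≤ nrm (fun g => k g - (if g ∈ F then η else 0)) + η * nrF F + η * (F.card - nrF F) := by
            gcongr
        _ = nrm (fun g => k g - (if g ∈ F then η else 0)) + η * (nrF F + (F.card - nrF F)) := by ring
        _ = nrm (fun g => k g - (if g ∈ F then η else 0)) + η * F.card := by
            rw [add_tsub_cancel_of_le hn.le]
        _ ≤ ∑' g, (k g - (if g ∈ F then η else 0)) + η * F.card := by
            gcongr
            exact nrm_le_tsum _
        _ = ∑' g, k g := hk3.symm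
        _ = ∑' g : Γ, wt z (sl h (Cl G h T) T) (1, i) (g, i) := rfl
    · rw [if_neg hT, add_zero]
      exact nrm_blk_le _ i i
  calc ∑' T : ℕ, nrm (blk (wt z (sl h (Cl G h L) T)) i i) + η * (F.card - nrF F)
      = ∑' T : ℕ, (nrm (blk (wt z (sl h (Cl G h L) T)) i i) + (if T = L then η * (F.card - nrF F) else 0)) := by
        rw [ENNReal.tsum_add, tsum_ite_eq]
    _ ≤ ∑' T : ℕ, ∑' g : Γ, wt z (sl h (Cl G h L) T) (1, i) (g, i) := ENNReal.tsum_le_tsum hfT
    _ = ∑' g : Γ, ∑' T : ℕ, wt z (sl h (Cl G h L) T) (1, i) (g, i) := ENNReal.tsum_comm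
    _ = ∑' g : Γ, wt z (Cl G h L) (1, i) (g, i) := tsum_congr fun g => (cl_eq L z (1, i) (g, i)).symm

theorem skk (H : Hyp G h m θ) (z0 : ℝ≥0∞) (h0 : z0 ≠ 0) (h01 : z0 ≤ 1) : ∃ (L : ℕ) (δ : ℝ≥0∞), 1 ≤ L ∧ δ ≠ 0 ∧
    ∀ z, z0 ≤ z → z ≤ 1 → ∀ i : I,
      ∑' T : ℕ, nrm (blk (wt z (sl h (Cl G h L) T)) i i) + δ ≤ ∑' g : Γ, wt z (Cl G h L) (1, i) (g, i) := by
  obtain ⟨L, hL, hF⟩ := stc H
  choose F hF1 hF2 using hF
  have h1 := fun i => Skk_one L i (F i) (hF1 i) (hF2 i) z0 h0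
  choose δ hδ hδ2 using h1
  refine ⟨L, Finset.univ.inf δ, hL, ?_, ?_⟩
  · apply ne_of_gt
    rw [Finset.lt_inf_iff (by exact ENNReal.zero_lt_top)]
    intro i _
    exact pos_iff_ne_zero.2 (hδ i)
  · intro z hz hz1 i
    refine le_trans ?_ (hδ2 i z hz hz1)
    gcongr
    exact Finset.inf_le (Finset.mem_univ i)

end Pool.Agent.SWH
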