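import Pool.Agent.SWH.Defs
import Pool.Agent.SAWL.CHE

/-!
# SWH module Spc: the spectral gap from the Cheeger constant

PROOF.  Let `d` be the common degree (`G.degree v = d`; use `hfin` to get `G.LocallyFinite`, as in `Pool/Agent/SAWL/MAINC.lean`), `c > 0` the constant
of `hche`; we may assume `c ≤ d`.  `SAWL.cheeger` (module CHE): for `f` supported on the finite set `S`,
`(∑_{x∈S} f x ∑_{y ~ x} f y)^2 ≤ (d^2 - c^2) (∑ f^2)^2`, so `q := ∑_{x∈S} f x ∑_{y ~ x} f y ≤ √(d^2 - c^2) ∑ f^2`.  With `T = S ∪` neighbours of `S`: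
`∑_x ∑_{y ~ x} (f x - f y)^2 = 2 d ∑ f^2 - 2 q ≥ 2 (d - √(d^2 - c^2)) ∑ f^2`.  `θ = 2 (d - √(d^2 - c^2)) > 0` (`d > 0` because `c ≤ d`...: `bdry {v} ≤ d`, so
`c ≤ d`).  The `tsum`s are finite sums over `T` (terms vanish outside `T × T`).
-/

set_option autoImplicit false

open scoped ENNReal NNReal Classical
open Filter Topology

namespace Pool.Agent.SWH

private theorem spc_form {V : Type} (G : SimpleGraph V) [G.LocallyFinite] (d : ℕ)
    (hd : ∀ v, G.degree v = d) (f : V → ℝ) (S T : Finset V) (hST : S ⊆ T)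
    (hNT : ∀ x ∈ S, ∀ y, G.Adj x y → y ∈ T) (hf : ∀ x, x ∉ S → f x = 0) :
    ∑ x ∈ T, ∑ y ∈ T, (if G.Adj x y then (f x - f y) ^ 2 else 0)
      = 2 * (d * ∑ x ∈ S, f x ^ 2) - 2 * ∑ x ∈ S, f x * ∑ y ∈ G.neighborFinset x, f y := by
  have key : ∀ x ∈ S, T.filter (fun y => G.Adj x y) = G.neighborFinset x := by
    intro x hx
    ext y
    rw [Finset.mem_filter, SimpleGraph.mem_neighborFinset]
    exact ⟨fun h => h.2, fun h => ⟨hNT x hx y h, h⟩⟩
  have h1 : ∑ x ∈ T, ∑ y ∈ T, (if G.Adj x y then f x ^ 2 else 0) = d * ∑ x ∈ S, f x ^ 2 := by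
    rw [← Finset.sum_subset hST, Finset.mul_sum]
    · refine Finset.sum_congr rfl fun x hx => ?_
      rw [← Finset.sum_filter, key x hx, Finset.sum_const,
        SimpleGraph.card_neighborFinset_eq_degree, hd, nsmul_eq_mul]
    · intro x _ hx
      rw [hf x hx]
      simp
  have h2 : ∑ x ∈ T, ∑ y ∈ T, (if G.Adj x y then f y ^ 2 else 0) = d * ∑ x ∈ S, f x ^ 2 := by
    rw [Finset.sum_comm, ← h1]
    refine Finset.sum_congr rfl fun x _ => Finset.sum_congr rfl fun y _ => ?_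
    simp only [G.adj_comm x y]
  have h3 : ∑ x ∈ T, ∑ y ∈ T, (if G.Adj x y then f x * f y else 0)
      = ∑ x ∈ S, f x * ∑ y ∈ G.neighborFinset x, f y := by
    rw [← Finset.sum_subset hST]
    · refine Finset.sum_congr rfl fun x hx => ?_
      rw [← Finset.sum_filter, key x hx, Finset.mul_sum]
    · intro x _ hx
      rw [hf x hx]
      simp
  have h4 : ∑ x ∈ T, ∑ y ∈ T, (if G.Adj x y then (f x - f y) ^ 2 else 0)
      = ∑ x ∈ T, ∑ y ∈ T, (if G.Adj x y then f x ^ 2 else 0)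
        + ∑ x ∈ T, ∑ y ∈ T, (if G.Adj x y then f y ^ 2 else 0)
        - 2 * ∑ x ∈ T, ∑ y ∈ T, (if G.Adj x y then f x * f y else 0) := by
    rw [Finset.mul_sum, ← Finset.sum_add_distrib, ← Finset.sum_sub_distrib]
    refine Finset.sum_congr rfl fun x _ => ?_
    rw [Finset.mul_sum, ← Finset.sum_add_distrib, ← Finset.sum_sub_distrib]
    refine Finset.sum_congr rfl fun y _ => ?_
    split_ifs
    · ring
    · ring
  rw [h4, h1, h2, h3]
  ring

theorem spc {V : Type} [Nonempty V] (G : SimpleGraph V) (hfin : ∀ v : V, (G.neighborSet v).Finite)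
    (hreg : ∀ v w : V, (G.neighborSet v).ncard = (G.neighborSet w).ncard)
    (hche : ∃ c : ℝ, 0 < c ∧ ∀ S : Finset V, S.Nonempty → c * (S.card : ℝ) ≤ (SAWL.bdry G S : ℝ)) :
    ∃ θ : ℝ, 0 < θ ∧ ∀ f : V → ℝ, f.support.Finite →
      ENNReal.ofReal θ * ∑' x, ENNReal.ofReal (f x ^ 2) ≤
        ∑' x, ∑' y, if G.Adj x y then ENNReal.ofReal ((f x - f y) ^ 2) else 0 := by
  let : G.LocallyFinite := fun v => (hfin v).fintype
  obtain ⟨v0⟩ := ‹Nonempty V›
  set d : ℕ := G.degree v0 with hdd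
  have hd : ∀ v, G.degree v = d := by
    intro v
    rw [hdd, ← SimpleGraph.card_neighborSet_eq_degree, ← SimpleGraph.card_neighborSet_eq_degree]
    have := hreg v v0
    rw [Set.ncard_eq_toFinset_card', Set.ncard_eq_toFinset_card', Set.toFinset_card,
      Set.toFinset_card] at this
    exact this
  obtain ⟨c, hc0, hc⟩ := hche
  have hs : (0 : ℝ) ≤ Real.sqrt ((d : ℝ) ^ 2 - c ^ 2) := Real.sqrt_nonneg _
  -- the Cheeger inequality with `f` the indicator of a point gives `c ≤ d`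
  have hcd : c ≤ d := by
    have h1 := SAWL.cheeger G d hd c hc0.le hc {v0} (fun x => if x = v0 then 1 else 0) (by
      intro x hx
      rw [Finset.mem_singleton] at hx
      simp [hx])
    have h2 : (0 : ℝ) ≤ ((d : ℝ) ^ 2 - c ^ 2) := by
      refine le_trans (sq_nonneg _) (le_trans h1 (le_of_eq ?_))
      simp
    have h3 : c ^ 2 ≤ (d : ℝ) ^ 2 := by linarith
    exact le_of_sq_le_sq h3 (Nat.cast_nonneg d)
  have hdc : (0 : ℝ) ≤ (d : ℝ) ^ 2 - c ^ 2 := by nlinarith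
  have hlt : Real.sqrt ((d : ℝ) ^ 2 - c ^ 2) < d := by
    rw [Real.sqrt_lt' (by linarith)]
    nlinarith
  refine ⟨2 * ((d : ℝ) - Real.sqrt ((d : ℝ) ^ 2 - c ^ 2)), by linarith, ?_⟩
  intro f hfs
  set S : Finset V := hfs.toFinset with hS
  have hf : ∀ x, x ∉ S → f x = 0 := by
    intro x hx
    by_contra h
    exact hx (by rw [hS, Set.Finite.mem_toFinset]; exact h)
  set T : Finset V := S ∪ S.biUnion (fun x => G.neighborFinset x) with hTdef
  have hST : S ⊆ T := Finset.subset_union_left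
  have hNT : ∀ x ∈ S, ∀ y, G.Adj x y → y ∈ T := by
    intro x hx y hy
    exact Finset.mem_union_right _ (Finset.mem_biUnion.2 ⟨x, hx, by
      rw [SimpleGraph.mem_neighborFinset]; exact hy⟩)
  have h1 := SAWL.cheeger G d hd c hc0.le hc S f hf
  have hff : 0 ≤ ∑ x ∈ S, f x ^ 2 := Finset.sum_nonneg fun _ _ => sq_nonneg _
  have h2 : ∑ x ∈ S, f x * ∑ y ∈ G.neighborFinset x, f y
      ≤ Real.sqrt ((d : ℝ) ^ 2 - c ^ 2) * ∑ x ∈ S, f x ^ 2 := by
    refine le_trans (le_abs_self _) ?_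
    refine abs_le_of_sq_le_sq ?_ (mul_nonneg hs hff)
    rw [mul_pow, Real.sq_sqrt hdc]
    exact h1
  have h3 := spc_form G d hd f S T hST hNT hf
  have h4 : 2 * ((d : ℝ) - Real.sqrt ((d : ℝ) ^ 2 - c ^ 2)) * ∑ x ∈ S, f x ^ 2
      ≤ ∑ x ∈ T, ∑ y ∈ T, (if G.Adj x y then (f x - f y) ^ 2 else 0) := by
    rw [h3]
    nlinarith
  have h5 : ∑' x, ENNReal.ofReal (f x ^ 2) = ENNReal.ofReal (∑ x ∈ S, f x ^ 2) := by
    rw [ENNReal.ofReal_sum_of_nonneg (fun _ _ => sq_nonneg _)]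
    refine tsum_eq_sum fun x hx => ?_
    rw [hf x hx]
    simp
  rw [h5, ← ENNReal.ofReal_mul (by linarith)]
  refine le_trans (ENNReal.ofReal_le_ofReal h4) ?_
  rw [ENNReal.ofReal_sum_of_nonneg (fun _ _ => Finset.sum_nonneg fun _ _ => by
    split_ifs
    · exact sq_nonneg _
    · exact le_rfl)]
  refine le_trans (Finset.sum_le_sum fun x _ => ?_) (ENNReal.sum_le_tsum T)
  rw [ENNReal.ofReal_sum_of_nonneg (fun _ _ => by
    split_ifs
    · exact sq_nonneg _
    · exact le_rfl)]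
  refine le_trans (Finset.sum_le_sum fun y _ => ?_) (ENNReal.sum_le_tsum T)
  split_ifs
  · exact le_rfl
  · simp

end Pool.Agent.SWH
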