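import Pool.Agent.SWH.Str

/-!
# SWH module Stc: a common span

PROOF.  Let `L i, F i` be as in `str`; `F i` is nonempty (its cardinality is positive).  Let `L = ∏ i, L i ≥ 1`, and let
`c = ∏_{k ≠ i} L k ≥ 1`, so `L = c * L i`.  Choose `g ∈ F i`, so `g ^ (c - 1)` satisfies `U (1, i) (g^(c-1), i)` and
`h (g^(c-1), i) = h (1, i) + (c-1) L i` (translate by `g`, `U_tr`, `U_trans`, `h_tr`).  Put `F' = (F i).image (fun f => f * g ^ (c - 1))`: its elements
satisfy the condition with `L` (translate the second bridge by `f`).  `card F' = card F i`, and `nrF F' = nrF (F i)`: with `w = g ^ (c-1)`: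
`1[a⁻¹ b ∈ F w] = 1[a⁻¹ (b w⁻¹) ∈ F]`; replace `B, v` by `B w⁻¹, v (· w)`.
-/

set_option autoImplicit false

open scoped ENNReal NNReal Classical
open Filter Topology

namespace Pool.Agent.SWH

variable {Γ I : Type} [Group Γ] [Fintype I] {G : SimpleGraph (Γ × I)} {h : Γ × I → ℤ} {m : ℕ} {θ : ℝ}

private theorem Stc_le (k : Γ → ℝ≥0∞) (w : Γ) : nrm (fun g => k (g * w)) ≤ nrm k := by
  unfold nrm
  refine iSup_le fun A => iSup_le fun B => iSup_le fun u => iSup_le fun v => iSup_le fun hu => iSup_le fun hv => ?_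
  have h1 : ∀ f : Γ → ℝ≥0∞, ∑ b ∈ B.image (fun b => b * w), f b = ∑ b ∈ B, f (b * w) := by
    intro f
    rw [Finset.sum_image]
    intro x _ y _ hxy
    exact mul_right_cancel hxy
  have h2 : ∑ b ∈ B.image (fun b => b * w), (fun b => v (b * w⁻¹)) b ^ 2 ≤ 1 := by
    rw [Finset.sum_image]
    · simpa [mul_assoc] using hv
    · intro x _ y _ hxy
      exact mul_right_cancel hxy
  refine le_trans (le_of_eq ?_) (le_iSup_of_le A (le_iSup_of_le (B.image (fun b => b * w)) (le_iSup_of_le u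
    (le_iSup_of_le (fun b => v (b * w⁻¹)) (le_iSup_of_le hu (le_iSup_of_le h2 le_rfl))))))
  refine Finset.sum_congr rfl fun a _ => ?_
  rw [h1]
  refine Finset.sum_congr rfl fun b _ => ?_
  change (u a : ℝ≥0∞) * k (a⁻¹ * b * w) * v b = u a * k (a⁻¹ * (b * w)) * v (b * w * w⁻¹)
  rw [mul_assoc b w w⁻¹, mul_inv_cancel, mul_one, mul_assoc a⁻¹ b w]

theorem nrF_mul (F : Finset Γ) (w : Γ) : nrF (F.image (fun f => f * w)) = nrF F := by
  have h0 : ∀ (E : Finset Γ) (x : Γ), nrF (E.image (fun f => f * x)) ≤ nrF E := by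
    intro E x
    have h1 : (fun g => if g ∈ E.image (fun f => f * x) then (1 : ℝ≥0∞) else 0) =
        fun g => (if g * x⁻¹ ∈ E then (1 : ℝ≥0∞) else 0) := by
      funext g
      have h1 : g ∈ E.image (fun f => f * x) ↔ g * x⁻¹ ∈ E := by
        rw [Finset.mem_image]
        constructor
        · rintro ⟨f, hf, rfl⟩
          rwa [mul_assoc, mul_inv_cancel, mul_one]
        · intro h
          exact ⟨g * x⁻¹, h, by rw [mul_assoc, inv_mul_cancel, mul_one]⟩
      by_cases h2 : g * x⁻¹ ∈ E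
      · rw [if_pos (h1.2 h2), if_pos h2]
      · rw [if_neg (fun h => h2 (h1.1 h)), if_neg h2]
    unfold nrF
    rw [h1]
    exact Stc_le (fun g => if g ∈ E then (1 : ℝ≥0∞) else 0) x⁻¹
  refine le_antisymm (h0 F w) ?_
  have h3 := h0 (F.image (fun f => f * w)) w⁻¹
  have h4 : (F.image (fun f => f * w)).image (fun f => f * w⁻¹) = F := by
    rw [Finset.image_image]
    have h5 : ((fun f => f * w⁻¹) ∘ fun f => f * w) = (id : Γ → Γ) := by
      funext f
      simp
    rw [h5, Finset.image_id]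
  rw [h4] at h3
  exact h3

private theorem Stc_tr (H : Hyp G h m θ) (i : I) (a b : Γ) (L : ℤ) (h1 : U G h (1, i) (b, i))
    (h2 : h (b, i) = h (1, i) + L) : U G h (a, i) (a * b, i) ∧ h (a * b, i) = h (a, i) + L := by
  have e1 : tr a ((1 : Γ), i) = (a, i) := by simp [tr]
  have e2 : tr a (b, i) = (a * b, i) := by simp [tr]
  constructor
  · have h3 := U_tr H a h1
    rwa [e1, e2] at h3
  · have h3 := h_tr H a (b, i) (1, i)
    rw [e1, e2] at h3
    omega

theorem stc (H : Hyp G h m θ) : ∃ L : ℕ, 1 ≤ L ∧ ∀ i : I, ∃ F : Finset Γ,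
    (∀ g ∈ F, U G h (1, i) (g, i) ∧ h (g, i) = h (1, i) + L) ∧ nrF F < F.card := by
  choose L hL F hF hn using str H
  refine ⟨∏ i, L i, Nat.one_le_iff_ne_zero.2 (Finset.prod_ne_zero_iff.2 fun i _ => ?_), fun i => ?_⟩
  · have := hL i
    omega
  have hc : ∏ k, L k = (∏ k ∈ Finset.univ.erase i, L k) * L i := (Finset.prod_erase_mul _ _ (Finset.mem_univ i)).symm
  set c := ∏ k ∈ Finset.univ.erase i, L k with hcdef
  have hc1 : 1 ≤ c := Nat.one_le_iff_ne_zero.2 (Finset.prod_ne_zero_iff.2 fun k _ => by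
    have := hL k
    omega)
  have hne : (F i).Nonempty := by
    rw [Finset.nonempty_iff_ne_empty]
    intro h0
    have h1 := hn i
    rw [h0] at h1
    simp at h1
  obtain ⟨g, hg⟩ := hne
  have hpow : ∀ n : ℕ, U G h (1, i) (g ^ n, i) ∧ h (g ^ n, i) = h (1, i) + (n : ℤ) * L i := by
    intro n
    induction n with
    | zero =>
      rw [pow_zero]
      exact ⟨U_refl _, by simp⟩
    | succ n ih =>
      have h1 := Stc_tr H i (g ^ n) g (L i) (hF i g hg).1 (hF i g hg).2
      rw [pow_succ]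
      refine ⟨U_trans ih.1 h1.1, ?_⟩
      rw [h1.2, ih.2]
      push_cast
      ring
  refine ⟨(F i).image (fun f => f * g ^ (c - 1)), ?_, ?_⟩
  · intro x hx
    obtain ⟨f, hf, rfl⟩ := Finset.mem_image.1 hx
    have h1 := hF i f hf
    have h2 := hpow (c - 1)
    have h3 := Stc_tr H i f (g ^ (c - 1)) (((c - 1 : ℕ) : ℤ) * L i) h2.1 h2.2
    refine ⟨U_trans h1.1 h3.1, ?_⟩
    rw [h3.2, h1.2, hc]
    rw [Nat.cast_sub hc1]
    push_cast
    ring
  · rw [nrF_mul, Finset.card_image_of_injective _ (mul_left_injective _)]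
    exact hn i

end Pool.Agent.SWH
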