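import Pool.Agent.SWH.Chs
import Pool.Agent.SWH.Nea
import Pool.Agent.SWH.Dsm

/-!
# SWH module Str: strict inequality for the norm of the bridges of one span, one type

PROOF.  Suppose not: for all `L ≥ 1` and all finite `F` contained in
`E L = {g | U (1, i0) (g, i0), h (g, i0) = h (1, i0) + L}` we have `F.card ≤ nrF F`.
By `exa` there is a bridge from `(1, i0)` to some `(g0, i0)` of span `p ≥ 1`.  So with `y0` also `(y0.1 * g0, i0)` and `(y0.1 * g0⁻¹, i0)` are of type `i0`, of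
heights `h y0 + p`, `h y0 - p`.  Let `N, γ` be as in `chs`, `D = ∑ i, (G.neighborSet (1, i)).ncard`.
Let `ε > 0` be a real number with `D * ε ≤ θ * card I / (8 p)`, `t` large (`θ * card I * t > 16 m D` suffices, see the end) and
`L = p * (t + 2 N + 2 m)`, `M = N + m`, `L' = M + p t - 1 ≤ L - N - m` (window `[M, L']` of length `p t`).
`F`: the finite set of all `k⁻¹ * γ i (c - h (1, i))` and `k⁻¹ * (x'.1 * γ x'.2 (c - h x'))`, where `i` runs over the types, `x'` over the neighbours of `(1, i)`, `c` over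
the heights of type `i0` with `c - h (1, i)` and `c - h x'` in `[M, L']` (finitely many), and `k = k(i, x', c)` is given by `chs_edge` for `x = (1, i)`, `x'`, `y0` of
height `c`, `y1` of type `i0` and height `c - L` (it exists because `p ∣ L`).  `F ⊆ E L`: translate the bridges from `(k, i0)` by `k⁻¹` (`U_tr`, `h_tr`).
If `F` is empty then there are no such triples; but for large `t` there are: fine (or add the element `g0 ^ (L / p)` of `E L` to `F`).
`near F ε` gives `v`.  `hedge` of `dsm` holds: for `g = k⁻¹ γ..`, `g' = k⁻¹ x'.1 γ..` in `F`: `∑' a, (v (a g) - v (a g'))^2 ≤ ε`, substitute `a ↦ a k`.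
`dsm`: every `p` consecutive integers `j` contain one with `h (1, i) + j` a height of type `i0`, so the cardinality is at least `t` for every `i`:
`θ * card I * t / 2 ≤ D * (ε * p t + 2 m) ≤ θ * card I * t / 8 + 2 m D`, so `θ * card I * t ≤ (16/3) m D`: contradiction for large `t`.
-/

set_option autoImplicit false

open scoped ENNReal NNReal Classical
open Filter Topology

namespace Pool.Agent.SWH

variable {Γ I : Type} [Group Γ] [Fintype I] {G : SimpleGraph (Γ × I)} {h : Γ × I → ℤ} {m : ℕ} {θ : ℝ}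

/-- Powers: heights. -/
theorem str_pow (H : Hyp G h m θ) (i0 : I) (g0 : Γ) (p : ℤ) (hp : h (g0, i0) = h (1, i0) + p) (n : ℤ) :
    h (g0 ^ n, i0) = h (1, i0) + n * p := by
  obtain ⟨φ, hφ⟩ := H.eqv
  have hmul : ∀ a b, φ (a * b) = φ a + φ b := by
    intro a b
    have h1 := hφ (a * b) (1, i0)
    have h2 := hφ a (tr b (1, i0))
    have h3 := hφ b (1, i0)
    rw [tr_mul] at h1
    omega
  let ψ : Γ →* Multiplicative ℤ := MonoidHom.mk' (fun a => Multiplicative.ofAdd (φ a)) (by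
    intro a b
    rw [hmul a b]
    rfl)
  have hψ : ∀ a, φ a = Multiplicative.toAdd (ψ a) := fun a => rfl
  have h1 : ∀ a : Γ, h (a, i0) = φ a + h (1, i0) := by
    intro a
    have := hφ a (1, i0)
    simpa [tr] using this
  have h2 : φ g0 = p := by
    have := h1 g0
    omega
  have h3 : φ (g0 ^ n) = n * φ g0 := by
    rw [hψ, hψ, map_zpow, toAdd_zpow]
    simp
  rw [h1, h3, h2]
  ring

/-- Powers: bridges. -/
theorem str_powU (H : Hyp G h m θ) (i0 : I) (g0 : Γ) (hU : U G h (1, i0) (g0, i0)) (n : ℕ) :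
    U G h (1, i0) (g0 ^ n, i0) := by
  induction n with
  | zero =>
    rw [pow_zero]
    exact U_refl _
  | succ n ih =>
    have h1 := U_tr H (g0 ^ n) hU
    have h2 : tr (g0 ^ n) ((1 : Γ), i0) = (g0 ^ n, i0) := by simp [tr]
    have h3 : tr (g0 ^ n) (g0, i0) = (g0 ^ (n + 1), i0) := by simp [tr, pow_succ]
    rw [h2, h3] at h1
    exact U_trans ih h1

theorem str_card (H : Hyp G h m θ) (i0 i : I) (g0 : Γ) (p : ℕ) (hp1 : 1 ≤ p)
    (hp : h (g0, i0) = h (1, i0) + (p : ℤ)) (M : ℤ) (t : ℕ) :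
    t ≤ ((Finset.Icc M (M + p * t - 1)).filter
        (fun j => ∃ y0 : Γ × I, y0.2 = i0 ∧ h y0 = h (1, i) + j)).card := by
  have hpp : (0 : ℤ) < p := by exact_mod_cast hp1
  set r : ℤ := (h (1, i0) - h (1, i) - M) % p with hr
  have hr0 : 0 ≤ r := Int.emod_nonneg _ hpp.ne'
  have hr1 : r < p := Int.emod_lt_of_pos _ hpp
  have hdiv : (p : ℤ) * ((h (1, i0) - h (1, i) - M) / p) + r = h (1, i0) - h (1, i) - M :=
    Int.mul_ediv_add_emod _ _
  set q : ℤ := (h (1, i0) - h (1, i) - M) / p with hq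
  have h1 := Finset.card_le_card_of_injOn (s := Finset.range t)
    (t := (Finset.Icc M (M + p * t - 1)).filter
        (fun j => ∃ y0 : Γ × I, y0.2 = i0 ∧ h y0 = h (1, i) + j)) (fun s : ℕ => M + (s : ℤ) * p + r) ?_ ?_
  · rwa [Finset.card_range] at h1
  · intro s hs
    have hs' : s < t := by simpa using hs
    have hs1 : (s : ℤ) + 1 ≤ t := by exact_mod_cast hs'
    have hs0 : (0 : ℤ) ≤ (s : ℤ) * p := by positivity
    have hs2 : ((s : ℤ) + 1) * p ≤ t * p := mul_le_mul_of_nonneg_right hs1 hpp.le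
    simp only [Finset.coe_filter, Finset.mem_Icc, Set.mem_ofPred_eq]
    refine ⟨⟨by linarith, by nlinarith⟩, (g0 ^ ((s : ℤ) - q), i0), rfl, ?_⟩
    rw [str_pow H i0 g0 p hp]
    linear_combination (-1 : ℤ) * hdiv
  · intro s _ s' _ hss
    have h2 : (s : ℤ) * p = (s' : ℤ) * p := by
      have : M + (s : ℤ) * p + r = M + (s' : ℤ) * p + r := hss
      linarith
    have h3 : (s : ℤ) = (s' : ℤ) := mul_right_cancel₀ hpp.ne' h2
    exact_mod_cast h3

theorem str (H : Hyp G h m θ) (i0 : I) : ∃ L : ℕ, 1 ≤ L ∧ ∃ F : Finset Γ,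
    (∀ g ∈ F, U G h (1, i0) (g, i0) ∧ h (g, i0) = h (1, i0) + L) ∧ nrF F < F.card := by
  by_contra hcon
  push Not at hcon
  obtain ⟨⟨g0, i0'⟩, hy0, hyU, hyh⟩ := exa H (1, i0) i0
  have hi0' : i0' = i0 := hy0
  subst hi0'
  obtain ⟨p, hp⟩ : ∃ p : ℕ, h (g0, i0') = h (1, i0') + (p : ℤ) :=
    ⟨(h (g0, i0') - h (1, i0')).toNat, by omega⟩
  have hp1 : 1 ≤ p := by omega
  obtain ⟨N, γ, C⟩ := chs H i0'
  set i0 := i0' with hi0
  set D : ℕ := ∑ i : I, (G.neighborSet (1, i)).ncard with hD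
  set ci : ℕ := Fintype.card I with hci
  have hci1 : 1 ≤ ci := Fintype.card_pos_iff.mpr ⟨i0⟩
  have hθ := H.pos
  have hciR : (0 : ℝ) < ci := by exact_mod_cast hci1
  have hpR : (0 : ℝ) < p := by exact_mod_cast hp1
  have hD0 : (0 : ℝ) ≤ D := Nat.cast_nonneg D
  have hm0 : (0 : ℝ) ≤ m := Nat.cast_nonneg m
  set ε : ℝ := θ * ci / (8 * p * (D + 1)) with hε
  have hε0 : 0 < ε := by positivity
  obtain ⟨t, ht⟩ := exists_nat_gt (16 * m * D / (θ * ci))
  have ht0 : (0 : ℝ) < t := lt_of_le_of_lt (by positivity) ht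
  have ht1 : 1 ≤ t := by exact_mod_cast ht0
  have ht2 : 16 * m * D < t * (θ * ci) := by
    rwa [div_lt_iff₀ (by positivity)] at ht
  set nn0 : ℕ := t + 2 * N + 2 * m with hnn0
  set L : ℕ := p * nn0 with hL
  set M : ℤ := (N : ℤ) + m with hM
  set L' : ℤ := M + p * t - 1 with hL'
  have hL1 : 1 ≤ L := Nat.mul_pos hp1 (by omega)
  have hpt : (1 : ℤ) ≤ (p : ℤ) * t := by exact_mod_cast Nat.mul_pos hp1 ht1
  have hLL : (L : ℤ) = (p : ℤ) * t + (p : ℤ) * (2 * (N + m)) := by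
    rw [hL, hnn0]; push_cast; ring
  have hLL2 : (p : ℤ) * (2 * (N + m)) ≥ 2 * (N + m) := by
    have h1 : (1 : ℤ) ≤ p := by exact_mod_cast hp1
    have h2 : (0 : ℤ) ≤ 2 * (N + m) := by positivity
    nlinarith
  have hL'L : L' ≤ L - N - m := by omega
  -- the choice of the common lower vertex
  let S : Set (I × (Γ × I) × ℤ) := {q | G.Adj (1, q.1) q.2.1 ∧ (∃ y0 : Γ × I, y0.2 = i0 ∧ h y0 = q.2.2) ∧
    M ≤ q.2.2 - h (1, q.1) ∧ q.2.2 - h (1, q.1) ≤ L' ∧ M ≤ q.2.2 - h q.2.1 ∧ q.2.2 - h q.2.1 ≤ L'}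
  have hS : S.Finite := by
    refine Set.Finite.subset (Set.finite_iUnion (fun i : I => (Set.finite_singleton i).prod
      ((H.fin (1, i)).prod (Set.finite_Icc (M + h (1, i)) (L' + h (1, i)))))) ?_
    rintro ⟨i, x', c⟩ ⟨h1, h2, h3, h4, h5, h6⟩
    rw [Set.mem_iUnion]
    refine ⟨i, rfl, h1, ?_⟩
    simp only at h3 h4
    constructor
    · change M + h (1, i) ≤ c; linarith
    · change c ≤ L' + h (1, i); linarith
  have hk : ∀ q ∈ S, ∃ k : Γ, h (k, i0) = q.2.2 - L ∧ U G h (k, i0) (γ q.1 (q.2.2 - h (1, q.1)), i0) ∧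
      U G h (k, i0) (q.2.1.1 * γ q.2.1.2 (q.2.2 - h q.2.1), i0) ∧ h (γ q.1 (q.2.2 - h (1, q.1)), i0) = q.2.2 ∧
      h (q.2.1.1 * γ q.2.1.2 (q.2.2 - h q.2.1), i0) = q.2.2 := by
    rintro ⟨i, x', c⟩ ⟨h1, ⟨y0, hy0, hyc⟩, h3, h4, h5, h6⟩
    simp only at h1 h3 h4 h5 h6 hyc ⊢
    have hy1 : h (y0.1 * g0 ^ (-(nn0 : ℤ)), i0) = c - L := by
      have e1 : h (tr y0.1 (g0 ^ (-(nn0 : ℤ)), i0)) - h (tr y0.1 ((1 : Γ), i0)) = h (g0 ^ (-(nn0 : ℤ)), i0) - h (1, i0) :=
        h_tr H _ _ _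
      have e2 : tr y0.1 ((1 : Γ), i0) = y0 := by
        rw [← hy0]; simp [tr]
      rw [e2, str_pow H i0 g0 p hp] at e1
      have e3 : tr y0.1 (g0 ^ (-(nn0 : ℤ)), i0) = (y0.1 * g0 ^ (-(nn0 : ℤ)), i0) := rfl
      rw [e3] at e1
      rw [hL]
      push_cast
      linear_combination e1 + hyc
    obtain ⟨k, k1, k2, k3⟩ := chs_edge H C (x := ((1 : Γ), i)) (x' := x') (y0 := y0)
      (y1 := (y0.1 * g0 ^ (-(nn0 : ℤ)), i0)) h1 hy0 rfl (by omega) (by omega) (by omega) (by omega)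
    have u1 := C.upw (1, i) y0 hy0 (by omega)
    have u2 := C.upw x' y0 hy0 (by omega)
    rw [hyc, one_mul] at u1
    rw [hyc] at u2
    rw [hyc, one_mul] at k2
    rw [hyc] at k3
    exact ⟨k, by rw [k1, hy1], k2, k3, u1.2, u2.2⟩
  choose! k hk using hk
  set F : Finset Γ := (hS.toFinset.image (fun q => (k q)⁻¹ * γ q.1 (q.2.2 - h (1, q.1)))) ∪
    (hS.toFinset.image (fun q => (k q)⁻¹ * (q.2.1.1 * γ q.2.1.2 (q.2.2 - h q.2.1)))) ∪ {g0 ^ nn0} with hF
  have htrans : ∀ (a b : Γ) (c : ℤ), U G h (a, i0) (b, i0) → h (a, i0) = c - L → h (b, i0) = c →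
      U G h (1, i0) (a⁻¹ * b, i0) ∧ h (a⁻¹ * b, i0) = h (1, i0) + L := by
    intro a b c h1 h2 h3
    have e1 := U_tr H a⁻¹ h1
    have e2 : tr a⁻¹ (a, i0) = ((1 : Γ), i0) := by simp [tr]
    have e3 : tr a⁻¹ (b, i0) = (a⁻¹ * b, i0) := rfl
    have e4 := h_tr H a⁻¹ (b, i0) (a, i0)
    rw [e2, e3] at e1 e4
    exact ⟨e1, by omega⟩
  have hFE : ∀ g ∈ F, U G h (1, i0) (g, i0) ∧ h (g, i0) = h (1, i0) + L := by
    intro g hg
    rw [hF, Finset.mem_union, Finset.mem_union, Finset.mem_image, Finset.mem_image, Finset.mem_singleton] at hg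
    rcases hg with (⟨q, hq, rfl⟩ | ⟨q, hq, rfl⟩) | rfl
    · have hq' : q ∈ S := by simpa using hq
      obtain ⟨k1, k2, k3, k4, k5⟩ := hk q hq'
      exact htrans _ _ _ k2 k1 k4
    · have hq' : q ∈ S := by simpa using hq
      obtain ⟨k1, k2, k3, k4, k5⟩ := hk q hq'
      exact htrans _ _ _ k3 k1 k5
    · refine ⟨str_powU H i0 g0 hyU nn0, ?_⟩
      have := str_pow H i0 g0 p hp nn0
      rw [zpow_natCast] at this
      rw [this, hL]
      push_cast
      ring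
  have hFn : F.Nonempty := ⟨g0 ^ nn0, by rw [hF]; simp⟩
  obtain ⟨v, v1, v2, v3, v4⟩ := near F hFn (hcon L hL1 F hFE) ε hε0
  have key := dsm H i0 M L' (by omega) γ v v1 v2 v3 (ENNReal.ofReal ε) (by
    intro i x' c a1 a2 a3 a4 a5 a6
    have hq : ((i, x', c) : I × (Γ × I) × ℤ) ∈ S := ⟨a1, a2, a3, a4, a5, a6⟩
    set κ : Γ := k (i, x', c) with hκ
    have m1 : κ⁻¹ * γ i (c - h (1, i)) ∈ F := by
      rw [hF, Finset.mem_union, Finset.mem_union, Finset.mem_image]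
      exact Or.inl (Or.inl ⟨(i, x', c), by simpa using hq, rfl⟩)
    have m2 : κ⁻¹ * (x'.1 * γ x'.2 (c - h x')) ∈ F := by
      rw [hF, Finset.mem_union, Finset.mem_union, Finset.mem_image, Finset.mem_image]
      exact Or.inl (Or.inr ⟨(i, x', c), by simpa using hq, rfl⟩)
    have h1 := v4 _ m1 _ m2
    rw [← (Equiv.mulRight κ).tsum_eq] at h1
    simpa [mul_assoc] using h1)
  -- the contradiction
  have hcard : ci * t ≤ ∑ i : I, ((Finset.Icc M L').filter
        (fun j => ∃ y0 : Γ × I, y0.2 = i0 ∧ h y0 = h (1, i) + j)).card := by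
    have := Finset.sum_le_sum (s := (Finset.univ : Finset I)) (f := fun _ => t) (g := fun i =>
      ((Finset.Icc M L').filter (fun j => ∃ y0 : Γ × I, y0.2 = i0 ∧ h y0 = h (1, i) + j)).card)
      (fun i _ => str_card H i0 i g0 p hp1 hp M t)
    simpa [hci] using this
  set X : ℕ := ∑ i : I, ((Finset.Icc M L').filter
        (fun j => ∃ y0 : Γ × I, y0.2 = i0 ∧ h y0 = h (1, i) + j)).card with hX
  have hlen : (L' - M + 1).toNat = p * t := by
    have : L' - M + 1 = ((p * t : ℕ) : ℤ) := by rw [hL']; push_cast; ring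
    rw [this, Int.toNat_natCast]
  rw [hlen] at key
  have key2 : θ * ((X : ℝ) / 2) ≤ D * (ε * ((p * t : ℕ) : ℝ) + 2 * m) := by
    have e1 : ENNReal.ofReal θ * ((X : ℕ) / 2 : ℝ≥0∞) = ENNReal.ofReal (θ * ((X : ℝ) / 2)) := by
      rw [ENNReal.ofReal_mul hθ.le, ENNReal.ofReal_div_of_pos (by norm_num), ENNReal.ofReal_natCast]
      norm_num
    have e2 : ((D : ℕ) : ℝ≥0∞) * (ENNReal.ofReal ε * ((p * t : ℕ) : ℝ≥0∞) + 2 * (m : ℝ≥0∞)) =
        ENNReal.ofReal (D * (ε * ((p * t : ℕ) : ℝ) + 2 * m)) := by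
      rw [ENNReal.ofReal_mul hD0, ENNReal.ofReal_add (by positivity) (by positivity), ENNReal.ofReal_mul hε0.le,
        ENNReal.ofReal_mul (by norm_num : (0 : ℝ) ≤ 2), ENNReal.ofReal_natCast, ENNReal.ofReal_natCast, ENNReal.ofReal_natCast]
      norm_num
    rw [e1] at key
    rw [e2] at key
    exact (ENNReal.ofReal_le_ofReal_iff (by positivity)).mp key
  have hcardR : (ci : ℝ) * t ≤ X := by exact_mod_cast hcard
  have h5 : (D : ℝ) * (ε * p) ≤ θ * ci / 8 := by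
    rw [hε]
    have : (D : ℝ) * (θ * ci / (8 * p * (D + 1)) * p) = (θ * ci / 8) * (D / (D + 1)) := by
      field_simp
    rw [this]
    have h6 : (D : ℝ) / (D + 1) ≤ 1 := by
      rw [div_le_one (by positivity)]
      linarith
    have h7 : (0 : ℝ) ≤ θ * ci / 8 := by positivity
    nlinarith
  have h8 : (D : ℝ) * (ε * ((p * t : ℕ) : ℝ)) ≤ θ * ci / 8 * t := by
    have : (D : ℝ) * (ε * ((p * t : ℕ) : ℝ)) = (D : ℝ) * (ε * p) * t := by push_cast; ring
    rw [this]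
    exact mul_le_mul_of_nonneg_right h5 ht0.le
  have h9 : θ * (ci * t) ≤ θ * X := mul_le_mul_of_nonneg_left hcardR hθ.le
  have h10 : (0 : ℝ) ≤ m * D := by positivity
  nlinarith

end Pool.Agent.SWH
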