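import Pool.Agent.SWH.Skk
import Pool.Agent.SWH.Hrk
import Pool.Agent.SWH.Mat

/-!
# SWH module Sum: the norms of the bridges of span `T` are summable, uniformly in `z`

PROOF.  Let `A` be as in `hrk`, `L, δ` as in `skk`, `b i = row (wt z Br) (1, i)` (`1 ≤ b i < ⊤`), `W T = wt z (sl h Br T)`.
(1) For every `L'`: `∑ j, (∑' g, wt z (Cl L') (1, i) (g, j)) * b j ≤ b i` (`row_cl`, `ENNReal.tsum_prod`, `row_tr`).
Hence `∑' g, wt z (Cl L') (1, i) (g, j) ≤ b i / b j ≤ A`, and `nrm (blk (W T) i j) ≤ ∑' g, W T (1, i) (g, j) ≤ A` (`nrm_blk_le`, `br_le_cl`).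
(2) `a i j = ∑' T, nrm (blk (wt z (sl h (Cl L) T)) i j) ≤ ∑' g, wt z (Cl L) (1, i) (g, j)` (`nrm_blk_le`, `cl_eq`), and for `i = j` with `+ δ` by `skk`.
With (1): `∑ j, a i j * b j + δ * b i ≤ b i`.
(3) Fix `j` and `M`, `s i = ∑ T ∈ range M, nrm (blk (W T) i j)`, finite by (1).  For `T ≥ L`: `br_slice`, `nrm_tsum`/`nrm_mono`, `nrm_blk_cmp` give
`nrm (blk (W T) i j) ≤ ∑ T1 ∈ Icc L T, ∑ k, nrm (blk (wt z (sl h (Cl L) T1)) i k) * nrm (blk (W (T - T1)) k j)`.  Sum over `T < M`:
`s i ≤ L * A + ∑ k, a i k * s k`.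
(4) `mat` with `c = L * A`: `δ * s i ≤ A * (L * A)`, so `s i ≤ A * L * A / δ`, for all `M`.  Sum over `i, j`, `M → ∞` (`ENNReal.tsum_eq_iSup_nat`).
`C = card I * card I * (A * (L * A) / δ)`.
-/

set_option autoImplicit false

open scoped ENNReal NNReal Classical
open Filter Topology

namespace Pool.Agent.SWH

variable {Γ I : Type} [Group Γ] [Fintype I] {G : SimpleGraph (Γ × I)} {h : Γ × I → ℤ} {m : ℕ} {θ : ℝ}

private theorem Sum_nrm {ι : Type} (s : Finset ι) (k : ι → Γ → ℝ≥0∞) :
    nrm (fun g => ∑ t ∈ s, k t g) ≤ ∑ t ∈ s, nrm (k t) := by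
  induction s using Finset.induction_on with
  | empty =>
    refine (nrm_le_tsum _).trans ?_
    simp
  | insert a s ha ih =>
    rw [Finset.sum_insert ha]
    have h1 : (fun g => ∑ t ∈ insert a s, k t g) = fun g => k a g + ∑ t ∈ s, k t g := by
      funext g
      rw [Finset.sum_insert ha]
    rw [h1]
    refine (nrm_add _ _).trans ?_
    gcongr

private theorem Sum_conv (f g : ℕ → ℝ≥0∞) (L M : ℕ) :
    ∑ T ∈ Finset.range M, ∑ T1 ∈ Finset.Icc L T, f T1 * g (T - T1) ≤
      (∑' T, f T) * ∑ T ∈ Finset.range M, g T := by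
  have h1 : ∀ T ∈ Finset.range M, ∑ T1 ∈ Finset.Icc L T, f T1 * g (T - T1) ≤
      ∑ T1 ∈ Finset.range M, f T1 * (if T1 ≤ T then g (T - T1) else 0) := by
    intro T hT
    have hT' := Finset.mem_range.1 hT
    calc ∑ T1 ∈ Finset.Icc L T, f T1 * g (T - T1)
        = ∑ T1 ∈ Finset.Icc L T, f T1 * (if T1 ≤ T then g (T - T1) else 0) := by
          refine Finset.sum_congr rfl fun T1 h => ?_
          rw [if_pos (Finset.mem_Icc.1 h).2]
      _ ≤ ∑ T1 ∈ Finset.range M, f T1 * (if T1 ≤ T then g (T - T1) else 0) := by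
          refine Finset.sum_le_sum_of_subset fun T1 h => ?_
          have := (Finset.mem_Icc.1 h).2
          exact Finset.mem_range.2 (by omega)
  have h2 : ∀ T1 : ℕ, ∑ T ∈ Finset.range M, (if T1 ≤ T then g (T - T1) else 0) ≤ ∑ T ∈ Finset.range M, g T := by
    intro T1
    rw [← Finset.sum_filter]
    have h3 : ∑ T ∈ (Finset.range M).filter (fun T => T1 ≤ T), g (T - T1) =
        ∑ T ∈ ((Finset.range M).filter (fun T => T1 ≤ T)).image (fun T => T - T1), g T := by
      rw [Finset.sum_image]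
      intro a ha b hb hab
      have h4 := (Finset.mem_filter.1 (Finset.mem_coe.1 ha)).2
      have h5 := (Finset.mem_filter.1 (Finset.mem_coe.1 hb)).2
      change a - T1 = b - T1 at hab
      omega
    rw [h3]
    refine Finset.sum_le_sum_of_subset fun T h => ?_
    obtain ⟨a, ha, rfl⟩ := Finset.mem_image.1 h
    have h4 := Finset.mem_range.1 (Finset.mem_filter.1 ha).1
    exact Finset.mem_range.2 (by omega)
  calc ∑ T ∈ Finset.range M, ∑ T1 ∈ Finset.Icc L T, f T1 * g (T - T1)
      ≤ ∑ T ∈ Finset.range M, ∑ T1 ∈ Finset.range M, f T1 * (if T1 ≤ T then g (T - T1) else 0) :=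
        Finset.sum_le_sum h1
    _ = ∑ T1 ∈ Finset.range M, ∑ T ∈ Finset.range M, f T1 * (if T1 ≤ T then g (T - T1) else 0) :=
        Finset.sum_comm
    _ = ∑ T1 ∈ Finset.range M, f T1 * ∑ T ∈ Finset.range M, (if T1 ≤ T then g (T - T1) else 0) := by
        refine Finset.sum_congr rfl fun T1 _ => ?_
        rw [Finset.mul_sum]
    _ ≤ ∑ T1 ∈ Finset.range M, f T1 * ∑ T ∈ Finset.range M, g T := by
        exact Finset.sum_le_sum fun T1 _ => mul_le_mul' le_rfl (h2 T1)
    _ = (∑ T1 ∈ Finset.range M, f T1) * ∑ T ∈ Finset.range M, g T := by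
        rw [Finset.sum_mul]
    _ ≤ (∑' T, f T) * ∑ T ∈ Finset.range M, g T := by
        gcongr
        exact ENNReal.sum_le_tsum _

theorem sumb (H : Hyp G h m θ) (z0 : ℝ≥0∞) (h0 : z0 ≠ 0) (h01 : z0 ≤ 1) : ∃ C : ℝ≥0∞, C ≠ ⊤ ∧
    ∀ z, z0 ≤ z → z ≤ 1 → (∀ x, row (wt z (Br G h)) x ≠ ⊤) → ∑' T : ℕ, nn (wt z (sl h (Br G h) T)) ≤ C := by
  obtain ⟨A, hA, hAr⟩ := hrk H z0 h0 h01
  obtain ⟨L, δ, hL, hδ, hsk⟩ := skk H z0 h0 h01
  have hc : A * ((L : ℝ≥0∞) * A) ≠ ⊤ := ENNReal.mul_ne_top hA (ENNReal.mul_ne_top (ENNReal.natCast_ne_top L) hA)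
  refine ⟨Fintype.card I * (Fintype.card I * (A * (L * A) / δ)), ?_, ?_⟩
  · exact ENNReal.mul_ne_top (ENNReal.natCast_ne_top _)
      (ENNReal.mul_ne_top (ENNReal.natCast_ne_top _) (ENNReal.div_ne_top hc hδ))
  intro z hz hz1 hfin
  set b : I → ℝ≥0∞ := fun i => row (wt z (Br G h)) (1, i) with hb
  have hb1 : ∀ i, 1 ≤ b i := fun i => one_le_row_br z _
  have hb0 : ∀ i, b i ≠ 0 := fun i h => by
    have := hb1 i
    rw [h] at this
    exact absurd this (by simp)
  have hbt : ∀ i, b i ≠ ⊤ := fun i => hfin _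
  have hbA : ∀ i j, b i ≤ A * b j := fun i j => hAr z hz _ _
  have hrow : ∀ (g : Γ) (j : I), row (wt z (Br G h)) (g, j) = b j := by
    intro g j
    have h2 : ((g, j) : Γ × I) = tr g ((1 : Γ), j) := by
      simp [tr]
    rw [h2]
    exact row_tr (InvK_br H z) g _
  -- (1)
  have key1 : ∀ (L' : ℕ) (i : I), ∑ j, (∑' g, wt z (Cl G h L') (1, i) (g, j)) * b j ≤ b i := by
    intro L' i
    refine le_trans (le_of_eq ?_) (row_cl (G := G) (h := h) L' z (1, i))
    have e := row_eq (fun _ y => wt z (Cl G h L') (1, i) y * row (wt z (Br G h)) y) ((1 : Γ), i)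
    unfold row at e
    unfold row
    rw [e]
    refine Finset.sum_congr rfl fun j _ => ?_
    rw [← ENNReal.tsum_mul_right]
    refine tsum_congr fun g => ?_
    have := hrow g j
    unfold row at this
    rw [this]
  have key2 : ∀ (L' : ℕ) (i j : I), ∑' g, wt z (Cl G h L') (1, i) (g, j) ≤ A := by
    intro L' i j
    have h1 : (∑' g, wt z (Cl G h L') (1, i) (g, j)) * b j ≤ A * b j := by
      refine le_trans ?_ ((key1 L' i).trans (hbA i j))
      exact Finset.single_le_sum (f := fun j => (∑' g, wt z (Cl G h L') (1, i) (g, j)) * b j)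
        (fun _ _ => zero_le) (Finset.mem_univ j)
    exact (ENNReal.mul_le_mul_iff_left (hb0 j) (hbt j)).1 h1
  have key3 : ∀ (T : ℕ) (i j : I), nrm (blk (wt z (sl h (Br G h) T)) i j) ≤ A := by
    intro T i j
    refine (nrm_blk_le _ i j).trans (le_trans ?_ (key2 T i j))
    exact ENNReal.tsum_le_tsum fun g => br_le_cl T z _ _
  -- (2)
  set a : I → I → ℝ≥0∞ := fun i j => ∑' T : ℕ, nrm (blk (wt z (sl h (Cl G h L) T)) i j) with ha
  have ha1 : ∀ i j, a i j ≤ ∑' g, wt z (Cl G h L) (1, i) (g, j) := by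
    intro i j
    calc a i j ≤ ∑' T : ℕ, ∑' g, wt z (sl h (Cl G h L) T) (1, i) (g, j) :=
          ENNReal.tsum_le_tsum fun T => nrm_blk_le _ i j
      _ = ∑' g, ∑' T : ℕ, wt z (sl h (Cl G h L) T) (1, i) (g, j) := ENNReal.tsum_comm
      _ = ∑' g, wt z (Cl G h L) (1, i) (g, j) := tsum_congr fun g => (cl_eq L z (1, i) (g, j)).symm
  have ha2 : ∀ i, ∑ j, a i j * b j + δ * b i ≤ b i := by
    intro i
    calc ∑ j, a i j * b j + δ * b i
        = ∑ j, (a i j + (if j = i then δ else 0)) * b j := by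
          simp only [add_mul, Finset.sum_add_distrib]
          congr 1
          rw [Finset.sum_eq_single i]
          · rw [if_pos rfl]
          · intro j _ hj
            rw [if_neg hj, zero_mul]
          · intro h
            exact absurd (Finset.mem_univ i) h
      _ ≤ ∑ j, (∑' g, wt z (Cl G h L) (1, i) (g, j)) * b j := by
          refine Finset.sum_le_sum fun j _ => ?_
          gcongr
          by_cases hj : j = i
          · subst hj
            rw [if_pos rfl]
            exact hsk z hz hz1 j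
          · rw [if_neg hj, add_zero]
            exact ha1 i j
      _ ≤ b i := key1 L i
  -- (3)
  have hmain : ∀ (j : I) (M : ℕ) (i : I),
      ∑ T ∈ Finset.range M, nrm (blk (wt z (sl h (Br G h) T)) i j) ≤ A * (L * A) / δ := by
    intro j M i
    set s : I → ℝ≥0∞ := fun i => ∑ T ∈ Finset.range M, nrm (blk (wt z (sl h (Br G h) T)) i j) with hs
    have hst : ∀ i, s i ≠ ⊤ := by
      intro i
      refine (ENNReal.sum_lt_top.2 fun T _ => ?_).ne
      exact lt_of_le_of_lt (key3 T i j) (lt_top_iff_ne_top.2 hA)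
    have hss : ∀ i, s i ≤ L * A + ∑ k, a i k * s k := by
      intro i
      have h1 : ∀ T ∈ Finset.range M, nrm (blk (wt z (sl h (Br G h) T)) i j) ≤
          (if T < L then A else 0) + ∑ k, ∑ T1 ∈ Finset.Icc L T,
            nrm (blk (wt z (sl h (Cl G h L) T1)) i k) * nrm (blk (wt z (sl h (Br G h) (T - T1))) k j) := by
        intro T _
        by_cases hT : T < L
        · rw [if_pos hT]
          exact (key3 T i j).trans le_self_add
        · rw [if_neg hT, zero_add, Finset.sum_comm]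
          have h2 : nrm (blk (wt z (sl h (Br G h) T)) i j) ≤
              nrm (fun g => ∑ T1 ∈ Finset.Icc L T,
                blk (cmp (wt z (sl h (Cl G h L) T1)) (wt z (sl h (Br G h) (T - T1)))) i j g) :=
            nrm_mono fun g => br_slice (G := G) (h := h) (not_lt.1 hT) z (1, i) (g, j)
          refine h2.trans ((Sum_nrm _ _).trans (Finset.sum_le_sum fun T1 _ => ?_))
          exact nrm_blk_cmp (InvK_slbr H (T - T1) z) i j
      have h2 : ∑ T ∈ Finset.range M, (if T < L then A else 0) ≤ L * A := by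
        rw [← Finset.sum_filter, Finset.sum_const, nsmul_eq_mul]
        gcongr
        calc ((Finset.range M).filter (fun T => T < L)).card ≤ (Finset.range L).card := by
              refine Finset.card_le_card fun T hT => ?_
              exact Finset.mem_range.2 (Finset.mem_filter.1 hT).2
          _ = L := Finset.card_range L
      calc s i ≤ ∑ T ∈ Finset.range M, ((if T < L then A else 0) + ∑ k, ∑ T1 ∈ Finset.Icc L T,
            nrm (blk (wt z (sl h (Cl G h L) T1)) i k) * nrm (blk (wt z (sl h (Br G h) (T - T1))) k j)) :=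
            Finset.sum_le_sum h1
        _ = ∑ T ∈ Finset.range M, (if T < L then A else 0) +
            ∑ k, ∑ T ∈ Finset.range M, ∑ T1 ∈ Finset.Icc L T,
            nrm (blk (wt z (sl h (Cl G h L) T1)) i k) * nrm (blk (wt z (sl h (Br G h) (T - T1))) k j) := by
            rw [Finset.sum_add_distrib]
            congr 1
            exact Finset.sum_comm
        _ ≤ L * A + ∑ k, a i k * s k := by
            refine add_le_add h2 (Finset.sum_le_sum fun k _ => ?_)
            exact Sum_conv (fun T1 => nrm (blk (wt z (sl h (Cl G h L) T1)) i k))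
              (fun T => nrm (blk (wt z (sl h (Br G h) T)) k j)) L M
    have h3 := mat a b s (L * A) A δ hb1 hbt hst ha2 hss hbA i
    rw [ENNReal.le_div_iff_mul_le (Or.inl hδ) (Or.inr hc), mul_comm]
    exact h3
  refine ENNReal.tsum_le_of_sum_range_le fun M => ?_
  unfold nn
  rw [Finset.sum_comm]
  calc ∑ i, ∑ T ∈ Finset.range M, ∑ j, nrm (blk (wt z (sl h (Br G h) T)) i j)
      ≤ ∑ _i : I, (Fintype.card I * (A * (L * A) / δ)) := by
        refine Finset.sum_le_sum fun i _ => ?_
        rw [Finset.sum_comm]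
        calc ∑ j, ∑ T ∈ Finset.range M, nrm (blk (wt z (sl h (Br G h) T)) i j)
            ≤ ∑ _j : I, (A * (L * A) / δ) := Finset.sum_le_sum fun j _ => hmain j M i
          _ = Fintype.card I * (A * (L * A) / δ) := by
              rw [Finset.sum_const, nsmul_eq_mul, Finset.card_univ]
    _ = Fintype.card I * (Fintype.card I * (A * (L * A) / δ)) := by
        rw [Finset.sum_const, nsmul_eq_mul, Finset.card_univ]

end Pool.Agent.SWH
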