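import Pool.Agent.SWH.Defs

/-!
# SWH module Trn: transport to the vertex set `N × I`

PROOF.  Choose one representative of each `N`-orbit: `I` = the quotient type or the subtype of a finite set `R` of representatives; finite.
`e0 : N × I ≃ V`, `(γ, r) ↦ γ • r` (injective by freeness).  `G' = G.comap e0`, `e` the isomorphism, `h' = h ∘ e0`.  `tr γ` corresponds to the
action of `γ`.  `inv`: `hadj` for `γ` and `γ⁻¹`.  `lip`: the differences `h y - h x` over the edges `x ~ y` are `N`-invariant and there are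
finitely many orbits of oriented edges (finitely many `x = (1, i)`, each with finitely many neighbours): take `m` an upper bound.
`gap`: substitute `e0` in the sums (`Equiv.tsum_eq`).
-/

set_option autoImplicit false

open scoped ENNReal NNReal Classical
open Filter Topology

namespace Pool.Agent.SWH

private theorem trn_lip {V : Type} (G : SimpleGraph V) (hfin : ∀ v : V, (G.neighborSet v).Finite) (h : V → ℤ)
    {I : Type} [Fintype I] (r : I → V) : ∃ m : ℕ, ∀ i y, G.Adj (r i) y → h y ≤ h (r i) + m := by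
  have h1 : ∀ i : I, ∃ m : ℕ, ∀ y, G.Adj (r i) y → h y ≤ h (r i) + m := by
    intro i
    obtain ⟨b, hb⟩ := ((hfin (r i)).image h).bddAbove
    refine ⟨(b - h (r i)).toNat, fun y hy => ?_⟩
    have h2 : h y ≤ b := hb (Set.mem_image_of_mem h hy)
    have h3 : b - h (r i) ≤ ((b - h (r i)).toNat : ℤ) := Int.self_le_toNat _
    omega
  choose mi hmi using h1
  refine ⟨Finset.univ.sup mi, fun i y hy => ?_⟩
  have h2 := hmi i y hy
  have h3 : mi i ≤ Finset.univ.sup mi := Finset.le_sup (Finset.mem_univ i)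
  have h4 : (mi i : ℤ) ≤ ((Finset.univ.sup mi : ℕ) : ℤ) := by exact_mod_cast h3
  omega

theorem trn {V Γ : Type} [Group Γ] [MulAction Γ V] (G : SimpleGraph V) (hc : G.Connected)
    (hfin : ∀ v : V, (G.neighborSet v).Finite) (hadj : ∀ (γ : Γ) (x y : V), G.Adj x y → G.Adj (γ • x) (γ • y))
    (N : Subgroup Γ) (ψ : N → ℤ) (h : V → ℤ) (hfree : ∀ γ ∈ N, ∀ x : V, γ • x = x → γ = 1)
    (horb : ∃ R : Finset V, ∀ x : V, ∃ γ ∈ N, ∃ r ∈ R, x = γ • r)
    (heq : ∀ (γ : N) (x : V), h ((γ : Γ) • x) = ψ γ + h x)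
    (hup : ∀ x, ∃ y, G.Adj x y ∧ h x < h y) (hdn : ∀ x, ∃ y, G.Adj x y ∧ h y < h x)
    (θ : ℝ) (hθ : 0 < θ)
    (hgap : ∀ f : V → ℝ, f.support.Finite →
      ENNReal.ofReal θ * ∑' x, ENNReal.ofReal (f x ^ 2) ≤
        ∑' x, ∑' y, if G.Adj x y then ENNReal.ofReal ((f x - f y) ^ 2) else 0) :
    ∃ (I : Type) (hI : Fintype I) (G' : SimpleGraph (N × I)) (h' : N × I → ℤ) (m : ℕ) (_e : G' ≃g G),
      @Hyp N I _ hI G' h' m θ := by
  obtain ⟨R, hR⟩ := horb
  let I : Type := MulAction.orbitRel.Quotient N V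
  have hIf : Finite I := by
    refine Finite.of_surjective (fun r : R => (Quotient.mk _ (r : V) : I)) ?_
    intro q
    induction q using Quotient.inductionOn with
    | h x =>
      obtain ⟨γ, hγ, r, hr, rfl⟩ := hR x
      refine ⟨⟨r, hr⟩, ?_⟩
      apply Quotient.sound
      change MulAction.orbitRel N V r (γ • r)
      rw [MulAction.orbitRel_apply]
      refine ⟨⟨γ, hγ⟩⁻¹, ?_⟩
      change (γ⁻¹ : Γ) • γ • r = r
      rw [inv_smul_smul]
  let hI : Fintype I := Fintype.ofFinite I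
  let rep : I → V := fun i => Quotient.out i
  have hrep : ∀ i : I, (Quotient.mk _ (rep i) : I) = i := fun i => Quotient.out_eq i
  let f0 : N × I → V := fun p => (p.1 : Γ) • rep p.2
  have hcls : ∀ (γ : N) (x : V), (Quotient.mk _ ((γ : Γ) • x) : I) = Quotient.mk _ x := by
    intro γ x
    apply Quotient.sound
    change MulAction.orbitRel N V ((γ : Γ) • x) x
    rw [MulAction.orbitRel_apply]
    exact ⟨γ, rfl⟩
  have hbij : Function.Bijective f0 := by
    constructor
    · rintro ⟨γ, i⟩ ⟨γ', j⟩ hij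
      change (γ : Γ) • rep i = (γ' : Γ) • rep j at hij
      have h1 : i = j := by
        rw [← hrep i, ← hrep j, ← hcls γ (rep i), ← hcls γ' (rep j), hij]
      subst h1
      have h2 : ((γ'⁻¹ * γ : N) : Γ) • rep i = rep i := by
        rw [Subgroup.coe_mul, mul_smul, hij, Subgroup.coe_inv, inv_smul_smul]
      have h3 := hfree _ (γ'⁻¹ * γ : N).2 _ h2
      have h4 : γ'⁻¹ * γ = 1 := Subtype.ext h3
      rw [inv_mul_eq_one] at h4
      rw [h4]
    · intro x
      have h1 : (Quotient.mk _ x : I) = Quotient.mk _ (rep (Quotient.mk _ x)) := (hrep _).symm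
      have h2 := Quotient.exact h1
      change MulAction.orbitRel N V x (rep (Quotient.mk _ x)) at h2
      rw [MulAction.orbitRel_apply] at h2
      obtain ⟨γ, hγ⟩ := h2
      exact ⟨(γ, Quotient.mk _ x), hγ⟩
  let e0 : N × I ≃ V := Equiv.ofBijective f0 hbij
  have he0 : ∀ p, e0 p = (p.1 : Γ) • rep p.2 := fun p => rfl
  have htr : ∀ (γ : N) (p : N × I), e0 (tr γ p) = (γ : Γ) • e0 p := by
    intro γ p
    rw [he0, he0, tr, Subgroup.coe_mul, mul_smul]
  obtain ⟨m, hm⟩ := trn_lip G hfin h rep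
  refine ⟨I, hI, G.comap e0, fun p => h (e0 p), m, SimpleGraph.Iso.comap e0 G, ?_⟩
  have hadj' : ∀ a b, (G.comap e0).Adj a b ↔ G.Adj (e0 a) (e0 b) := fun a b => Iff.rfl
  refine @Hyp.mk N I _ hI _ _ _ _ ?_ ?_ ?_ ?_ ?_ ?_ ?_ hθ ?_
  · intro γ x y
    rw [hadj', hadj', htr, htr]
    constructor
    · intro hh
      have := hadj (γ : Γ)⁻¹ _ _ hh
      rwa [inv_smul_smul, inv_smul_smul] at this
    · exact hadj _ _ _
  · exact (SimpleGraph.Iso.comap e0 G).connected_iff.2 hc
  · intro x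
    exact (hfin (e0 x)).preimage (e0.injective.injOn)
  · exact ⟨ψ, fun γ x => by rw [htr, heq]⟩
  · intro x
    obtain ⟨y, h1, h2⟩ := hup (e0 x)
    refine ⟨e0.symm y, ?_, ?_⟩
    · rw [hadj', e0.apply_symm_apply]; exact h1
    · rw [e0.apply_symm_apply]; exact h2
  · intro x
    obtain ⟨y, h1, h2⟩ := hdn (e0 x)
    refine ⟨e0.symm y, ?_, ?_⟩
    · rw [hadj', e0.apply_symm_apply]; exact h1
    · rw [e0.apply_symm_apply]; exact h2
  · intro x y hxy
    rw [hadj'] at hxy
    have h1 := hadj (x.1 : Γ)⁻¹ _ _ hxy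
    rw [he0 x, inv_smul_smul] at h1
    have h2 := hm _ _ h1
    have h3 := heq x.1 ((x.1 : Γ)⁻¹ • e0 y)
    rw [smul_inv_smul] at h3
    have h4 := heq x.1 (rep x.2)
    rw [← he0 x] at h4
    rw [h3, h4]
    omega
  · intro f hf
    have h1 := hgap (fun v => f (e0.symm v)) (by
      refine (hf.image e0).subset ?_
      intro v hv
      exact ⟨e0.symm v, hv, e0.apply_symm_apply v⟩)
    have h2 : ∑' x, ENNReal.ofReal (f x ^ 2) = ∑' v, ENNReal.ofReal ((f (e0.symm v)) ^ 2) := by
      rw [← e0.tsum_eq]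
      simp only [e0.symm_apply_apply]
    rw [h2]
    refine h1.trans (le_of_eq ?_)
    rw [← e0.tsum_eq]
    apply tsum_congr
    intro x
    rw [← e0.tsum_eq]
    apply tsum_congr
    intro y
    rw [e0.symm_apply_apply, e0.symm_apply_apply]
    by_cases hxy : G.Adj (e0 x) (e0 y)
    · rw [if_pos hxy, if_pos ((hadj' x y).2 hxy)]
    · rw [if_neg hxy, if_neg (fun hh => hxy ((hadj' x y).1 hh))]

end Pool.Agent.SWH
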