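import Pool.Agent.SWH.Ivk

/-!
# SWH module Uba: the relation `U` (there is a bridge from `x` to `y`)

PROOF.  `U_trans`: `Br_append`, `endp_append`.  `U_tr`: `Br_inv`, `endp_map`.  `U_adj`: the list `[y]`.
`U_hor`: the lists `[x]` and `[x, y]` from `u` (`h u < h x = h y`, so `u ≠ y`; `x ≠ y` by `G.ne_of_adj`).
`U_walk`: `p.toPath`/`bypass` (its support is contained in the support of `p`), `l = support.tail`,
`SimpleGraph.Walk.isChain_adj_support`, `SimpleGraph.Walk.IsPath.support_nodup`.
-/

set_option autoImplicit false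

open scoped ENNReal NNReal Classical
open Filter Topology

namespace Pool.Agent.SWH

section
variable {V : Type} {G : SimpleGraph V} {h : V → ℤ}

theorem U_refl (x : V) : U G h x x := by
  exact ⟨[], Br_nil x, rfl⟩

theorem U_trans {x y w : V} (h1 : U G h x y) (h2 : U G h y w) : U G h x w := by
  obtain ⟨l1, hb1, rfl⟩ := h1
  obtain ⟨l2, hb2, rfl⟩ := h2
  exact ⟨l1 ++ l2, Br_append hb1 hb2, endp_append x l1 l2⟩

theorem U_le {x y : V} (h1 : U G h x y) : h x ≤ h y := by
  obtain ⟨l1, hb1, rfl⟩ := h1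
  have h2 := Br_sp_nonneg hb1
  unfold sp at h2
  omega

theorem U_adj {x y : V} (h1 : G.Adj x y) (h2 : h x < h y) : U G h x y := by
  refine ⟨[y], ⟨⟨?_, ?_⟩, ?_⟩, rfl⟩
  · exact List.isChain_pair.2 h1
  · simp [G.ne_of_adj h1]
  · intro z hz
    rw [List.mem_singleton] at hz
    subst hz
    exact ⟨h2, le_rfl⟩

theorem U_hor {u x y : V} (h1 : G.Adj u x) (h2 : h u < h x) (h3 : G.Adj x y) (h4 : h y = h x) : U G h u y := by
  have hux := G.ne_of_adj h1
  have hxy := G.ne_of_adj h3
  have huy : u ≠ y := by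
    intro h5
    rw [h5, h4] at h2
    exact lt_irrefl _ h2
  refine ⟨[x, y], ⟨⟨?_, ?_⟩, ?_⟩, rfl⟩
  · rw [List.isChain_cons_cons]
    exact ⟨h1, List.isChain_pair.2 h3⟩
  · simp [hux, hxy, huy]
  · intro z hz
    have he : endp u [x, y] = y := rfl
    rw [he]
    simp only [List.mem_cons, List.not_mem_nil, or_false] at hz
    rcases hz with rfl | rfl
    · exact ⟨h2, h4.ge⟩
    · exact ⟨by omega, le_rfl⟩

/-- A walk whose vertices other than `x` have heights in the interval from `h x + 1` to `h y`. -/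
theorem U_walk {x y : V} (p : G.Walk x y) (hp : ∀ v ∈ p.support, v = x ∨ (h x < h v ∧ h v ≤ h y)) : U G h x y := by
  have hs : x :: p.bypass.support.tail = p.bypass.support := by
    exact p.bypass.cons_tail_support
  have hnd : (x :: p.bypass.support.tail).Nodup := by
    rw [hs]
    exact p.bypass_isPath.support_nodup
  have hend : endp x p.bypass.support.tail = y := by
    have h1 := p.bypass.getLast_support
    have h2 : ∀ (l : List V) (a : V) (hl : a :: l ≠ []), endp a l = (a :: l).getLast hl := by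
      intro l
      induction l with
      | nil => intro a hl; rfl
      | cons b l ih =>
        intro a hl
        rw [endp_cons, List.getLast_cons_cons]
        exact ih b (List.cons_ne_nil _ _)
    rw [h2 _ _ (List.cons_ne_nil _ _)]
    have h3 : ∀ (l1 l2 : List V) (e1 : l1 ≠ []) (e2 : l2 ≠ []), l1 = l2 → l1.getLast e1 = l2.getLast e2 := by
      intro l1 l2 e1 e2 h; subst h; rfl
    rw [h3 _ _ _ p.bypass.support_ne_nil hs]
    exact h1
  refine ⟨p.bypass.support.tail, ⟨⟨?_, hnd⟩, ?_⟩, hend⟩
  · rw [hs]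
    exact p.bypass.isChain_adj_support
  · intro v hv
    rw [hend]
    have h1 : v ∈ p.support := by
      apply p.support_bypass_subset_support
      rw [← hs]
      exact List.mem_cons_of_mem _ hv
    rcases hp v h1 with h2 | h2
    · exfalso
      subst h2
      exact (List.nodup_cons.1 hnd).1 hv
    · exact h2

end

variable {Γ I : Type} [Group Γ] [Fintype I] {G : SimpleGraph (Γ × I)} {h : Γ × I → ℤ} {m : ℕ} {θ : ℝ}

theorem U_tr (H : Hyp G h m θ) (γ : Γ) {x y : Γ × I} (h1 : U G h x y) : U G h (tr γ x) (tr γ y) := by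
  obtain ⟨l, hb, rfl⟩ := h1
  exact ⟨l.map (tr γ), (Br_inv H γ x l).2 hb, endp_map γ x l⟩

end Pool.Agent.SWH
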